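import Mathlib
import Pool.Agent.W896.FD.Main
import Pool.Agent.V7H65.RK.Main

/-! The accepted inputs of a circuit of small formal degree are a union of few mixing sets. -/

namespace Pool.Agent.V7H65.HD

open Finset Pool.Agent.H526R2.GI Pool.Agent.W896.RK Pool.Agent.W896.HP Pool.Agent.W896.FD

variable {V : Type} {n : ℕ}

/-- All pieces hold. -/
def Hold {U : Circ V} {M : ℕ} (p : Pr n → V) (b₀ : V → Bool) (θ : Fin M → Option (Piece U))
    (x : Pr n → Bool) : Prop :=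
  ∀ j P, θ j = some P → P.True (fill p b₀ x)

theorem hold_val {U : Circ V} {M : ℕ} {p : Pr n → V} {b₀ : V → Bool}
    {θ : Fin M → Option (Piece U)} {x : Pr n → Bool} (hcl : Cl U (plst θ) U.out)
    (h : Hold p b₀ θ x) : U.Val (fill p b₀ x) U.out := by
  apply hcl.val
  intro P hP
  obtain ⟨j, hj⟩ := mem_plst.1 hP
  exact h j P hj

theorem fill_ne {p : Pr n → V} {b₀ : V → Bool} {x x' : Pr n → Bool} {v : V}
    (h : fill p b₀ x v ≠ fill p b₀ x' v) : ∃ e, p e = v ∧ x e ≠ x' e := by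
  cases hv : idx p v with
  | none =>
    exfalso
    apply h
    unfold fill
    rw [hv]
  | some e =>
    refine ⟨e, idx_some hv, ?_⟩
    intro h2
    apply h
    unfold fill
    rw [hv]
    exact h2

/-- The sets of inputs on which a valid family of pieces holds are mixing. -/
theorem hold_mixing {U : Circ V} {p : Pr n → V} (hp : Function.Injective p) (b₀ : V → Bool)
    {d : U.G → Pr n → ℕ} (hd : IsDeg U p d) {n₁ M a κ : ℕ}
    (e₀ : Fin n₁ ⊕ Fin n₁ ↪ Pr n) (haκ : 2 * (κ * a) ≤ n₁) (hn₁ : 1 ≤ n₁)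
    {θ : Fin M → Option (Piece U)}
    (hθ : Valid U (fun i => p (e₀ i)) (fun g i => d g (e₀ i)) a κ θ) :
    ∃ X Y : Finset (Pr n), Disjoint X Y ∧ n₁ ≤ 2 ^ (2 * κ + 1) * X.card ∧
      n₁ ≤ 2 ^ (2 * κ + 1) * Y.card ∧ Pool.Agent.V7H65.RK.Mixing X Y (Hold p b₀ θ) := by
  classical
  have hd' : IsDeg U (fun i => p (e₀ i)) (fun g i => d g (e₀ i)) :=
    ⟨fun g v b e i hi => hd.1 g v b e (e₀ i) hi, fun g a b e i => hd.2.1 g a b e (e₀ i),
      fun g S a e ha i => hd.2.2 g S a e ha (e₀ i)⟩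
  have hp' : Function.Injective (fun i => p (e₀ i)) := hp.comp e₀.injective
  obtain ⟨c, hc⟩ := exists_color (vrs (fun i => p (e₀ i)) (fun g i => d g (e₀ i)) θ)
    hθ.cnt hθ.card haκ
  obtain ⟨A, hA⟩ : ∃ A, A = univ.filter (fun i : Fin n₁ => ∀ j, Sum.inl i ∈
    vrs (fun i => p (e₀ i)) (fun g i => d g (e₀ i)) θ j → c j = true) := ⟨_, rfl⟩
  obtain ⟨B, hB⟩ : ∃ B, B = univ.filter (fun i : Fin n₁ => ∀ j, Sum.inr i ∈
    vrs (fun i => p (e₀ i)) (fun g i => d g (e₀ i)) θ j → c j = false) := ⟨_, rfl⟩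
  rw [← hA, ← hB] at hc
  have hAn : A.card ≤ n₁ := by simpa using card_le_univ A
  have hBn : B.card ≤ n₁ := by simpa using card_le_univ B
  refine ⟨A.map (Function.Embedding.inl.trans e₀), B.map (Function.Embedding.inr.trans e₀),
    ?_, ?_, ?_, ?_⟩
  · rw [disjoint_left]
    intro e he he'
    rw [mem_map] at he he'
    obtain ⟨i, _, rfl⟩ := he
    obtain ⟨j, _, hj⟩ := he'
    have := e₀.injective hj
    simp at this
  · rw [card_map]
    have h1 : n₁ * n₁ ≤ (2 ^ (2 * κ + 1) * A.card) * n₁ := by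
      calc n₁ * n₁ ≤ 2 ^ (2 * κ + 1) * (A.card * B.card) := hc
        _ = 2 ^ (2 * κ + 1) * A.card * B.card := by ring
        _ ≤ _ := Nat.mul_le_mul_left _ hBn
    exact Nat.le_of_mul_le_mul_right h1 (by omega)
  · rw [card_map]
    have h1 : n₁ * n₁ ≤ (2 ^ (2 * κ + 1) * B.card) * n₁ := by
      calc n₁ * n₁ ≤ 2 ^ (2 * κ + 1) * (A.card * B.card) := hc
        _ = 2 ^ (2 * κ + 1) * B.card * A.card := by ring
        _ ≤ _ := Nat.mul_le_mul_left _ hAn
    exact Nat.le_of_mul_le_mul_right h1 (by omega)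
  · intro z z' hz hz' hag j P hj
    have hvrs : vrs (fun i => p (e₀ i)) (fun g i => d g (e₀ i)) θ j =
        P.vars (fun i => p (e₀ i)) (fun g i => d g (e₀ i)) := by
      unfold vrs
      rw [hj]; rfl
    cases hcol : c j with
    | true =>
      -- the piece does not depend on `Y`
      refine piece_dep' hd' (hz j P hj) (fun v hv => ?_) hp'
      obtain ⟨e, he, hne⟩ := fill_ne hv
      have h1 : e ∉ A.map (Function.Embedding.inl.trans e₀) := by
        intro h2
        apply hne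
        rw [if_pos h2]
      have h3 : e ∈ B.map (Function.Embedding.inr.trans e₀) := by
        by_contra h2
        apply hne
        rw [if_neg h1]
        exact hag e h1 h2
      obtain ⟨i, hi, rfl⟩ := mem_map.1 h3
      refine ⟨.inr i, he, ?_⟩
      intro h5
      rw [← hvrs] at h5
      rw [hB, mem_filter] at hi
      rw [hi.2 j h5] at hcol
      exact Bool.noConfusion hcol
    | false =>
      refine piece_dep' hd' (hz' j P hj) (fun v hv => ?_) hp'
      obtain ⟨e, he, hne⟩ := fill_ne hv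
      have h3 : e ∈ A.map (Function.Embedding.inl.trans e₀) := by
        by_contra h2
        apply hne
        rw [if_neg h2]
      obtain ⟨i, hi, rfl⟩ := mem_map.1 h3
      refine ⟨.inl i, he, ?_⟩
      intro h5
      rw [← hvrs] at h5
      rw [hA, mem_filter] at hi
      rw [hi.2 j h5] at hcol
      exact Bool.noConfusion hcol

/-- The decomposition. -/
theorem circ_decomp {U : Circ V} {p : Pr n → V} (hp : Function.Injective p) (b₀ : V → Bool)
    {d : U.G → Pr n → ℕ} (hd : IsDeg U p d) {n₁ M a κ : ℕ}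
    (e₀ : Fin n₁ ⊕ Fin n₁ ↪ Pr n) (hκ : ∀ i, d U.out (e₀ i) ≤ κ) (ha : 1 ≤ a)
    (haκ : 2 * (κ * a) ≤ n₁) (hn₁ : 1 ≤ n₁) (hM : a + 8 * (n₁ * κ) ≤ a * M) :
    ∃ 𝒯 : Finset (Fin M → Option (Piece U)),
      (∀ x, U.Val (fill p b₀ x) U.out ↔ ∃ θ ∈ 𝒯, Hold p b₀ θ x) ∧
      ∀ θ ∈ 𝒯, ∃ X Y : Finset (Pr n), Disjoint X Y ∧ n₁ ≤ 2 ^ (2 * κ + 1) * X.card ∧
        n₁ ≤ 2 ^ (2 * κ + 1) * Y.card ∧ Pool.Agent.V7H65.RK.Mixing X Y (Hold p b₀ θ) := by
  classical
  have hd' : IsDeg U (fun i => p (e₀ i)) (fun g i => d g (e₀ i)) :=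
    ⟨fun g v b e i hi => hd.1 g v b e (e₀ i) hi, fun g a b e i => hd.2.1 g a b e (e₀ i),
      fun g S a e ha i => hd.2.2 g S a e ha (e₀ i)⟩
  have hp' : Function.Injective (fun i => p (e₀ i)) := hp.comp e₀.injective
  have hwt : wt (fun g i => d g (e₀ i)) U.out ≤ 2 * (n₁ * κ) := by
    unfold wt
    calc ∑ i, d U.out (e₀ i) ≤ ∑ _i : Fin n₁ ⊕ Fin n₁, κ := sum_le_sum (fun i _ => hκ i)
      _ = 2 * (n₁ * κ) := by
          rw [sum_const, card_univ, Fintype.card_sum, Fintype.card_fin, smul_eq_mul]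
          ring
  refine ⟨univ.filter (fun θ => Valid U (fun i => p (e₀ i)) (fun g i => d g (e₀ i)) a κ θ),
    ?_, ?_⟩
  · intro x
    constructor
    · intro hx
      obtain ⟨θ, h4, h5⟩ := exists_valid (p := fun i => p (e₀ i)) (d := fun g i => d g (e₀ i))
        hd' ha hp' hx hκ (m := M) (by omega)
      exact ⟨θ, mem_filter.2 ⟨mem_univ _, h4⟩, h5⟩
    · rintro ⟨θ, hθ, h⟩
      exact hold_val (mem_filter.1 hθ).2.cl h
  · intro θ hθ
    exact hold_mixing hp b₀ hd e₀ haκ hn₁ (mem_filter.1 hθ).2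

/-- Choosing the variables of small degree. -/
theorem exists_low {U : Circ V} {d : U.G → Pr n → ℕ} {k κ n₁ : ℕ} (hκ : κ = 8 * (k + 1))
    (hn₁ : n₁ = n * n / 16) (hn : 2 ≤ n) (hk : ∑ e, d U.out e ≤ k * n ^ 2) :
    ∃ e₀ : Fin n₁ ⊕ Fin n₁ ↪ Pr n, ∀ i, d U.out (e₀ i) ≤ κ := by
  classical
  obtain ⟨L, hL⟩ : ∃ L : Finset (Pr n), L = univ.filter (fun e => d U.out e ≤ κ) := ⟨_, rfl⟩
  have hLc : n * n ≤ 8 * L.card := by
    have h3 : (univ.filter (fun e => ¬ d U.out e ≤ κ)).card * (κ + 1) ≤ k * n ^ 2 := by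
      refine le_trans ?_ hk
      rw [← smul_eq_mul, ← sum_const]
      calc ∑ _e ∈ univ.filter (fun e => ¬ d U.out e ≤ κ), (κ + 1) ≤
          ∑ e ∈ univ.filter (fun e => ¬ d U.out e ≤ κ), d U.out e := by
            apply sum_le_sum
            intro e he
            have := (mem_filter.1 he).2
            omega
        _ ≤ _ := sum_le_sum_of_subset (subset_univ _)
    have h4 : L.card + (univ.filter (fun e => ¬ d U.out e ≤ κ)).card =
        Fintype.card (Pr n) := by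
      rw [hL, card_filter_add_card_filter_not, card_univ]
    have h5 := Pool.Agent.V7H65.RK.sq_le_card (n := n) hn
    obtain ⟨X, hX⟩ : ∃ X, X = (univ.filter (fun e => ¬ d U.out e ≤ κ)).card := ⟨_, rfl⟩
    rw [← hX] at h3 h4
    have h6 : 8 * X ≤ n * n := by
      have h7 : (8 * X) * (k + 1) ≤ (n * n) * (k + 1) := by
        calc (8 * X) * (k + 1) ≤ X * (κ + 1) := by rw [hκ]; nlinarith
          _ ≤ k * n ^ 2 := h3
          _ ≤ _ := by nlinarith
      exact Nat.le_of_mul_le_mul_right h7 (by omega)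
    have h8 : n ^ 2 = n * n := sq n
    omega
  have h3 : Fintype.card (Fin n₁ ⊕ Fin n₁) ≤ Fintype.card L := by
    rw [Fintype.card_sum, Fintype.card_fin, Fintype.card_coe]
    have : 16 * n₁ ≤ n * n := by rw [hn₁]; exact Nat.mul_div_le _ _
    omega
  obtain ⟨g⟩ := Function.Embedding.nonempty_of_card_le h3
  refine ⟨g.trans (Function.Embedding.subtype _), fun i => ?_⟩
  have h9 : ∀ e ∈ L, d U.out e ≤ κ := by
    intro e he
    rw [hL, mem_filter] at he
    exact he.2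
  exact h9 _ (g i).2

end Pool.Agent.V7H65.HD
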