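import Mathlib
import Pool.Agent.V7H65.RK.Meas

/-! The ladder argument over an arbitrary set of vertices. -/

namespace Pool.Agent.V7H65.HD

open Finset Pool.Agent.H526R2.GI Pool.Agent.V7H65.RK

section gen

variable {V : Type} [Fintype V] [DecidableEq V] {m : ℕ}

/-- All switch variables of a gadget are in the right sets. -/
def GoodV (EX EY : V → V → Prop) (g : Fin 4 → Bool × ZMod 3 → V) : Prop :=
  ∀ b : Fin 4,
    (b.val % 2 = 0 → ∀ s s' : ZMod 3, s ≠ 2 → s' ≠ 2 → EX (g b (false, s)) (g b (true, s'))) ∧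
    (b.val % 2 = 1 → ∀ s s' : ZMod 3, s ≠ 0 → s' ≠ 0 → EY (g b (false, s)) (g b (true, s')))

/-- The part of `f` on gadget `i`. -/
def curV (f : Pos m → V) (i : Fin m) : Fin 4 → Bool × ZMod 3 → V :=
  fun b p => f (i, b, p.1, p.2)

omit [Fintype V] [DecidableEq V] in
theorem curV_inj : Function.Injective (curV : (Pos m → V) → _) := by
  intro f g h
  funext ⟨i, b, t, s⟩
  have := congrFun (congrFun (congrFun h i) b) (t, s)
  exact this

open Classical in
/-- The good placements of a gadget. -/
noncomputable def goodsV (EX EY : V → V → Prop) : Finset (Fin 4 → Bool × ZMod 3 → V) :=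
  univ.filter (fun g => GoodV EX EY g)

open Classical in
theorem goodsV_card (EX EY : V → V → Prop) (hV : 0 < Fintype.card V) (K : ℕ)
    (hX : Fintype.card V ^ 2 ≤ K * ecard EX) (hY : Fintype.card V ^ 2 ≤ K * ecard EY) :
    Fintype.card V ^ 24 ≤ K ^ 16 * (goodsV EX EY).card := by
  have h1 : goodsV EX EY = Fintype.piFinset (fun b : Fin 4 =>
      if b.val % 2 = 0 then blks EX 2 else blks EY 0) := by
    ext g
    rw [goodsV, mem_filter, Fintype.mem_piFinset]
    simp only [mem_univ, true_and, GoodV]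
    apply forall_congr'
    intro b
    by_cases hb : b.val % 2 = 0
    · simp only [hb, if_true, blks, mem_filter, mem_univ, true_and, forall_const]
      constructor
      · intro h
        exact h.1
      · intro h
        exact ⟨h, fun h' => absurd h' (by norm_num)⟩
    · have hb' : b.val % 2 = 1 := by omega
      rw [if_neg hb, blks, mem_filter]
      constructor
      · intro h
        exact ⟨mem_univ _, h.2 hb'⟩
      · intro h
        exact ⟨fun h' => absurd h' hb, fun _ => h.2⟩
  have hX' := blks_bound EX 2 hV K hX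
  have hY' := blks_bound EY 0 hV K hY
  set n := Fintype.card V
  rw [h1, Fintype.card_piFinset, Fin.prod_univ_four]
  have e0 : (0 : Fin 4).val % 2 = 0 := rfl
  have e1 : ¬ (1 : Fin 4).val % 2 = 0 := by decide
  have e2 : (2 : Fin 4).val % 2 = 0 := rfl
  have e3 : ¬ (3 : Fin 4).val % 2 = 0 := by decide
  rw [if_pos e0, if_neg e1, if_pos e2, if_neg e3]
  calc n ^ 24 = n ^ 6 * n ^ 6 * n ^ 6 * n ^ 6 := by ring
    _ ≤ (K ^ 4 * (blks EX 2).card) * (K ^ 4 * (blks EY 0).card) *
        (K ^ 4 * (blks EX 2).card) * (K ^ 4 * (blks EY 0).card) := by gcongr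
    _ = _ := by ring

open Classical in
/-- The good gadgets of a placement. -/
noncomputable def gsetV (EX EY : V → V → Prop) (f : Pos m → V) : Finset (Fin m) :=
  univ.filter (fun i => GoodV EX EY (curV f i))

open Classical in
/-- Few placements have few good gadgets. -/
theorem tail_boundV (EX EY : V → V → Prop) (hV : 0 < Fintype.card V) (K : ℕ)
    (hX : Fintype.card V ^ 2 ≤ K * ecard EX) (hY : Fintype.card V ^ 2 ≤ K * ecard EY) (g₀ : ℕ) :
    (((univ : Finset (Pos m → V)).filter (fun f => (gsetV EX EY f).card < g₀)).card : ℝ) ≤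
      2 ^ g₀ * (1 - 1 / (2 * (K : ℝ) ^ 16)) ^ m * (Fintype.card V : ℝ) ^ (24 * m) := by
  have hgood := goodsV_card EX EY hV K hX hY
  have hKpos : 0 < K := by
    rcases Nat.eq_zero_or_pos K with h | h
    · rw [h] at hX
      have : 0 < Fintype.card V ^ 2 := by positivity
      omega
    · exact h
  let A := Fin 4 → Bool × ZMod 3 → V
  have hA : Fintype.card A = Fintype.card V ^ 24 := by
    simp only [A, Fintype.card_fun, Fintype.card_prod, Fintype.card_bool, ZMod.card,
      Fintype.card_fin]
    rw [← pow_mul]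
  set n := Fintype.card V
  let w : A → ℝ := fun a => if GoodV EX EY a then 1 / 2 else 1
  have hw : ∀ a, 0 ≤ w a := by
    intro a
    simp only [w]
    split_ifs <;> norm_num
  have hsum : ∑ a : A, w a = (n : ℝ) ^ 24 - (goodsV EX EY).card / 2 := by
    have e1 : ∀ a : A, w a = 1 - (if GoodV EX EY a then 1 / 2 else 0) := by
      intro a
      simp only [w]
      split_ifs <;> norm_num
    rw [sum_congr rfl (fun a _ => e1 a), sum_sub_distrib, sum_const, card_univ, hA, ← sum_filter,
      sum_const]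
    simp only [goodsV, nsmul_eq_mul]
    push_cast
    ring
  have hsum2 : ∑ a : A, w a ≤ (n : ℝ) ^ 24 * (1 - 1 / (2 * (K : ℝ) ^ 16)) := by
    rw [hsum]
    have h1 : (n : ℝ) ^ 24 ≤ (K : ℝ) ^ 16 * (goodsV EX EY).card := by exact_mod_cast hgood
    have h2 : (0 : ℝ) < (K : ℝ) ^ 16 := by positivity
    have h3 : (n : ℝ) ^ 24 / (K : ℝ) ^ 16 ≤ (goodsV EX EY).card := by
      rw [div_le_iff₀ h2]
      linarith
    have h4 : (n : ℝ) ^ 24 * (1 - 1 / (2 * (K : ℝ) ^ 16)) =
        (n : ℝ) ^ 24 - (n : ℝ) ^ 24 / (K : ℝ) ^ 16 / 2 := by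
      field_simp
    rw [h4]
    linarith
  have hprod : ∑ F : Fin m → A, ∏ i, w (F i) = (∑ a : A, w a) ^ m := by
    have := Finset.prod_univ_sum (ι := Fin m) (κ := fun _ => A) (fun _ => (univ : Finset A))
      (fun _ a => w a)
    rw [Fintype.piFinset_univ] at this
    rw [← this, prod_const, card_univ, Fintype.card_fin]
  have hone : ∀ F : Fin m → A, ∏ i, w (F i) =
      (1 / 2) ^ (univ.filter (fun i => GoodV EX EY (F i))).card := by
    intro F
    simp only [w]
    rw [prod_ite, prod_const, prod_const_one, mul_one]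
  have hkey : (((univ : Finset (Pos m → V)).filter
      (fun f => (gsetV EX EY f).card < g₀)).card : ℝ)
      * (1 / 2) ^ g₀ ≤ (∑ a : A, w a) ^ m := by
    rw [← hprod, ← nsmul_eq_mul, ← sum_const]
    calc ∑ f ∈ (univ : Finset (Pos m → V)).filter (fun f => (gsetV EX EY f).card < g₀),
          (1 / 2 : ℝ) ^ g₀
        ≤ ∑ f ∈ (univ : Finset (Pos m → V)).filter (fun f => (gsetV EX EY f).card < g₀),
          ∏ i, w (curV f i) := by
          apply sum_le_sum
          intro f hf
          rw [mem_filter] at hf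
          rw [hone]
          apply pow_le_pow_of_le_one (by norm_num) (by norm_num)
          exact hf.2.le
      _ ≤ ∑ f : Pos m → V, ∏ i, w (curV f i) := by
          apply sum_le_sum_of_subset_of_nonneg (subset_univ _)
          intro f _ _
          exact prod_nonneg (fun i _ => hw _)
      _ = ∑ F ∈ univ.map ⟨_, curV_inj (V := V) (m := m)⟩, ∏ i, w (F i) := by
          rw [sum_map]
          rfl
      _ ≤ ∑ F : Fin m → A, ∏ i, w (F i) := by
          apply sum_le_sum_of_subset_of_nonneg (subset_univ _)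
          intro f _ _
          exact prod_nonneg (fun i _ => hw _)
  have hfin : (∑ a : A, w a) ^ m ≤
      ((n : ℝ) ^ 24 * (1 - 1 / (2 * (K : ℝ) ^ 16))) ^ m := by
    apply pow_le_pow_left₀ (sum_nonneg (fun a _ => hw a)) hsum2
  have h2 : (0 : ℝ) < 2 ^ g₀ := by positivity
  calc (((univ : Finset (Pos m → V)).filter (fun f => (gsetV EX EY f).card < g₀)).card : ℝ)
      = 2 ^ g₀ * ((((univ : Finset (Pos m → V)).filter
        (fun f => (gsetV EX EY f).card < g₀)).card : ℝ) * (1 / 2) ^ g₀) := by
        rw [one_div, inv_pow]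
        field_simp
    _ ≤ 2 ^ g₀ * (((n : ℝ) ^ 24 * (1 - 1 / (2 * (K : ℝ) ^ 16))) ^ m) := by
        apply mul_le_mul_of_nonneg_left (hkey.trans hfin) h2.le
    _ = _ := by
        rw [mul_pow, ← pow_mul]
        ring

/-- A way of making an input from a placement and a step function: straightening the ladder does not
change the input. -/
def Straight (J : (Pos m → V) → (Pos m → Pos m) → Prop) : Prop :=
  ∀ f x y c, J f (stp x y c) ↔ J (f ∘ tau x y) (strt m (ip x y + c))

/-- A set of placements is mixing with respect to the good gadgets. -/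
def MixV (EX EY : V → V → Prop) (J : (Pos m → V) → (Pos m → Pos m) → Prop) : Prop :=
  ∀ f c x y x' y', J f (stp x y c) → J f (stp x' y' c) →
    (∀ i, ¬ GoodV EX EY (curV f i) → x i = x' i) →
    (∀ i, ¬ GoodV EX EY (curV f i) → y i = y' i) → J f (stp x y' c)

open Classical in
/-- The number of placements of the ladder with shift `r` in the set. -/
noncomputable def hitsV (r : ZMod 3) (J : (Pos m → V) → (Pos m → Pos m) → Prop) : ℕ :=
  ((univ : Finset (Pos m → V)).filter
    (fun f => Function.Injective f ∧ J f (strt m r))).card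

open Classical in
theorem hitsV_tau (r : ZMod 3) {J : (Pos m → V) → (Pos m → Pos m) → Prop} (hJ : Straight J)
    (x y : Fin m → Bool) :
    hitsV r J = ((univ : Finset (Pos m → V)).filter
      (fun f => Function.Injective f ∧ J f (stp x y (r - ip x y)))).card := by
  unfold hitsV
  let τ : Pos m ≃ Pos m := Equiv.ofBijective _ (tau_bij x y)
  symm
  apply card_bij' (fun f _ => f ∘ τ) (fun f _ => f ∘ τ.symm)
  · intro f hf
    rw [mem_filter] at hf ⊢
    refine ⟨mem_univ _, hf.2.1.comp τ.injective, ?_⟩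
    have := hf.2.2
    rw [hJ] at this
    have e : ip x y + (r - ip x y) = r := by ring
    rw [e] at this
    exact this
  · intro f hf
    rw [mem_filter] at hf ⊢
    refine ⟨mem_univ _, hf.2.1.comp τ.symm.injective, ?_⟩
    rw [hJ]
    have e : ip x y + (r - ip x y) = r := by ring
    rw [e]
    have e2 : (f ∘ ⇑τ.symm) ∘ tau x y = f := by
      funext p
      simp only [Function.comp]
      have : τ.symm (tau x y p) = p := τ.symm_apply_apply p
      rw [this]
    rw [e2]
    exact hf.2.2
  · intro f _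
    funext p
    simp
  · intro f _
    funext p
    simp

open Classical in
/-- The pairs of switch settings in the set. -/
noncomputable def ssetV (f : Pos m → V) (c : ZMod 3)
    (J : (Pos m → V) → (Pos m → Pos m) → Prop) : Finset ((Fin m → Bool) × (Fin m → Bool)) :=
  univ.filter (fun p => J f (stp p.1 p.2 c))

open Classical in
theorem hitsV_avg (r : ZMod 3) {J : (Pos m → V) → (Pos m → Pos m) → Prop} (hJ : Straight J) :
    4 ^ m * hitsV r J = ∑ c : ZMod 3,
      ∑ f ∈ (univ : Finset (Pos m → V)).filter (fun f => Function.Injective f),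
        ((ssetV f c J).filter (fun p => ip p.1 p.2 = r - c)).card := by
  have h1 : 4 ^ m * hitsV r J =
      ∑ p : (Fin m → Bool) × (Fin m → Bool), hitsV r J := by
    rw [sum_const, card_univ, Fintype.card_prod, Fintype.card_fun, Fintype.card_bool,
      Fintype.card_fin, smul_eq_mul, ← mul_pow]
    norm_num
  rw [h1]
  have h2 : ∀ p : (Fin m → Bool) × (Fin m → Bool), hitsV r J =
      ∑ c : ZMod 3, ∑ f ∈ (univ : Finset (Pos m → V)).filter (fun f => Function.Injective f),
        if (J f (stp p.1 p.2 c) ∧ ip p.1 p.2 = r - c) then 1 else 0 := by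
    intro p
    rw [hitsV_tau r hJ p.1 p.2]
    rw [Finset.sum_eq_single (r - ip p.1 p.2)]
    · rw [← card_filter, filter_filter]
      congr 1
      ext f
      simp only [mem_filter, mem_univ, true_and]
      constructor
      · intro h
        exact ⟨h.1, h.2, by ring⟩
      · intro h
        exact ⟨h.1, h.2.1⟩
    · intro c _ hc
      apply sum_eq_zero
      intro f _
      rw [if_neg]
      rintro ⟨_, h⟩
      apply hc
      rw [h]; ring
    · intro h
      exact absurd (mem_univ _) h
  rw [sum_congr rfl (fun p _ => h2 p), sum_comm]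
  apply sum_congr rfl
  intro c _
  rw [sum_comm]
  apply sum_congr rfl
  intro f _
  rw [← card_filter, ssetV, filter_filter]

omit [Fintype V] [DecidableEq V] in
theorem ssetV_mixing {EX EY : V → V → Prop} {J : (Pos m → V) → (Pos m → Pos m) → Prop}
    (hR : MixV EX EY J) (f : Pos m → V) (c : ZMod 3) (x y x' y' : Fin m → Bool)
    (h1 : (x, y) ∈ ssetV f c J) (h2 : (x', y') ∈ ssetV f c J)
    (hx : ∀ i ∉ gsetV EX EY f, x i = x' i) (hy : ∀ i ∉ gsetV EX EY f, y i = y' i) :
    (x, y') ∈ ssetV f c J := by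
  classical
  simp only [ssetV, mem_filter, mem_univ, true_and] at h1 h2 ⊢
  apply hR f c x y x' y' h1 h2
  · intro i hi
    apply hx i
    simp only [gsetV, mem_filter, mem_univ, true_and]
    exact hi
  · intro i hi
    apply hy i
    simp only [gsetV, mem_filter, mem_univ, true_and]
    exact hi

omit [Fintype V] [DecidableEq V] in
theorem term_boundV {EX EY : V → V → Prop} {J : (Pos m → V) → (Pos m → Pos m) → Prop}
    (hR : MixV EX EY J) (f : Pos m → V) (c a b : ZMod 3) (g₀ : ℕ)
    (hg : g₀ ≤ (gsetV EX EY f).card) :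
    |(((ssetV f c J).filter (fun p => ip p.1 p.2 = a)).card : ℝ) -
      ((ssetV f c J).filter (fun p => ip p.1 p.2 = b)).card| ≤
      4 ^ m * (3 / 2 * (13 / 15) ^ g₀) := by
  have h := disc_ctx (gsetV EX EY f) (ssetV f c J)
    (fun x y x' y' h1 h2 hx hy => ssetV_mixing hR f c x y x' y' h1 h2 hx hy) a b
  refine h.trans ?_
  rw [Fintype.card_fin]
  have hm : (gsetV EX EY f).card ≤ m := by
    have := card_le_univ (gsetV EX EY f)
    rwa [Fintype.card_fin] at this
  set g := (gsetV EX EY f).card with hgdef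
  have e : (4 : ℝ) ^ (m - g) * (Real.sqrt 2 * Real.sqrt 12 ^ g) =
      4 ^ m * (Real.sqrt 2 * (Real.sqrt 12 / 4) ^ g) := by
    have : (4 : ℝ) ^ m = 4 ^ (m - g) * 4 ^ g := by rw [← pow_add]; congr 1; omega
    rw [this, div_pow]
    field_simp
  rw [e]
  apply mul_le_mul_of_nonneg_left _ (by positivity)
  apply mul_le_mul sqrt2_le _ (by positivity) (by norm_num)
  calc (Real.sqrt 12 / 4) ^ g ≤ (13 / 15) ^ g := pow_le_pow_left₀ (by positivity) sqrt12_le _
    _ ≤ (13 / 15) ^ g₀ := pow_le_pow_of_le_one (by norm_num) (by norm_num) hg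

omit [Fintype V] [DecidableEq V] in
theorem term_trivialV (f : Pos m → V) (c a b : ZMod 3)
    (J : (Pos m → V) → (Pos m → Pos m) → Prop) :
    |(((ssetV f c J).filter (fun p => ip p.1 p.2 = a)).card : ℝ) -
      ((ssetV f c J).filter (fun p => ip p.1 p.2 = b)).card| ≤ 4 ^ m := by
  have h : ∀ a : ZMod 3, (((ssetV f c J).filter (fun p => ip p.1 p.2 = a)).card : ℝ) ≤ 4 ^ m := by
    intro a
    have := card_le_univ ((ssetV f c J).filter (fun p => ip p.1 p.2 = a))
    rw [Fintype.card_prod, Fintype.card_fun, Fintype.card_bool, Fintype.card_fin, ← mul_pow] at this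
    exact_mod_cast this
  rw [abs_le]
  have h1 := h a
  have h2 := h b
  have h3 : (0 : ℝ) ≤ ((ssetV f c J).filter (fun p => ip p.1 p.2 = a)).card := by positivity
  have h4 : (0 : ℝ) ≤ ((ssetV f c J).filter (fun p => ip p.1 p.2 = b)).card := by positivity
  constructor <;> linarith

open Classical in
/-- The main estimate. -/
theorem hitsV_diff (EX EY : V → V → Prop) (hV : 0 < Fintype.card V) (K : ℕ)
    (hX : Fintype.card V ^ 2 ≤ K * ecard EX) (hY : Fintype.card V ^ 2 ≤ K * ecard EY)
    (J : (Pos m → V) → (Pos m → Pos m) → Prop) (hJ : Straight J)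
    (hR : MixV EX EY J) (g₀ : ℕ) (hm : m = 8 * K ^ 16 * g₀) :
    |(hitsV 0 J : ℝ) - hitsV 1 J| ≤ 8 * (13 / 15) ^ g₀ * (Fintype.card V : ℝ) ^ (24 * m) := by
  have hKpos : 0 < K := by
    rcases Nat.eq_zero_or_pos K with h | h
    · rw [h] at hX
      have : 0 < Fintype.card V ^ 2 := by positivity
      omega
    · exact h
  have h0 := hitsV_avg (V := V) (m := m) 0 hJ
  have h1 := hitsV_avg (V := V) (m := m) 1 hJ
  have h0' : (4 : ℝ) ^ m * hitsV 0 J = ∑ c : ZMod 3,
      ∑ f ∈ (univ : Finset (Pos m → V)).filter (fun f => Function.Injective f),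
        (((ssetV f c J).filter (fun p => ip p.1 p.2 = 0 - c)).card : ℝ) := by exact_mod_cast h0
  have h1' : (4 : ℝ) ^ m * hitsV 1 J = ∑ c : ZMod 3,
      ∑ f ∈ (univ : Finset (Pos m → V)).filter (fun f => Function.Injective f),
        (((ssetV f c J).filter (fun p => ip p.1 p.2 = 1 - c)).card : ℝ) := by exact_mod_cast h1
  have htail := tail_boundV (m := m) EX EY hV K hX hY g₀
  rw [hm] at htail
  have hexp := exp_bound K g₀ hKpos
  rw [← hm] at htail hexp
  set n := Fintype.card V with hn
  have hT : (((univ : Finset (Pos m → V)).filter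
      (fun f => (gsetV EX EY f).card < g₀)).card : ℝ) ≤ (13 / 15) ^ g₀ * (n : ℝ) ^ (24 * m) := by
    refine htail.trans ?_
    exact mul_le_mul_of_nonneg_right hexp (by positivity)
  have hc : ∀ c : ZMod 3,
      ∑ f ∈ (univ : Finset (Pos m → V)).filter (fun f => Function.Injective f),
      |(((ssetV f c J).filter (fun p => ip p.1 p.2 = 0 - c)).card : ℝ) -
        ((ssetV f c J).filter (fun p => ip p.1 p.2 = 1 - c)).card| ≤
      4 ^ m * (5 / 2 * (13 / 15) ^ g₀ * (n : ℝ) ^ (24 * m)) := by
    intro c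
    calc ∑ f ∈ (univ : Finset (Pos m → V)).filter (fun f => Function.Injective f),
          |(((ssetV f c J).filter (fun p => ip p.1 p.2 = 0 - c)).card : ℝ) -
            ((ssetV f c J).filter (fun p => ip p.1 p.2 = 1 - c)).card|
        ≤ ∑ f : Pos m → V,
          |(((ssetV f c J).filter (fun p => ip p.1 p.2 = 0 - c)).card : ℝ) -
            ((ssetV f c J).filter (fun p => ip p.1 p.2 = 1 - c)).card| := by
          apply sum_le_sum_of_subset_of_nonneg (subset_univ _)
          intro _ _ _
          positivity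
      _ ≤ ∑ f : Pos m → V, (4 ^ m * (3 / 2 * (13 / 15) ^ g₀) +
            if (gsetV EX EY f).card < g₀ then 4 ^ m else 0) := by
          apply sum_le_sum
          intro f _
          by_cases hf : (gsetV EX EY f).card < g₀
          · rw [if_pos hf]
            have h2 := term_trivialV f c (0 - c) (1 - c) J
            have h3 : (0 : ℝ) ≤ 4 ^ m * (3 / 2 * (13 / 15) ^ g₀) := by positivity
            linarith
          · rw [if_neg hf, add_zero]
            exact term_boundV hR f c _ _ g₀ (by omega)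
      _ = 4 ^ m * (3 / 2 * (13 / 15) ^ g₀) * (n : ℝ) ^ (24 * m) +
          (((univ : Finset (Pos m → V)).filter
            (fun f => (gsetV EX EY f).card < g₀)).card : ℝ) * 4 ^ m := by
          rw [sum_add_distrib, sum_const, card_univ, Fintype.card_fun, card_Pos,
            ← sum_filter, sum_const, nsmul_eq_mul, nsmul_eq_mul]
          push_cast
          ring
      _ ≤ 4 ^ m * (3 / 2 * (13 / 15) ^ g₀) * (n : ℝ) ^ (24 * m) +
          ((13 / 15) ^ g₀ * (n : ℝ) ^ (24 * m)) * 4 ^ m := by
          gcongr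
      _ = _ := by ring
  have hfinal : (4 : ℝ) ^ m * |(hitsV 0 J : ℝ) - hitsV 1 J| ≤
      4 ^ m * (8 * (13 / 15) ^ g₀ * (n : ℝ) ^ (24 * m)) := by
    calc (4 : ℝ) ^ m * |(hitsV 0 J : ℝ) - hitsV 1 J|
        = |(4 : ℝ) ^ m * hitsV 0 J - 4 ^ m * hitsV 1 J| := by
          rw [← mul_sub, abs_mul, abs_of_nonneg (by positivity : (0 : ℝ) ≤ 4 ^ m)]
      _ ≤ ∑ c : ZMod 3, 4 ^ m * (5 / 2 * (13 / 15) ^ g₀ * (n : ℝ) ^ (24 * m)) := by
          rw [h0', h1', ← sum_sub_distrib]
          refine (abs_sum_le_sum_abs _ _).trans (sum_le_sum (fun c _ => ?_))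
          rw [← sum_sub_distrib]
          exact (abs_sum_le_sum_abs _ _).trans (hc c)
      _ = 4 ^ m * (15 / 2 * (13 / 15) ^ g₀ * (n : ℝ) ^ (24 * m)) := by
          rw [sum_const, card_univ, ZMod.card, nsmul_eq_mul]
          push_cast
          ring
      _ ≤ 4 ^ m * (8 * (13 / 15) ^ g₀ * (n : ℝ) ^ (24 * m)) := by
          gcongr
          norm_num
  exact le_of_mul_le_mul_left hfinal (by positivity)

/-- The number of all injective placements. -/
theorem inj_card (B g₀ : ℕ) (hm : m = B * g₀) (hn : 57600 * B * m ≤ Fintype.card V)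
    (hn0 : 0 < Fintype.card V) :
    (99 / 100 : ℝ) ^ g₀ * (Fintype.card V : ℝ) ^ (24 * m) ≤
      Fintype.card (Pos m ↪ V) := by
  classical
  have h1 : Fintype.card (Pos m ↪ V) = (Fintype.card V).descFactorial (24 * m) := by
    rw [Fintype.card_embedding_eq, card_Pos]
  set n := Fintype.card V with hnV
  have h2 : (n - 24 * m) ^ (24 * m) ≤ n.descFactorial (24 * m) := by
    refine le_trans ?_ (Nat.pow_sub_le_descFactorial n (24 * m))
    apply Nat.pow_le_pow_left
    omega
  rcases Nat.eq_zero_or_pos g₀ with hg | hg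
  · subst hg
    simp only [mul_zero] at hm
    subst hm
    rw [h1]
    simp
  rcases Nat.eq_zero_or_pos B with hB | hB
  · subst hB
    simp only [zero_mul] at hm
    subst hm
    rw [h1]
    simp only [mul_zero, pow_zero, mul_one, Nat.descFactorial_zero, Nat.cast_one]
    exact pow_le_one₀ (by norm_num) (by norm_num)
  have hm1 : 24 * m ≤ n := by
    have : 24 * m ≤ 57600 * B * m := by
      apply Nat.mul_le_mul_right
      omega
    omega
  have hnR : (0 : ℝ) < n := by exact_mod_cast hn0
  have h3 : ((n : ℝ) - 24 * m) ^ (24 * m) ≤ Fintype.card (Pos m ↪ V) := by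
    rw [h1]
    have : (((n - 24 * m : ℕ) : ℝ)) ^ (24 * m) ≤ (n.descFactorial (24 * m) : ℝ) := by
      exact_mod_cast h2
    rw [Nat.cast_sub hm1] at this
    push_cast at this
    exact this
  refine le_trans ?_ h3
  have h4 : ((n : ℝ) - 24 * m) ^ (24 * m) = ((1 - 24 * m / n) ^ (24 * B)) ^ g₀ * (n : ℝ) ^ (24 * m) := by
    rw [← pow_mul]
    have e : 24 * B * g₀ = 24 * m := by rw [hm]; ring
    rw [e, ← mul_pow]
    congr 1
    field_simp
  rw [h4]
  apply mul_le_mul_of_nonneg_right _ (by positivity)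
  apply pow_le_pow_left₀ (by norm_num)
  have h5 : (57600 * B * m : ℝ) ≤ n := by exact_mod_cast hn
  have hmR : (0 : ℝ) ≤ m := by positivity
  have hBR : (1 : ℝ) ≤ B := by exact_mod_cast hB
  have h6 : (24 * m / n : ℝ) ≤ 1 / (2400 * B) := by
    rw [div_le_div_iff₀ hnR (by positivity)]
    nlinarith
  have h7 : (0 : ℝ) ≤ 24 * m / n := by positivity
  have h8 : (1 / (2400 * B) : ℝ) ≤ 1 := by
    rw [div_le_one (by positivity)]
    nlinarith
  have h9 := one_add_mul_le_pow (a := (-(24 * m / n) : ℝ)) (by linarith) (24 * B)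
  push_cast at h9
  have e : (1 - 24 * m / n : ℝ) = 1 + -(24 * m / n) := by ring
  rw [e]
  refine le_trans ?_ h9
  have h10 : (24 * B : ℝ) * (24 * m / n) ≤ 24 * B * (1 / (2400 * B)) := by
    apply mul_le_mul_of_nonneg_left h6 (by positivity)
  have h11 : (24 * B * (1 / (2400 * B)) : ℝ) = 1 / 100 := by
    field_simp
    norm_num
  linarith

open Classical in
theorem hitsV_true (r : ZMod 3) :
    hitsV (V := V) (m := m) r (fun _ _ => True) = Fintype.card (Pos m ↪ V) := by
  unfold hitsV
  simp only [and_true]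
  have e : ((univ : Finset (Pos m → V)).filter (fun f => Function.Injective f)) =
      (univ : Finset (Pos m ↪ V)).map ⟨fun f p => f p,
        fun f g h => by ext p; exact congrFun h p⟩ := by
    ext f
    simp only [mem_filter, mem_univ, true_and, mem_map]
    constructor
    · intro h
      exact ⟨⟨f, h⟩, rfl⟩
    · rintro ⟨g, rfl⟩
      exact g.injective
  rw [e, card_map, card_univ]

/-- The relative estimate. -/
theorem hitsV_rel (EX EY : V → V → Prop) (hV : 0 < Fintype.card V) (K : ℕ)
    (hX : by classical exact Fintype.card V ^ 2 ≤ K * ecard EX)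
    (hY : by classical exact Fintype.card V ^ 2 ≤ K * ecard EY)
    (J : (Pos m → V) → (Pos m → Pos m) → Prop) (hJ : Straight J)
    (hR : MixV EX EY J) (g₀ : ℕ) (hm : m = 8 * K ^ 16 * g₀)
    (hn : 57600 * (8 * K ^ 16) * m ≤ Fintype.card V) :
    |(hitsV 0 J : ℝ) - hitsV 1 J| ≤
      8 * (8 / 9) ^ g₀ * hitsV (V := V) (m := m) 0 (fun _ _ => True) := by
  have h1 := hitsV_diff EX EY hV K hX hY J hJ hR g₀ hm
  have h2 := inj_card (V := V) (8 * K ^ 16) g₀ hm hn hV
  rw [hitsV_true]
  refine h1.trans ?_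
  have h3 : ((13 : ℝ) / 15) ^ g₀ ≤ (8 / 9) ^ g₀ * (99 / 100) ^ g₀ := by
    rw [← mul_pow]
    apply pow_le_pow_left₀ (by positivity)
    norm_num
  calc 8 * (13 / 15 : ℝ) ^ g₀ * (Fintype.card V : ℝ) ^ (24 * m)
      ≤ 8 * ((8 / 9) ^ g₀ * (99 / 100) ^ g₀) * (Fintype.card V : ℝ) ^ (24 * m) := by gcongr
    _ = 8 * (8 / 9) ^ g₀ * ((99 / 100) ^ g₀ * (Fintype.card V : ℝ) ^ (24 * m)) := by ring
    _ ≤ _ := by gcongr

end gen

end Pool.Agent.V7H65.HD
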