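import Mathlib
import Pool.Agent.V7H65.RK.Emb

/-! Spanning ladders: the ladder placed on the vertices, with the remaining vertices on a path. -/

namespace Pool.Agent.V7H65.HD

open Finset Pool.Agent.H526R2.GI Pool.Agent.V7H65.RK

variable {n m k : ℕ}

/-- The adjacency bits of the graph with the edges `g p`, `g (F p)`. -/
noncomputable def inpG {P : Type} (g : P → Fin n) (F : P → P) : Pr n → Bool :=
  open Classical in fun e => decide (∃ p, e.1 = s(g p, g (F p)))

theorem inpG_iff {P : Type} (g : P → Fin n) (F : P → P) (e : Pr n) :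
    inpG g F e = true ↔ ∃ p, e.1 = s(g p, g (F p)) := by
  simp [inpG]

theorem adjG_iff {P : Type} (g : P → Fin n) (F : P → P) (u v : Fin n) :
    (graph (inpG g F)).Adj u v ↔ u ≠ v ∧ ∃ p, s(u, v) = s(g p, g (F p)) := by
  rw [graph_adj]
  simp only [inpG_iff]
  simp

/-- The first position. -/
def base (m : ℕ) [NeZero m] : Pos m := (0, 0, false, 0)

/-- The step function with the remaining vertices put in front of the first position. -/
def stepH [NeZero m] (F : Pos m → Pos m) : Pos m ⊕ Fin (k + 1) → Pos m ⊕ Fin (k + 1)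
  | Sum.inl p => if F p = base m then Sum.inr 0 else Sum.inl (F p)
  | Sum.inr i => if h : i.val + 1 < k + 1 then Sum.inr ⟨i.val + 1, h⟩ else Sum.inl (base m)

/-- The relabelling. -/
def tauH (x y : Fin m → Bool) : Pos m ⊕ Fin (k + 1) → Pos m ⊕ Fin (k + 1) :=
  Sum.map (tau x y) id

theorem tau_base [NeZero m] (x y : Fin m → Bool) : tau x y (base m) = base m := by
  simp [tau, base, uu, ps_zero]

theorem tauH_bij (x y : Fin m → Bool) :
    Function.Bijective (tauH (k := k) x y) :=
  ⟨Function.Injective.sumMap (tau_inj x y) Function.injective_id,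
    Function.Surjective.sumMap (tau_bij x y).2 Function.surjective_id⟩

theorem stepH_tau [NeZero m] (x y : Fin m → Bool) (c : ZMod 3) (p : Pos m ⊕ Fin (k + 1)) :
    stepH (stp x y c) (tauH x y p) = tauH x y (stepH (strt m (ip x y + c)) p) := by
  rcases p with p | i
  · simp only [tauH, Sum.map_inl, stepH]
    rw [stp_tau]
    by_cases h : strt m (ip x y + c) p = base m
    · rw [h, tau_base, if_pos rfl]
      rfl
    · rw [if_neg h, if_neg (fun h2 => h (tau_inj x y (h2.trans (tau_base x y).symm)))]
      rfl
  · simp only [tauH, Sum.map_inr, stepH, id_eq]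
    by_cases h : i.val + 1 < k + 1
    · rw [dif_pos h]
      rfl
    · rw [dif_neg h]
      simp only [Sum.map_inl]
      rw [tau_base]

theorem inpG_tau [NeZero m] (g : Pos m ⊕ Fin (k + 1) → Fin n) (x y : Fin m → Bool)
    (c : ZMod 3) :
    inpG g (stepH (stp x y c)) = inpG (g ∘ tauH x y) (stepH (strt m (ip x y + c))) := by
  funext e
  rw [Bool.eq_iff_iff, inpG_iff, inpG_iff]
  constructor
  · rintro ⟨p, hp⟩
    obtain ⟨q, rfl⟩ := (tauH_bij x y).2 p
    refine ⟨q, ?_⟩
    rw [hp, stepH_tau]
    rfl
  · rintro ⟨p, hp⟩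
    refine ⟨tauH x y p, ?_⟩
    rw [hp, stepH_tau]
    rfl

/-- The vertices which are not used. -/
def frees (f : Pos m → Fin n) : Finset (Fin n) := univ \ univ.image f

theorem frees_tau (f : Pos m → Fin n) (x y : Fin m → Bool) : frees (f ∘ tau x y) = frees f := by
  unfold frees
  congr 1
  ext v
  simp only [mem_image, mem_univ, true_and, Function.comp]
  constructor
  · rintro ⟨p, hp⟩
    exact ⟨_, hp⟩
  · rintro ⟨p, hp⟩
    obtain ⟨q, rfl⟩ := (tau_bij x y).2 p
    exact ⟨q, hp⟩

/-- The unused vertices in increasing order. -/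
noncomputable def ext [NeZero m] (k : ℕ) (f : Pos m → Fin n) : Fin (k + 1) → Fin n := fun i =>
  if h : (frees f).card = k + 1 then (frees f).orderEmbOfFin h i else f (base m)

theorem ext_tau [NeZero m] (f : Pos m → Fin n) (x y : Fin m → Bool) :
    ext k (f ∘ tau x y) = ext k f := by
  have h1 := frees_tau f x y
  have h2 : ∀ (S T : Finset (Fin n)), S = T → ∀ (u v : Fin n), u = v → ∀ i : Fin (k + 1),
      (if h : S.card = k + 1 then S.orderEmbOfFin h i else u) =
      (if h : T.card = k + 1 then T.orderEmbOfFin h i else v) := by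
    rintro S T rfl u v rfl i
    rfl
  funext i
  exact h2 _ _ h1 _ _ (by simp only [Function.comp]; rw [tau_base]) i

/-- All vertices. -/
noncomputable def full [NeZero m] (k : ℕ) (f : Pos m → Fin n) : Pos m ⊕ Fin (k + 1) → Fin n :=
  Sum.elim f (ext k f)

theorem full_tau [NeZero m] (f : Pos m → Fin n) (x y : Fin m → Bool) :
    full k f ∘ tauH x y = full k (f ∘ tau x y) := by
  funext p
  rcases p with p | i
  · rfl
  · simp only [full, Function.comp, tauH, Sum.map_inr, Sum.elim_inr, id_eq]
    have := congrFun (ext_tau (k := k) f x y) i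
    exact this.symm

/-- The adjacency bits of the spanning ladder. -/
noncomputable def inpH [NeZero m] (k : ℕ) (f : Pos m → Fin n) (F : Pos m → Pos m) : Pr n → Bool :=
  inpG (full k f) (stepH F)

theorem inpH_tau [NeZero m] (f : Pos m → Fin n) (x y : Fin m → Bool) (c : ZMod 3) :
    inpH k f (stp x y c) = inpH k (f ∘ tau x y) (strt m (ip x y + c)) := by
  unfold inpH
  rw [inpG_tau, full_tau]

/-- Outside of `X` the good `x`-bits do not matter. -/
theorem indep_xH [NeZero m] {X Y : Finset (Pr n)} (f : Pos m → Fin n) (c : ZMod 3)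
    (x x' y : Fin m → Bool) (h : ∀ i, x i ≠ x' i → Good X Y (cur f i)) (e : Pr n) (he : e ∉ X)
    (h1 : inpH k f (stp x y c) e = true) : inpH k f (stp x' y c) e = true := by
  unfold inpH at h1 ⊢
  rw [inpG_iff] at h1 ⊢
  obtain ⟨p, hp⟩ := h1
  rcases p with ⟨i, b, t, s⟩ | j
  · cases t
    · have hb1 : ∀ x y : Fin m → Bool, stepH (k := k) (stp x y c) (Sum.inl (i, b, false, s)) =
          Sum.inl (i, b, true, sw b.val (x i) (y i) s) := by
        intro x y
        exact if_neg (fun h2 => by simp [stp, base] at h2)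
      rw [hb1] at hp
      by_cases hx : x i = x' i
      · refine ⟨Sum.inl (i, b, false, s), ?_⟩
        rw [hp, hb1, hx]
      by_cases hb : b.val % 2 = 0
      · by_cases hs : s = 2
        · subst hs
          refine ⟨Sum.inl (i, b, false, 2), ?_⟩
          rw [hp, hb1]
          simp only [sw_two _ hb]
        · exfalso
          have hg := (h i hx b).1 hb s (sw b.val (x i) (y i) s) hs (by
            intro h2
            exact hs (sw_inj _ _ _ (h2.trans (sw_two _ hb _ _).symm)))
          obtain ⟨h2, h3⟩ := hg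
          apply he
          convert h3 using 1
          exact Subtype.ext hp
      · refine ⟨Sum.inl (i, b, false, s), ?_⟩
        rw [hp, hb1]
        rw [sw_odd_eq b.val hb (x i) (x' i)]
    · exact ⟨Sum.inl (i, b, true, s), hp⟩
  · exact ⟨Sum.inr j, hp⟩

/-- Outside of `Y` the good `y`-bits do not matter. -/
theorem indep_yH [NeZero m] {X Y : Finset (Pr n)} (f : Pos m → Fin n) (c : ZMod 3)
    (x y y' : Fin m → Bool) (h : ∀ i, y i ≠ y' i → Good X Y (cur f i)) (e : Pr n) (he : e ∉ Y)
    (h1 : inpH k f (stp x y c) e = true) : inpH k f (stp x y' c) e = true := by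
  unfold inpH at h1 ⊢
  rw [inpG_iff] at h1 ⊢
  obtain ⟨p, hp⟩ := h1
  rcases p with ⟨i, b, t, s⟩ | j
  · cases t
    · have hb1 : ∀ x y : Fin m → Bool, stepH (k := k) (stp x y c) (Sum.inl (i, b, false, s)) =
          Sum.inl (i, b, true, sw b.val (x i) (y i) s) := by
        intro x y
        exact if_neg (fun h2 => by simp [stp, base] at h2)
      rw [hb1] at hp
      by_cases hy : y i = y' i
      · refine ⟨Sum.inl (i, b, false, s), ?_⟩
        rw [hp, hb1, hy]
      by_cases hb : b.val % 2 = 0
      · refine ⟨Sum.inl (i, b, false, s), ?_⟩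
        rw [hp, hb1]
        rw [sw_even_eq b.val hb (x i) (y i) (y' i)]
      · by_cases hs : s = 0
        · subst hs
          refine ⟨Sum.inl (i, b, false, 0), ?_⟩
          rw [hp, hb1]
          simp only [sw_zero _ hb]
        · exfalso
          have hg := (h i hy b).2 (by omega) s (sw b.val (x i) (y i) s) hs (by
            intro h2
            exact hs (sw_inj _ _ _ (h2.trans (sw_zero _ hb _ _).symm)))
          obtain ⟨h2, h3⟩ := hg
          apply he
          convert h3 using 1
          exact Subtype.ext hp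
    · exact ⟨Sum.inl (i, b, true, s), hp⟩
  · exact ⟨Sum.inr j, hp⟩

theorem mixing_inpH [NeZero m] {X Y : Finset (Pr n)} (hXY : Disjoint X Y)
    {R : (Pr n → Bool) → Prop}
    (hR : Mixing X Y R) (f : Pos m → Fin n) (c : ZMod 3) (x y x' y' : Fin m → Bool)
    (h1 : R (inpH k f (stp x y c))) (h2 : R (inpH k f (stp x' y' c)))
    (hx : ∀ i, ¬ Good X Y (cur f i) → x i = x' i) (hy : ∀ i, ¬ Good X Y (cur f i) → y i = y' i) :
    R (inpH k f (stp x y' c)) := by
  have hX : ∀ (y : Fin m → Bool) (e : Pr n), e ∉ X →
      inpH k f (stp x y c) e = inpH k f (stp x' y c) e := by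
    intro y e he
    rw [Bool.eq_iff_iff]
    constructor
    · refine indep_xH (X := X) (Y := Y) f c x x' y ?_ e he
      intro i hi
      by_contra h
      exact hi (hx i h)
    · refine indep_xH (X := X) (Y := Y) f c x' x y ?_ e he
      intro i hi
      by_contra h
      exact hi (hx i h).symm
  have hY : ∀ (x : Fin m → Bool) (e : Pr n), e ∉ Y →
      inpH k f (stp x y c) e = inpH k f (stp x y' c) e := by
    intro x e he
    rw [Bool.eq_iff_iff]
    constructor
    · refine indep_yH (X := X) (Y := Y) f c x y y' ?_ e he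
      intro i hi
      by_contra h
      exact hi (hy i h)
    · refine indep_yH (X := X) (Y := Y) f c x y' y ?_ e he
      intro i hi
      by_contra h
      exact hi (hy i h).symm
  have h3 := hR _ _ h1 h2 (by
    intro e he1 he2
    rw [hX y e he1, hY x' e he2])
  convert h3 using 1
  funext e
  by_cases he : e ∈ X
  · rw [if_pos he, hY x e (disjoint_left.1 hXY he)]
  · rw [if_neg he, hX y' e he]

end Pool.Agent.V7H65.HD
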