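import Mathlib
import Pool.Agent.V7H65.HD.Emb

/-! The spanning ladder with shift one is a Hamilton cycle, the one with shift zero is not
connected. -/

namespace Pool.Agent.V7H65.HD

open Finset Pool.Agent.H526R2.GI Pool.Agent.V7H65.RK

variable {n m k : ℕ}

/-- Cyclic successor. -/
def nx {n : ℕ} (i : Fin n) : Fin n :=
  ⟨(i.val + 1) % n, Nat.mod_lt _ (Nat.lt_of_le_of_lt (Nat.zero_le _) i.isLt)⟩

theorem ham_of_perm {n : ℕ} (hn : 3 ≤ n) (G : SimpleGraph (Fin n)) (f : Fin n → Fin n)
    (hfi : Function.Injective f) (hf : ∀ i, G.Adj (f i) (f (nx i))) : G.IsHamiltonian := by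
  have h1 : (SimpleGraph.cycleGraph n).IsContained G → G.IsHamiltonian := by
    rw [SimpleGraph.cycleGraph_isContained_iff (by omega)]
    rintro ⟨v, p, hp⟩ _
    refine ⟨v, p, ?_⟩
    rw [SimpleGraph.Walk.isHamiltonianCycle_iff_isCycle_and_length_eq, Fintype.card_fin]
    exact hp
  apply h1
  refine ⟨⟨⟨f, ?_⟩, hfi⟩⟩
  intro u v huv
  rw [SimpleGraph.cycleGraph_adj'] at huv
  have key : ∀ u v : Fin n, (v - u).val = 1 → nx u = v := by
    intro u v h
    rw [Fin.val_sub] at h
    apply Fin.ext
    simp only [nx]
    have hu := u.isLt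
    have hv := v.isLt
    rcases lt_or_ge v.val u.val with h2 | h2
    · have h3 : n - u.val + v.val < n := by omega
      rw [Nat.mod_eq_of_lt h3] at h
      have : u.val + 1 = n + v.val := by omega
      have hv0 : v.val = 0 := by omega
      rw [this, hv0, Nat.add_zero, Nat.mod_self]
    · have h3 : n - u.val + v.val = n + (v.val - u.val) := by omega
      rw [h3, Nat.add_mod_left, Nat.mod_eq_of_lt (by omega)] at h
      rw [Nat.mod_eq_of_lt (by omega)]
      omega
  rcases huv with h | h
  · have := hf v
    rw [key v u h] at this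
    exact this.symm
  · have := hf u
    rw [key u v h] at this
    exact this

theorem frees_card (f : Pos m → Fin n) (hf : Function.Injective f) (hn : n = 24 * m + (k + 1)) :
    (frees f).card = k + 1 := by
  unfold frees
  rw [card_sdiff_of_subset (subset_univ _), card_image_of_injective _ hf, card_univ, card_univ,
    Fintype.card_fin]
  have : Fintype.card (Pos m) = 24 * m := by
    simp only [Fintype.card_prod, Fintype.card_fin, Fintype.card_bool, ZMod.card]
    ring
  rw [this]
  omega

theorem ext_mem [NeZero m] (f : Pos m → Fin n) (hf : Function.Injective f)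
    (hn : n = 24 * m + (k + 1)) (i : Fin (k + 1)) (p : Pos m) : f p ≠ ext k f i := by
  have h := frees_card f hf hn
  unfold ext
  rw [dif_pos h]
  have h2 : (frees f).orderEmbOfFin h i ∈ frees f := orderEmbOfFin_mem _ h i
  intro h3
  rw [← h3] at h2
  unfold frees at h2
  rw [mem_sdiff] at h2
  exact h2.2 (mem_image_of_mem _ (mem_univ _))

theorem full_inj [NeZero m] (f : Pos m → Fin n) (hf : Function.Injective f)
    (hn : n = 24 * m + (k + 1)) : Function.Injective (full k f) := by
  have h := frees_card f hf hn
  rintro (p | i) (q | j) hpq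
  · exact congrArg Sum.inl (hf hpq)
  · exact absurd hpq (ext_mem f hf hn j p)
  · exact absurd hpq.symm (ext_mem f hf hn i q)
  · have h2 : ext k f i = ext k f j := hpq
    unfold ext at h2
    rw [dif_pos h, dif_pos h] at h2
    rw [((frees f).orderEmbOfFin h).injective h2]

theorem card_PosH : Fintype.card (Pos m ⊕ Fin (k + 1)) = 24 * m + (k + 1) := by
  have : Fintype.card (Pos m) = 24 * m := by
    simp only [Fintype.card_prod, Fintype.card_fin, Fintype.card_bool, ZMod.card]
    ring
  rw [Fintype.card_sum, this, Fintype.card_fin]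

theorem stepH_ne [NeZero m] (r : ZMod 3) (p : Pos m ⊕ Fin (k + 1)) :
    stepH (strt m r) p ≠ p := by
  rcases p with p | i
  · simp only [stepH]
    split_ifs with h
    · simp
    · intro h2
      exact strt_ne r p (Sum.inl_injective h2)
  · simp only [stepH]
    split_ifs with h
    · intro h2
      have := congrArg Fin.val (Sum.inr_injective h2)
      simp at this
    · simp

theorem stepH_inj [NeZero m] (r : ZMod 3) :
    Function.Injective (stepH (k := k) (strt m r)) := by
  rintro (p | i) (q | j) h
  · simp only [stepH] at h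
    split_ifs at h with h1 h2 h2
    · exact congrArg Sum.inl (stp_inj r (h1.trans h2.symm))
    · exact congrArg Sum.inl (stp_inj r (Sum.inl_injective h))
  · simp only [stepH] at h
    split_ifs at h with h1 h2 h2
    · have := congrArg Fin.val (Sum.inr_injective h)
      simp at this
    · exact absurd (Sum.inl_injective h) h1
  · simp only [stepH] at h
    split_ifs at h with h1 h2 h2
    · have := congrArg Fin.val (Sum.inr_injective h)
      simp at this
    · exact absurd (Sum.inl_injective h).symm h2
  · simp only [stepH] at h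
    split_ifs at h with h1 h2 h2
    · have := congrArg Fin.val (Sum.inr_injective h)
      simp only at this
      exact congrArg Sum.inr (Fin.ext (by omega))
    · exact congrArg Sum.inr (Fin.ext (by omega))

/-- Functions invariant under the spanning ladder with shift one are constant. -/
theorem stepH_const [NeZero m] {α : Type*} (g : Pos m ⊕ Fin (k + 1) → α)
    (hg : ∀ p, g (stepH (strt m 1) p) = g p) : ∀ p q, g p = g q := by
  have h1 : ∀ (d : ℕ) (i : Fin (k + 1)), i.val + d = k → g (Sum.inr i) = g (Sum.inl (base m)) := by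
    intro d
    induction d with
    | zero =>
      intro i hi
      have := hg (Sum.inr i)
      simp only [stepH] at this
      rw [dif_neg (by omega)] at this
      exact this.symm
    | succ d ih =>
      intro i hi
      have := hg (Sum.inr i)
      simp only [stepH] at this
      rw [dif_pos (by omega)] at this
      rw [← this]
      exact ih _ (by simp only; omega)
  have h2 : ∀ i : Fin (k + 1), g (Sum.inr i) = g (Sum.inl (base m)) := by
    intro i
    exact h1 (k - i.val) i (by have := i.isLt; omega)
  have h3 : ∀ p, (g ∘ Sum.inl) (strt m 1 p) = (g ∘ Sum.inl) p := by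
    intro p
    simp only [Function.comp]
    have := hg (Sum.inl p)
    simp only [stepH] at this
    by_cases h : strt m 1 p = base m
    · rw [if_pos h, h2] at this
      rw [h]
      exact this
    · rw [if_neg h] at this
      exact this
  have h4 := strt_const (g ∘ Sum.inl) h3
  have h5 : ∀ p, g p = g (Sum.inl (base m)) := by
    rintro (p | i)
    · exact h4 p (base m)
    · exact h2 i
  intro p q
  rw [h5 p, h5 q]

theorem hamH [NeZero m] (f : Pos m → Fin n) (hf : Function.Injective f)
    (hn : n = 24 * m + (k + 1)) : (graph (inpH k f (strt m 1))).IsHamiltonian := by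
  classical
  have hm : 0 < m := Nat.pos_of_ne_zero (NeZero.ne m)
  set σ : Equiv.Perm (Pos m ⊕ Fin (k + 1)) := Equiv.ofBijective (stepH (strt m 1))
    (Finite.injective_iff_bijective.1 (stepH_inj 1)) with hσ
  have hσa : ∀ p, σ p = stepH (strt m 1) p := fun p => rfl
  have hcyc : σ.IsCycleOn ((univ : Finset (Pos m ⊕ Fin (k + 1))) : Set _) := by
    refine ⟨?_, ?_⟩
    · rw [coe_univ, Set.bijOn_univ]
      exact σ.bijective
    · intro p _ q _
      have := stepH_const (k := k) (m := m) (fun q => σ.SameCycle p q) (by
        intro q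
        apply propext
        rw [← hσa]
        exact Equiv.Perm.sameCycle_apply_right) q p
      rw [this]
  have hcard : (univ : Finset (Pos m ⊕ Fin (k + 1))).card = n := by
    rw [card_univ, card_PosH, hn]
  have hcirc := hcyc.pow_card_apply (mem_univ (Sum.inl (base m)))
  rw [hcard] at hcirc
  let e : Fin n → Fin n := fun i => full k f ((σ ^ i.val) (Sum.inl (base m)))
  have hsurj : Function.Surjective (fun i : Fin n => (σ ^ i.val) (Sum.inl (base m))) := by
    intro q
    obtain ⟨i, hi, hi2⟩ := hcyc.exists_pow_eq (mem_univ (Sum.inl (base m))) (mem_univ q)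
    rw [hcard] at hi
    exact ⟨⟨i, hi⟩, hi2⟩
  have hinj : Function.Injective (fun i : Fin n => (σ ^ i.val) (Sum.inl (base m))) := by
    apply ((Fintype.bijective_iff_surjective_and_card _).2 ⟨hsurj, ?_⟩).1
    rw [Fintype.card_fin, card_PosH, hn]
  refine ham_of_perm (by omega) _ e ((full_inj f hf hn).comp hinj) ?_
  intro i
  unfold inpH
  rw [adjG_iff]
  have hnx : (σ ^ (nx i).val) (Sum.inl (base m)) = σ ((σ ^ i.val) (Sum.inl (base m))) := by
    rw [← Equiv.Perm.mul_apply, ← pow_succ']
    simp only [nx]
    rcases Nat.lt_or_ge (i.val + 1) n with h | h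
    · rw [Nat.mod_eq_of_lt h]
    · have : i.val + 1 = n := by have := i.isLt; omega
      rw [this, Nat.mod_self, hcirc]
      rfl
  refine ⟨?_, (σ ^ i.val) (Sum.inl (base m)), ?_⟩
  · intro h
    have h2 := full_inj f hf hn h
    rw [hnx, hσa] at h2
    exact stepH_ne 1 _ h2.symm
  · simp only [e]
    rw [hnx, hσa]

theorem not_hamH [NeZero m] (f : Pos m → Fin n) (hf : Function.Injective f)
    (hn : n = 24 * m + (k + 1)) : ¬ (graph (inpH k f (strt m 0))).IsHamiltonian := by
  classical
  intro hH
  have hconn := hH.connected
  let col : Fin n → Prop := fun v => ∃ p : Pos m, p.2.2.2 = 1 ∧ f p = v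
  have hfull : ∀ p : Pos m ⊕ Fin (k + 1), col (full k f p) ↔ ∃ q : Pos m, q.2.2.2 = 1 ∧
      p = Sum.inl q := by
    intro p
    constructor
    · rintro ⟨q, hq, hq2⟩
      have h2 : full k f (Sum.inl q) = full k f p := hq2
      exact ⟨q, hq, (full_inj f hf hn h2).symm⟩
    · rintro ⟨q, hq, rfl⟩
      exact ⟨q, hq, rfl⟩
  have hstep : ∀ p : Pos m ⊕ Fin (k + 1),
      (∃ q : Pos m, q.2.2.2 = 1 ∧ stepH (strt m 0) p = Sum.inl q) ↔
      (∃ q : Pos m, q.2.2.2 = 1 ∧ p = Sum.inl q) := by
    rintro (p | i)
    · simp only [stepH]
      have hs := strt_strand p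
      split_ifs with h
      · constructor
        · rintro ⟨q, _, h2⟩
          simp at h2
        · rintro ⟨q, hq, h2⟩
          have h3 := Sum.inl_injective h2
          subst h3
          rw [h] at hs
          rw [← hs] at hq
          simp only [base] at hq
          exact absurd hq (by decide)
      · constructor
        · rintro ⟨q, hq, h2⟩
          have h3 := Sum.inl_injective h2
          refine ⟨p, ?_, rfl⟩
          rw [← hs, h3, hq]
        · rintro ⟨q, hq, h2⟩
          have h3 := Sum.inl_injective h2
          subst h3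
          exact ⟨_, by rw [hs, hq], rfl⟩
    · simp only [stepH]
      split_ifs with h
      · simp
      · constructor
        · rintro ⟨q, hq, h2⟩
          have h3 := Sum.inl_injective h2
          rw [← h3] at hq
          simp only [base] at hq
          exact absurd hq (by decide)
        · rintro ⟨q, _, h2⟩
          simp at h2
  have hcol : ∀ u v, (graph (inpH k f (strt m 0))).Adj u v → (col u ↔ col v) := by
    intro u v h
    unfold inpH at h
    obtain ⟨_, p, hp⟩ := (adjG_iff _ _ _ _).1 h
    have h1 : col (full k f p) ↔ col (full k f (stepH (strt m 0) p)) := by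
      rw [hfull, hfull]
      exact (hstep p).symm
    rcases Sym2.eq_iff.1 hp with ⟨rfl, rfl⟩ | ⟨rfl, rfl⟩
    · exact h1
    · exact h1.symm
  have hwalk : ∀ u v, (graph (inpH k f (strt m 0))).Reachable u v → (col u ↔ col v) := by
    rintro u v ⟨w⟩
    induction w with
    | nil => exact Iff.rfl
    | cons h _ ih => exact (hcol _ _ h).trans ih
  have h0 := hwalk (full k f (Sum.inl (base m))) (full k f (Sum.inl (0, 0, false, 1)))
    (hconn.preconnected _ _)
  rw [hfull, hfull] at h0
  obtain ⟨q, hq, h2⟩ := h0.2 ⟨_, rfl, rfl⟩
  have h3 := Sum.inl_injective h2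
  rw [← h3] at hq
  simp only [base] at hq
  exact absurd hq (by decide)

theorem degTwoH [NeZero m] (f : Pos m → Fin n) (hf : Function.Injective f)
    (hn : n = 24 * m + (k + 1)) (r : ZMod 3) : DegTwo (inpH k f (strt m r)) := by
  classical
  intro v
  by_cases hv : ∃ p, full k f p = v
  · obtain ⟨p, rfl⟩ := hv
    have hinj := stepH_inj (k := k) (m := m) r
    obtain ⟨q, hq⟩ := (Finite.injective_iff_bijective.1 hinj).2 p
    have hsub : (graph (inpH k f (strt m r))).neighborSet (full k f p) ⊆
        {full k f (stepH (strt m r) p), full k f q} := by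
      intro w hw
      unfold inpH at hw
      obtain ⟨_, t, ht⟩ := (adjG_iff _ _ _ _).1 hw
      rcases Sym2.eq_iff.1 ht with ⟨h1, h2⟩ | ⟨h1, h2⟩
      · have := full_inj f hf hn h1
        subst this
        left
        exact h2
      · have := full_inj f hf hn h1
        have h3 : t = q := hinj (by rw [hq, ← this])
        right
        rw [h2, h3]
        rfl
    exact (Set.ncard_le_ncard hsub (Set.toFinite _)).trans
      ((Set.ncard_insert_le _ _).trans (by rw [Set.ncard_singleton]))
  · have : (graph (inpH k f (strt m r))).neighborSet v = ∅ := by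
      ext w
      simp only [SimpleGraph.mem_neighborSet, Set.mem_empty_iff_false, iff_false]
      unfold inpH
      rw [adjG_iff]
      rintro ⟨_, t, ht⟩
      rcases Sym2.eq_iff.1 ht with ⟨h1, h2⟩ | ⟨h1, h2⟩
      · exact hv ⟨_, h1.symm⟩
      · exact hv ⟨_, h1.symm⟩
    rw [this]
    simp

end Pool.Agent.V7H65.HD
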