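import Mathlib
import Pool.Agent.V7H65.HD.Ham
import Pool.Agent.V7H65.HD.Gen

/-! Several ladders in a row, with the remaining vertices on paths. -/

namespace Pool.Agent.V7H65.HD

open Finset Pool.Agent.H526R2.GI Pool.Agent.V7H65.RK

variable {n m t q : ℕ}

/-- The entries of a ladder. -/
def IsE [NeZero m] (p : Pos m) : Prop := p.1 = 0 ∧ p.2.1 = 0 ∧ p.2.2.1 = false

instance [NeZero m] (p : Pos m) : Decidable (IsE p) := by unfold IsE; infer_instance

/-- The entry of the strand `s`. -/
def bse [NeZero m] (s : ZMod 3) : Pos m := (0, 0, false, s)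

theorem isE_bse [NeZero m] (s : ZMod 3) : IsE (bse (m := m) s) := ⟨rfl, rfl, rfl⟩

theorem eq_bse [NeZero m] {p : Pos m} (h : IsE p) : p = bse p.2.2.2 := by
  obtain ⟨i, b, u, s⟩ := p
  obtain ⟨h1, h2, h3⟩ := h
  simp only at h1 h2 h3
  subst h1 h2 h3
  rfl

theorem tau_bse [NeZero m] (x y : Fin m → Bool) (s : ZMod 3) : tau x y (bse s) = bse s := by
  simp [tau, bse, uu, ps_zero]

theorem isE_tau [NeZero m] (x y : Fin m → Bool) (p : Pos m) : IsE (tau x y p) ↔ IsE p := by
  unfold IsE tau
  simp

theorem tau_of_isE [NeZero m] (x y : Fin m → Bool) {p : Pos m} (h : IsE p) : tau x y p = p := by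
  rw [eq_bse h, tau_bse]

/-- The exchange of strands which joins the ladders. -/
def sw2 (a : Fin t × ZMod 3) : Fin t × ZMod 3 :=
  if a.2 = 0 then (if h : a.1.val + 1 < t then (⟨a.1.val + 1, h⟩, 1) else a)
  else if a.2 = 1 then
    (if h : 0 < a.1.val then (⟨a.1.val - 1, by have := a.1.isLt; omega⟩, 0) else a)
  else a

theorem sw2_sw2 (a : Fin t × ZMod 3) : sw2 (sw2 a) = a := by
  obtain ⟨j, s⟩ := a
  have e : ∀ s : ZMod 3, s = 0 ∨ s = 1 ∨ s = 2 := by decide
  have h10 : (1 : ZMod 3) ≠ 0 := by decide
  have h20 : (2 : ZMod 3) ≠ 0 := by decide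
  have h21 : (2 : ZMod 3) ≠ 1 := by decide
  have h01 : (0 : ZMod 3) ≠ 1 := by decide
  rcases e s with rfl | rfl | rfl
  · by_cases h : j.val + 1 < t
    · simp [sw2, h]
    · simp [sw2, h]
  · by_cases h : 0 < j.val
    · have h1 : j.val - 1 + 1 < t := by have := j.isLt; omega
      have h2 : j.val - 1 + 1 = j.val := by omega
      simp [sw2, h, h10, h2]
    · simp [sw2, h, h10]
  · simp [sw2, h20, h21]

theorem sw2_inj : Function.Injective (sw2 (t := t)) := by
  intro a b h
  rw [← sw2_sw2 a, h, sw2_sw2]

/-- The number of a strand. -/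
def idx (a : Fin t × ZMod 3) : ℕ := 3 * a.1.val + a.2.val

theorem idx_lt (a : Fin t × ZMod 3) : idx a < 3 * t := by
  unfold idx
  have h1 := a.1.isLt
  have h2 : a.2.val < 3 := ZMod.val_lt a.2
  omega

/-- The strand of a remaining vertex. -/
def cls [NeZero t] (i : ℕ) : Fin t × ZMod 3 :=
  (⟨(i % (3 * t)) / 3, by
    have ht : 0 < t := Nat.pos_of_ne_zero (NeZero.ne t)
    have := Nat.mod_lt i (show 3 * t > 0 by omega)
    omega⟩, (((i % (3 * t)) % 3 : ℕ) : ZMod 3))

theorem idx_cls [NeZero t] (i : ℕ) : idx (cls (t := t) i) = i % (3 * t) := by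
  unfold idx cls
  simp only
  rw [ZMod.val_natCast, Nat.mod_mod]
  omega

theorem cls_idx [NeZero t] (a : Fin t × ZMod 3) : cls (idx a) = a := by
  have h1 := idx_cls (t := t) (idx a)
  rw [Nat.mod_eq_of_lt (idx_lt a)] at h1
  have hinj : ∀ a b : Fin t × ZMod 3, idx a = idx b → a = b := by
    rintro ⟨j, s⟩ ⟨j', s'⟩ h
    unfold idx at h
    simp only at h
    have h2 : s.val < 3 := ZMod.val_lt s
    have h3 : s'.val < 3 := ZMod.val_lt s'
    have h4 : j.val = j'.val := by omega
    have h5 : s.val = s'.val := by omega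
    rw [Fin.ext h4, ZMod.val_injective 3 h5]
  exact hinj _ _ h1

theorem idx_inj [NeZero t] {a b : Fin t × ZMod 3} (h : idx a = idx b) : a = b := by
  rw [← cls_idx a, h, cls_idx]

theorem cls_add [NeZero t] (i : ℕ) : cls (t := t) (i + 3 * t) = cls i := by
  apply idx_inj
  rw [idx_cls, idx_cls, Nat.add_mod_right]

/-- The first vertex of the path in front of an entry, or the position itself. -/
def outT [NeZero m] (hq : 3 * t ≤ q) (j : Fin t) (z : Pos m) : (Fin t × Pos m) ⊕ Fin q :=
  if IsE z then Sum.inr ⟨idx (sw2 (j, z.2.2.2)), lt_of_lt_of_le (idx_lt _) hq⟩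
  else Sum.inl (j, z)

/-- The step function of the graph: `F j` is the step function of the ladder `j`. -/
def stepT [NeZero m] [NeZero t] (hq : 3 * t ≤ q) (F : Fin t → Pos m → Pos m) :
    (Fin t × Pos m) ⊕ Fin q → (Fin t × Pos m) ⊕ Fin q
  | Sum.inl (j, p) => outT hq j (F j p)
  | Sum.inr i => if h : i.val + 3 * t < q then Sum.inr ⟨i.val + 3 * t, h⟩
      else Sum.inl ((cls i.val).1, bse (cls (t := t) i.val).2)

/-- The relabelling of the ladder `j₀`. -/
def tauT (j₀ : Fin t) (x y : Fin m → Bool) :
    (Fin t × Pos m) ⊕ Fin q → (Fin t × Pos m) ⊕ Fin q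
  | Sum.inl (j, p) => if j = j₀ then Sum.inl (j, tau x y p) else Sum.inl (j, p)
  | Sum.inr i => Sum.inr i

theorem tauT_inj (j₀ : Fin t) (x y : Fin m → Bool) :
    Function.Injective (tauT (q := q) j₀ x y) := by
  rintro (⟨j, p⟩ | i) (⟨j', p'⟩ | i') h
  · by_cases h1 : j = j₀
    · by_cases h2 : j' = j₀
      · simp only [tauT, h1, h2, if_true, Sum.inl.injEq, Prod.mk.injEq, true_and] at h
        rw [h1, h2, tau_inj x y h]
      · simp only [tauT, h1, if_true, if_neg h2, Sum.inl.injEq, Prod.mk.injEq] at h
        exact absurd h.1.symm h2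
    · by_cases h2 : j' = j₀
      · simp only [tauT, h2, if_true, if_neg h1, Sum.inl.injEq, Prod.mk.injEq] at h
        exact absurd h.1 h1
      · simp only [tauT, h1, h2, if_false] at h
        exact h
  · simp only [tauT] at h
    split_ifs at h
  · simp only [tauT] at h
    split_ifs at h
  · exact h

theorem outT_tau [NeZero m] (hq : 3 * t ≤ q) (j : Fin t) (x y : Fin m → Bool) (z : Pos m) :
    outT hq j (tau x y z) = tauT j x y (outT hq j z) := by
  by_cases h : IsE z
  · rw [tau_of_isE x y h]
    unfold outT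
    rw [if_pos h]
    rfl
  · unfold outT
    rw [if_neg (fun h2 => h ((isE_tau x y _).1 h2)), if_neg h]
    simp only [tauT, if_true]

theorem outT_ne [NeZero m] (hq : 3 * t ≤ q) {j j₀ : Fin t} (hj : j ≠ j₀) (x y : Fin m → Bool)
    (z : Pos m) : outT hq j z = tauT j₀ x y (outT hq j z) := by
  by_cases h : IsE z
  · unfold outT
    rw [if_pos h]
    rfl
  · unfold outT
    rw [if_neg h]
    simp only [tauT, if_neg hj]

theorem stepT_tau [NeZero m] [NeZero t] (hq : 3 * t ≤ q) (S : Fin t → Pos m → Pos m)
    (j₀ : Fin t) (x y : Fin m → Bool) (c : ZMod 3) (z : (Fin t × Pos m) ⊕ Fin q) :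
    stepT hq (Function.update S j₀ (stp x y c)) (tauT j₀ x y z) =
      tauT j₀ x y (stepT hq (Function.update S j₀ (strt m (ip x y + c))) z) := by
  rcases z with ⟨j, p⟩ | i
  · by_cases hj : j = j₀
    · subst hj
      have e : tauT (q := q) j x y (Sum.inl (j, p)) = Sum.inl (j, tau x y p) := by
        simp only [tauT, if_true]
      rw [e]
      simp only [stepT, Function.update_self]
      rw [stp_tau, outT_tau]
    · have e : tauT (q := q) j₀ x y (Sum.inl (j, p)) = Sum.inl (j, p) := by
        simp only [tauT, if_neg hj]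
      rw [e]
      simp only [stepT, Function.update_of_ne hj]
      exact outT_ne hq hj x y _
  · simp only [tauT, stepT]
    by_cases h : i.val + 3 * t < q
    · rw [dif_pos h]
    · rw [dif_neg h]
      by_cases h2 : (cls (t := t) i.val).1 = j₀
      · simp only [h2, if_true]
        rw [tau_bse]
      · simp only [h2, if_false]

/-- The vertices which are not used. -/
def freesT (ω : Fin t → Pos m → Fin n) : Finset (Fin n) :=
  univ \ univ.image (fun z : Fin t × Pos m => ω z.1 z.2)

/-- The unused vertices in increasing order. -/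
noncomputable def extT [NeZero m] [NeZero t] (q : ℕ) (ω : Fin t → Pos m → Fin n) :
    Fin q → Fin n := fun i =>
  if h : (freesT ω).card = q then (freesT ω).orderEmbOfFin h i else ω 0 (bse 0)

/-- All vertices. -/
noncomputable def fullT [NeZero m] [NeZero t] (q : ℕ) (ω : Fin t → Pos m → Fin n) :
    (Fin t × Pos m) ⊕ Fin q → Fin n :=
  Sum.elim (fun z => ω z.1 z.2) (extT q ω)

/-- The adjacency bits. -/
noncomputable def inpT [NeZero m] [NeZero t] (hq : 3 * t ≤ q) (ω : Fin t → Pos m → Fin n)
    (F : Fin t → Pos m → Pos m) : Pr n → Bool :=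
  inpG (fullT q ω) (stepT hq F)

theorem extT_congr [NeZero m] [NeZero t] (ω ω' : Fin t → Pos m → Fin n)
    (h1 : freesT ω = freesT ω') (h2 : ω 0 (bse 0) = ω' 0 (bse 0)) :
    extT q ω = extT q ω' := by
  have h3 : ∀ (S T : Finset (Fin n)), S = T → ∀ (u v : Fin n), u = v → ∀ i : Fin q,
      (if h : S.card = q then S.orderEmbOfFin h i else u) =
      (if h : T.card = q then T.orderEmbOfFin h i else v) := by
    rintro S T rfl u v rfl i
    rfl
  funext i
  exact h3 _ _ h1 _ _ h2 i

theorem fullT_tau [NeZero m] [NeZero t] (β : Fin t → Pos m → Fin n) (j₀ : Fin t)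
    (f : Pos m → Fin n) (x y : Fin m → Bool) :
    fullT q (Function.update β j₀ f) ∘ tauT j₀ x y =
      fullT q (Function.update β j₀ (f ∘ tau x y)) := by
  funext z
  rcases z with ⟨j, p⟩ | i
  · by_cases hj : j = j₀
    · subst hj
      simp only [Function.comp, tauT, if_true, fullT, Sum.elim_inl, Function.update_self]
    · simp only [Function.comp, tauT, if_neg hj, fullT, Sum.elim_inl, Function.update_of_ne hj]
  · simp only [fullT, Function.comp, tauT, Sum.elim_inr]
    apply congrFun
    apply extT_congr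
    · unfold freesT
      congr 1
      ext v
      simp only [mem_image, mem_univ, true_and]
      constructor
      · rintro ⟨⟨j, p⟩, hp⟩
        by_cases hj : j = j₀
        · subst hj
          obtain ⟨p', rfl⟩ := (tau_bij x y).2 p
          refine ⟨(j, p'), ?_⟩
          simp only [Function.update_self] at hp ⊢
          exact hp
        · refine ⟨(j, p), ?_⟩
          simp only [Function.update_of_ne hj] at hp ⊢
          exact hp
      · rintro ⟨⟨j, p⟩, hp⟩
        by_cases hj : j = j₀
        · subst hj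
          refine ⟨(j, tau x y p), ?_⟩
          simp only [Function.update_self] at hp ⊢
          exact hp
        · refine ⟨(j, p), ?_⟩
          simp only [Function.update_of_ne hj] at hp ⊢
          exact hp
    · by_cases hj : (0 : Fin t) = j₀
      · subst hj
        simp only [Function.update_self, Function.comp]
        rw [tau_bse]
      · simp only [Function.update_of_ne hj]

theorem tauT_surj (j₀ : Fin t) (x y : Fin m → Bool) :
    Function.Surjective (tauT (q := q) j₀ x y) :=
  (Finite.injective_iff_bijective.1 (tauT_inj j₀ x y)).2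

theorem inpT_tau [NeZero m] [NeZero t] (hq : 3 * t ≤ q) (β : Fin t → Pos m → Fin n)
    (S : Fin t → Pos m → Pos m) (j₀ : Fin t)
    (f : Pos m → Fin n) (x y : Fin m → Bool) (c : ZMod 3) :
    inpT hq (Function.update β j₀ f) (Function.update S j₀ (stp x y c)) =
      inpT hq (Function.update β j₀ (f ∘ tau x y))
        (Function.update S j₀ (strt m (ip x y + c))) := by
  unfold inpT
  rw [← fullT_tau]
  funext e
  rw [Bool.eq_iff_iff, inpG_iff, inpG_iff]
  constructor
  · rintro ⟨p, hp⟩
    obtain ⟨z, rfl⟩ := tauT_surj j₀ x y p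
    refine ⟨z, ?_⟩
    rw [hp, stepT_tau]
    rfl
  · rintro ⟨p, hp⟩
    refine ⟨tauT j₀ x y p, ?_⟩
    rw [hp, stepT_tau]
    rfl

theorem not_isE_true [NeZero m] (i : Fin m) (b : Fin 4) (s : ZMod 3) :
    ¬ IsE ((i, b, true, s) : Pos m) := by
  rintro ⟨_, _, h⟩
  simp at h

/-- Outside of `X` the good `x`-bits do not matter. -/
theorem indep_xT [NeZero m] [NeZero t] (hq : 3 * t ≤ q) {X Y : Finset (Pr n)}
    (ω : Fin t → Pos m → Fin n) (S : Fin t → Pos m → Pos m) (j₀ : Fin t) (c : ZMod 3)
    (x x' y : Fin m → Bool) (h : ∀ i, x i ≠ x' i → Good X Y (cur (ω j₀) i)) (e : Pr n)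
    (he : e ∉ X) (h1 : inpT hq ω (Function.update S j₀ (stp x y c)) e = true) :
    inpT hq ω (Function.update S j₀ (stp x' y c)) e = true := by
  unfold inpT at h1 ⊢
  rw [inpG_iff] at h1 ⊢
  obtain ⟨p, hp⟩ := h1
  rcases p with ⟨j, i, b, u, s⟩ | i
  · by_cases hj : j = j₀
    · subst hj
      cases u
      · have hb1 : ∀ x y : Fin m → Bool,
            stepT hq (Function.update S j (stp x y c)) (Sum.inl (j, i, b, false, s)) =
            Sum.inl (j, i, b, true, sw b.val (x i) (y i) s) := by
          intro x y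
          simp only [stepT, Function.update_self, stp]
          unfold outT
          exact if_neg (not_isE_true _ _ _)
        rw [hb1] at hp
        by_cases hx : x i = x' i
        · refine ⟨Sum.inl (j, i, b, false, s), ?_⟩
          rw [hp, hb1, hx]
        by_cases hb : b.val % 2 = 0
        · by_cases hs : s = 2
          · subst hs
            refine ⟨Sum.inl (j, i, b, false, 2), ?_⟩
            rw [hp, hb1]
            simp only [sw_two _ hb]
          · exfalso
            have hg := (h i hx b).1 hb s (sw b.val (x i) (y i) s) hs (by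
              intro h2
              exact hs (sw_inj _ _ _ (h2.trans (sw_two _ hb _ _).symm)))
            obtain ⟨h2, h3⟩ := hg
            apply he
            convert h3 using 1
            exact Subtype.ext hp
        · refine ⟨Sum.inl (j, i, b, false, s), ?_⟩
          rw [hp, hb1]
          rw [sw_odd_eq b.val hb (x i) (x' i)]
      · refine ⟨Sum.inl (j, i, b, true, s), ?_⟩
        rw [hp]
        simp only [stepT, Function.update_self]
        rfl
    · refine ⟨Sum.inl (j, i, b, u, s), ?_⟩
      rw [hp]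
      simp only [stepT, Function.update_of_ne hj]
  · exact ⟨Sum.inr i, hp⟩

/-- Outside of `Y` the good `y`-bits do not matter. -/
theorem indep_yT [NeZero m] [NeZero t] (hq : 3 * t ≤ q) {X Y : Finset (Pr n)}
    (ω : Fin t → Pos m → Fin n) (S : Fin t → Pos m → Pos m) (j₀ : Fin t) (c : ZMod 3)
    (x y y' : Fin m → Bool) (h : ∀ i, y i ≠ y' i → Good X Y (cur (ω j₀) i)) (e : Pr n)
    (he : e ∉ Y) (h1 : inpT hq ω (Function.update S j₀ (stp x y c)) e = true) :
    inpT hq ω (Function.update S j₀ (stp x y' c)) e = true := by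
  unfold inpT at h1 ⊢
  rw [inpG_iff] at h1 ⊢
  obtain ⟨p, hp⟩ := h1
  rcases p with ⟨j, i, b, u, s⟩ | i
  · by_cases hj : j = j₀
    · subst hj
      cases u
      · have hb1 : ∀ x y : Fin m → Bool,
            stepT hq (Function.update S j (stp x y c)) (Sum.inl (j, i, b, false, s)) =
            Sum.inl (j, i, b, true, sw b.val (x i) (y i) s) := by
          intro x y
          simp only [stepT, Function.update_self, stp]
          unfold outT
          exact if_neg (not_isE_true _ _ _)
        rw [hb1] at hp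
        by_cases hy : y i = y' i
        · refine ⟨Sum.inl (j, i, b, false, s), ?_⟩
          rw [hp, hb1, hy]
        by_cases hb : b.val % 2 = 0
        · refine ⟨Sum.inl (j, i, b, false, s), ?_⟩
          rw [hp, hb1]
          rw [sw_even_eq b.val hb (x i) (y i) (y' i)]
        · by_cases hs : s = 0
          · subst hs
            refine ⟨Sum.inl (j, i, b, false, 0), ?_⟩
            rw [hp, hb1]
            simp only [sw_zero _ hb]
          · exfalso
            have hg := (h i hy b).2 (by omega) s (sw b.val (x i) (y i) s) hs (by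
              intro h2
              exact hs (sw_inj _ _ _ (h2.trans (sw_zero _ hb _ _).symm)))
            obtain ⟨h2, h3⟩ := hg
            apply he
            convert h3 using 1
            exact Subtype.ext hp
      · refine ⟨Sum.inl (j, i, b, true, s), ?_⟩
        rw [hp]
        simp only [stepT, Function.update_self]
        rfl
    · refine ⟨Sum.inl (j, i, b, u, s), ?_⟩
      rw [hp]
      simp only [stepT, Function.update_of_ne hj]
  · exact ⟨Sum.inr i, hp⟩

theorem mixing_inpT [NeZero m] [NeZero t] (hq : 3 * t ≤ q) {X Y : Finset (Pr n)}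
    (hXY : Disjoint X Y) {R : (Pr n → Bool) → Prop}
    (hR : Mixing X Y R) (ω : Fin t → Pos m → Fin n) (S : Fin t → Pos m → Pos m) (j₀ : Fin t)
    (c : ZMod 3) (x y x' y' : Fin m → Bool)
    (h1 : R (inpT hq ω (Function.update S j₀ (stp x y c))))
    (h2 : R (inpT hq ω (Function.update S j₀ (stp x' y' c))))
    (hx : ∀ i, ¬ Good X Y (cur (ω j₀) i) → x i = x' i)
    (hy : ∀ i, ¬ Good X Y (cur (ω j₀) i) → y i = y' i) :
    R (inpT hq ω (Function.update S j₀ (stp x y' c))) := by
  have hX : ∀ (y : Fin m → Bool) (e : Pr n), e ∉ X →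
      inpT hq ω (Function.update S j₀ (stp x y c)) e =
      inpT hq ω (Function.update S j₀ (stp x' y c)) e := by
    intro y e he
    rw [Bool.eq_iff_iff]
    constructor
    · refine indep_xT hq (X := X) (Y := Y) ω S j₀ c x x' y ?_ e he
      intro i hi
      by_contra h
      exact hi (hx i h)
    · refine indep_xT hq (X := X) (Y := Y) ω S j₀ c x' x y ?_ e he
      intro i hi
      by_contra h
      exact hi (hx i h).symm
  have hY : ∀ (x : Fin m → Bool) (e : Pr n), e ∉ Y →
      inpT hq ω (Function.update S j₀ (stp x y c)) e =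
      inpT hq ω (Function.update S j₀ (stp x y' c)) e := by
    intro x e he
    rw [Bool.eq_iff_iff]
    constructor
    · refine indep_yT hq (X := X) (Y := Y) ω S j₀ c x y y' ?_ e he
      intro i hi
      by_contra h
      exact hi (hy i h)
    · refine indep_yT hq (X := X) (Y := Y) ω S j₀ c x y' y ?_ e he
      intro i hi
      by_contra h
      exact hi (hy i h).symm
  have h3 := hR _ _ h1 h2 (by
    intro e he1 he2
    rw [hX y e he1, hY x' e he2])
  convert h3 using 1
  funext e
  by_cases he : e ∈ X
  · rw [if_pos he, hY x e (disjoint_left.1 hXY he)]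
  · rw [if_neg he, hX y' e he]

end Pool.Agent.V7H65.HD
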