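import Mathlib
import Pool.Agent.V7H65.HD.Lad

/-! The graph with all shifts one is a Hamilton cycle, the one with all shifts zero has only short
cycles. -/

namespace Pool.Agent.V7H65.HD

open Finset Pool.Agent.H526R2.GI Pool.Agent.V7H65.RK

variable {n m t q : ℕ}

/-- The placement is injective. -/
def InjT (ω : Fin t → Pos m → Fin n) : Prop :=
  Function.Injective (fun z : Fin t × Pos m => ω z.1 z.2)

theorem card_QT : Fintype.card (Fin t × Pos m) = 24 * m * t := by
  rw [Fintype.card_prod, Fintype.card_fin, card_Pos]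
  ring

theorem freesT_card (ω : Fin t → Pos m → Fin n) (hω : InjT ω) (hn : n = 24 * m * t + q) :
    (freesT ω).card = q := by
  unfold freesT
  rw [card_sdiff_of_subset (subset_univ _), card_image_of_injective _ hω, card_univ, card_univ,
    Fintype.card_fin, card_QT]
  omega

theorem extT_mem [NeZero m] [NeZero t] (ω : Fin t → Pos m → Fin n) (hω : InjT ω)
    (hn : n = 24 * m * t + q) (i : Fin q) (j : Fin t) (p : Pos m) : ω j p ≠ extT q ω i := by
  have h := freesT_card ω hω hn
  unfold extT
  rw [dif_pos h]
  have h2 : (freesT ω).orderEmbOfFin h i ∈ freesT ω := orderEmbOfFin_mem _ h i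
  intro h3
  rw [← h3] at h2
  unfold freesT at h2
  rw [mem_sdiff] at h2
  exact h2.2 (mem_image.2 ⟨(j, p), mem_univ _, rfl⟩)

theorem fullT_inj [NeZero m] [NeZero t] (ω : Fin t → Pos m → Fin n) (hω : InjT ω)
    (hn : n = 24 * m * t + q) : Function.Injective (fullT q ω) := by
  have h := freesT_card ω hω hn
  rintro (z | i) (z' | j) hpq
  · exact congrArg Sum.inl (hω hpq)
  · exact absurd hpq (extT_mem ω hω hn j z.1 z.2)
  · exact absurd hpq.symm (extT_mem ω hω hn i z'.1 z'.2)
  · have h2 : extT q ω i = extT q ω j := hpq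
    unfold extT at h2
    rw [dif_pos h, dif_pos h] at h2
    rw [((freesT ω).orderEmbOfFin h).injective h2]

theorem card_PT : Fintype.card ((Fin t × Pos m) ⊕ Fin q) = 24 * m * t + q := by
  rw [Fintype.card_sum, card_QT, Fintype.card_fin]

theorem fullT_bij [NeZero m] [NeZero t] (ω : Fin t → Pos m → Fin n) (hω : InjT ω)
    (hn : n = 24 * m * t + q) : Function.Bijective (fullT q ω) := by
  rw [Fintype.bijective_iff_injective_and_card]
  exact ⟨fullT_inj ω hω hn, by rw [card_PT, Fintype.card_fin, hn]⟩

theorem cls_inj [NeZero t] {i i' : ℕ} (h : cls (t := t) i = cls i') :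
    i % (3 * t) = i' % (3 * t) := by
  rw [← idx_cls, ← idx_cls, h]

theorem stepT_inj [NeZero m] [NeZero t] (hq : 3 * t ≤ q) (r : Fin t → ZMod 3) :
    Function.Injective (stepT hq (fun j => strt m (r j))) := by
  have ht : 0 < t := Nat.pos_of_ne_zero (NeZero.ne t)
  rintro (⟨j, p⟩ | i) (⟨j', p'⟩ | i') h
  · simp only [stepT, outT] at h
    split_ifs at h with h1 h2 h2
    · have h3 := congrArg Fin.val (Sum.inr_injective h)
      simp only at h3
      have h4 := sw2_inj (idx_inj h3)
      rw [Prod.mk.injEq] at h4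
      obtain ⟨rfl, h5⟩ := h4
      have h6 : strt m (r j) p = strt m (r j) p' := by
        rw [eq_bse h1, eq_bse h2, h5]
      rw [stp_inj (r j) h6]
    · have h3 := Sum.inl_injective h
      rw [Prod.mk.injEq] at h3
      obtain ⟨rfl, h4⟩ := h3
      rw [stp_inj (r j) h4]
  · simp only [stepT, outT] at h
    split_ifs at h with h1 h2 h2
    · have h3 := congrArg Fin.val (Sum.inr_injective h)
      simp only at h3
      have := idx_lt (sw2 (j, (strt m (r j) p).2.2.2))
      omega
    · have h3 := Sum.inl_injective h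
      rw [Prod.mk.injEq] at h3
      rw [h3.2] at h1
      exact absurd (isE_bse _) h1
  · simp only [stepT, outT] at h
    split_ifs at h with h1 h2 h2
    · have h3 := congrArg Fin.val (Sum.inr_injective h)
      simp only at h3
      have := idx_lt (sw2 (j', (strt m (r j') p').2.2.2))
      omega
    · have h3 := Sum.inl_injective h
      rw [Prod.mk.injEq] at h3
      rw [← h3.2] at h2
      exact absurd (isE_bse _) h2
  · simp only [stepT] at h
    split_ifs at h with h1 h2 h2
    · have h3 := congrArg Fin.val (Sum.inr_injective h)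
      simp only at h3
      exact congrArg Sum.inr (Fin.ext (by omega))
    · have h3 := Sum.inl_injective h
      rw [Prod.mk.injEq] at h3
      have h4 : cls (t := t) i.val = cls i'.val := by
        apply Prod.ext h3.1
        have h5 := congrArg (fun p : Pos m => p.2.2.2) h3.2
        exact h5
      have h5 := cls_inj h4
      have h6 := i.isLt
      have h7 := i'.isLt
      refine congrArg Sum.inr (Fin.ext ?_)
      by_contra hne
      rcases Nat.lt_or_gt_of_ne hne with h8 | h8
      · have h9 : (3 * t) ∣ i'.val - i.val := (Nat.modEq_iff_dvd' h8.le).1 h5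
        have h10 := Nat.le_of_dvd (by omega) h9
        omega
      · have h9 : (3 * t) ∣ i.val - i'.val := (Nat.modEq_iff_dvd' h8.le).1 h5.symm
        have h10 := Nat.le_of_dvd (by omega) h9
        omega

theorem stepT_ne [NeZero m] [NeZero t] (hq : 3 * t ≤ q) (r : Fin t → ZMod 3)
    (z : (Fin t × Pos m) ⊕ Fin q) : stepT hq (fun j => strt m (r j)) z ≠ z := by
  have ht : 0 < t := Nat.pos_of_ne_zero (NeZero.ne t)
  rcases z with ⟨j, p⟩ | i
  · simp only [stepT, outT]
    split_ifs with h
    · simp
    · intro h2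
      have h3 := Sum.inl_injective h2
      rw [Prod.mk.injEq] at h3
      exact strt_ne (r j) p h3.2
  · simp only [stepT]
    split_ifs with h
    · intro h2
      have := congrArg Fin.val (Sum.inr_injective h2)
      simp only at this
      omega
    · simp

theorem stepT_false [NeZero m] [NeZero t] (hq : 3 * t ≤ q) (r : Fin t → ZMod 3)
    (j : Fin t) (i : Fin m) (b : Fin 4) (s : ZMod 3) :
    stepT hq (fun j => strt m (r j)) (Sum.inl (j, i, b, false, s)) =
      Sum.inl (j, i, b, true, s) := by
  simp only [stepT, outT, strt, stp, sw_ff]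
  exact if_neg (not_isE_true _ _ _)

theorem stepT_two [NeZero m] [NeZero t] (hq : 3 * t ≤ q) (r : Fin t → ZMod 3)
    (z : (Fin t × Pos m) ⊕ Fin q) :
    stepT hq (fun j => strt m (r j)) (stepT hq (fun j => strt m (r j)) z) ≠ z := by
  have ht : 0 < t := Nat.pos_of_ne_zero (NeZero.ne t)
  have hback : ∀ (i : Fin q) (z : (Fin t × Pos m)), stepT hq (fun j => strt m (r j)) (Sum.inr i) =
      Sum.inl z → z.2.2.2.1 = false := by
    intro i z h
    simp only [stepT] at h
    split_ifs at h
    have h3 := Sum.inl_injective h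
    rw [← h3]
    rfl
  rcases z with ⟨j, i, b, u, s⟩ | i
  · cases u
    · rw [stepT_false]
      simp only [stepT, outT]
      split_ifs with h
      · simp
      · intro h2
        have h3 := Sum.inl_injective h2
        rw [Prod.mk.injEq] at h3
        have h4 := h3.2
        simp only [strt, stp] at h4
        split_ifs at h4 with h5 h6
        · have := congrArg (fun p : Pos m => p.2.1.val) h4
          simp at this
        · have := congrArg (fun p : Pos m => p.1.val) h4
          simp at this
        · -- this is an entry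
          apply h
          simp only [strt, stp, dif_neg h5, dif_neg h6]
          refine ⟨?_, rfl, rfl⟩
          apply Fin.ext
          simp
    · intro h2
      rcases hz : stepT hq (fun j => strt m (r j)) (Sum.inl (j, i, b, true, s)) with z' | i'
      · rw [hz] at h2
        obtain ⟨j', i', b', u', s'⟩ := z'
        have hu : u' = false := by
          simp only [stepT, outT] at hz
          split_ifs at hz with h
          have h3 := Sum.inl_injective hz
          rw [Prod.mk.injEq] at h3
          have h4 := h3.2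
          simp only [strt, stp] at h4
          split_ifs at h4 with h5 h6
          · have := congrArg (fun p : Pos m => p.2.2.1) h4
            exact this.symm
          · have := congrArg (fun p : Pos m => p.2.2.1) h4
            exact this.symm
          · have := congrArg (fun p : Pos m => p.2.2.1) h4
            exact this.symm
        subst hu
        rw [stepT_false] at h2
        have h3 := Sum.inl_injective h2
        simp only [Prod.mk.injEq] at h3
        obtain ⟨rfl, rfl, rfl, _, rfl⟩ := h3
        -- the next position is the same block: impossible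
        simp only [stepT, outT] at hz
        split_ifs at hz with h
        have h3 := Sum.inl_injective hz
        rw [Prod.mk.injEq] at h3
        have h4 := h3.2
        simp only [strt, stp] at h4
        split_ifs at h4 with h5 h6
        · have := congrArg (fun p : Pos m => p.2.1.val) h4
          simp at this
        · have := congrArg (fun p : Pos m => p.1.val) h4
          simp at this
        · apply h
          simp only [strt, stp, dif_neg h5, dif_neg h6]
          refine ⟨?_, rfl, rfl⟩
          apply Fin.ext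
          simp
      · rw [hz] at h2
        have := hback _ _ h2
        simp at this
  · intro h2
    rcases hz : stepT hq (fun j => strt m (r j)) (Sum.inr i) with z' | i'
    · have h3 := hback _ _ hz
      rw [hz] at h2
      obtain ⟨j', i', b', u', s'⟩ := z'
      simp only at h3
      subst h3
      rw [stepT_false] at h2
      simp at h2
    · rw [hz] at h2
      simp only [stepT] at hz
      split_ifs at hz with h
      have h3 := congrArg Fin.val (Sum.inr_injective hz)
      simp only at h3
      simp only [stepT] at h2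
      split_ifs at h2 with h4
      have h5 := congrArg Fin.val (Sum.inr_injective h2)
      simp only at h5
      omega

/-- Every vertex has exactly two neighbours. -/
def TwoReg (x : Pr n → Bool) : Prop := ∀ v, ((graph x).neighborSet v).ncard = 2

theorem twoRegT [NeZero m] [NeZero t] (hq : 3 * t ≤ q) (ω : Fin t → Pos m → Fin n)
    (hω : InjT ω) (hn : n = 24 * m * t + q) (r : Fin t → ZMod 3) :
    TwoReg (inpT hq ω (fun j => strt m (r j))) := by
  classical
  intro v
  obtain ⟨z, rfl⟩ := (fullT_bij ω hω hn).2 v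
  have hinj := stepT_inj (m := m) hq r
  obtain ⟨w, hw⟩ := (Finite.injective_iff_bijective.1 hinj).2 z
  have hfi := fullT_inj ω hω hn
  have hset : (graph (inpT hq ω (fun j => strt m (r j)))).neighborSet (fullT q ω z) =
      {fullT q ω (stepT hq (fun j => strt m (r j)) z), fullT q ω w} := by
    ext u
    simp only [SimpleGraph.mem_neighborSet, Set.mem_insert_iff, Set.mem_singleton_iff]
    unfold inpT
    rw [adjG_iff]
    constructor
    · rintro ⟨_, p, ht⟩
      rcases Sym2.eq_iff.1 ht with ⟨h1, h2⟩ | ⟨h1, h2⟩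
      · have := hfi h1
        subst this
        left
        exact h2
      · have := hfi h1
        have h3 : p = w := hinj (by rw [hw, ← this])
        right
        rw [h2, h3]
    · rintro (rfl | rfl)
      · exact ⟨fun h => stepT_ne hq r z (hfi h).symm, z, rfl⟩
      · refine ⟨fun h => ?_, w, ?_⟩
        · have h2 := hfi h
          rw [h2] at hw
          exact stepT_ne hq r w hw
        · rw [hw, Sym2.eq_swap]
  rw [hset, Set.ncard_pair]
  intro h
  have h2 := hfi h
  have h3 := stepT_two hq r w
  rw [hw, h2] at h3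
  exact h3 rfl

/-- The label at the entry. -/
theorem inr_const [NeZero m] [NeZero t] {α : Type*} (hq : 3 * t ≤ q) (r : Fin t → ZMod 3)
    (g : (Fin t × Pos m) ⊕ Fin q → α)
    (hg : ∀ z, g (stepT hq (fun j => strt m (r j)) z) = g z) (i : Fin q) :
    g (Sum.inr i) = g (Sum.inl ((cls i.val).1, bse (cls (t := t) i.val).2)) := by
  have ht : 0 < t := Nat.pos_of_ne_zero (NeZero.ne t)
  have h1 : ∀ (d : ℕ) (i : Fin q), q - i.val ≤ d →
      g (Sum.inr i) = g (Sum.inl ((cls i.val).1, bse (cls (t := t) i.val).2)) := by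
    intro d
    induction d with
    | zero =>
      intro i hi
      have := i.isLt
      omega
    | succ d ih =>
      intro i hi
      have h2 := hg (Sum.inr i)
      simp only [stepT] at h2
      by_cases h : i.val + 3 * t < q
      · rw [dif_pos h] at h2
        rw [← h2, ih _ (by simp only; omega)]
        simp only
        rw [cls_add]
      · rw [dif_neg h] at h2
        exact h2.symm
  exact h1 _ i le_rfl

/-- Functions invariant under the step function with shifts one are constant. -/
theorem stepT_const [NeZero m] [NeZero t] {α : Type*} (hq : 3 * t ≤ q)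
    (g : (Fin t × Pos m) ⊕ Fin q → α)
    (hg : ∀ z, g (stepT hq (fun _ => strt m 1) z) = g z) : ∀ z z', g z = g z' := by
  have ht : 0 < t := Nat.pos_of_ne_zero (NeZero.ne t)
  have hm : 0 < m := Nat.pos_of_ne_zero (NeZero.ne m)
  have hinr := inr_const hq (fun _ => 1) g hg
  -- the values at the entries
  obtain ⟨b, hb⟩ : ∃ b : Fin t × ZMod 3 → α, ∀ a, b a = g (Sum.inl (a.1, bse a.2)) :=
    ⟨fun a => g (Sum.inl (a.1, bse a.2)), fun _ => rfl⟩
  have hE : ∀ (j : Fin t) (p : Pos m), IsE (strt m 1 p) →
      g (Sum.inl (j, p)) = b (sw2 (j, (strt m 1 p).2.2.2)) := by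
    intro j p h
    have h1 := hg (Sum.inl (j, p))
    simp only [stepT, outT] at h1
    rw [if_pos h, hinr] at h1
    simp only [cls_idx] at h1
    rw [hb, ← h1]
  have hN : ∀ (j : Fin t) (p : Pos m), ¬ IsE (strt m 1 p) →
      g (Sum.inl (j, strt m 1 p)) = g (Sum.inl (j, p)) := by
    intro j p h
    have h1 := hg (Sum.inl (j, p))
    simp only [stepT, outT] at h1
    rw [if_neg h] at h1
    exact h1
  -- along a strand
  have hstr : ∀ (j : Fin t) (i : ℕ) (hi : i < m) (bb : ℕ) (hbb : bb < 4) (u : Bool) (s : ZMod 3),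
      g (Sum.inl (j, ⟨i, hi⟩, ⟨bb, hbb⟩, u, s)) = b (j, s) := by
    intro j
    have hf : ∀ (i : ℕ) (hi : i < m) (bb : ℕ) (hbb : bb < 4) (s : ZMod 3),
        g (Sum.inl (j, ⟨i, hi⟩, ⟨bb, hbb⟩, true, s)) =
        g (Sum.inl (j, ⟨i, hi⟩, ⟨bb, hbb⟩, false, s)) := by
      intro i hi bb hbb s
      have h1 := hN j (⟨i, hi⟩, ⟨bb, hbb⟩, false, s) (by
        simp only [strt, stp]
        exact not_isE_true _ _ _)
      simp only [strt, stp, sw_ff] at h1
      exact h1
    have h0 : ∀ (i : ℕ) (hi : i < m) (bb : ℕ) (hbb : bb < 4) (s : ZMod 3),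
        g (Sum.inl (j, ⟨i, hi⟩, ⟨bb, hbb⟩, false, s)) = b (j, s) := by
      intro i
      induction i with
      | zero =>
        intro hi bb
        induction bb with
        | zero =>
          intro hbb s
          rw [hb]
          rfl
        | succ bb ihb =>
          intro hbb s
          have h1 := hN j (⟨0, hi⟩, ⟨bb, by omega⟩, true, s) (by
            simp only [strt, stp]
            rw [dif_pos (by omega)]
            rintro ⟨_, h2, _⟩
            have := congrArg Fin.val h2
            simp at this)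
          simp only [strt, stp] at h1
          rw [dif_pos (by omega)] at h1
          rw [h1, hf, ihb]
      | succ i ih =>
        intro hi bb
        induction bb with
        | zero =>
          intro hbb s
          have h1 := hN j (⟨i, by omega⟩, ⟨3, by omega⟩, true, s) (by
            simp only [strt, stp]
            rw [dif_neg (by omega), dif_pos hi]
            rintro ⟨h2, _, _⟩
            have := congrArg Fin.val h2
            simp at this)
          simp only [strt, stp] at h1
          rw [dif_neg (by omega), dif_pos hi] at h1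
          have h2 : g (Sum.inl (j, ⟨i + 1, hi⟩, ⟨0, hbb⟩, false, s)) =
              g (Sum.inl (j, ⟨i + 1, hi⟩, 0, false, s)) := rfl
          rw [h2, h1, hf, ih]
        | succ bb ihb =>
          intro hbb s
          have h1 := hN j (⟨i + 1, hi⟩, ⟨bb, by omega⟩, true, s) (by
            simp only [strt, stp]
            rw [dif_pos (by omega)]
            rintro ⟨_, h2, _⟩
            have := congrArg Fin.val h2
            simp at this)
          simp only [strt, stp] at h1
          rw [dif_pos (by omega)] at h1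
          rw [h1, hf, ihb]
    intro i hi bb hbb u s
    cases u
    · exact h0 i hi bb hbb s
    · rw [hf, h0]
  -- the closing
  have hcl : ∀ (j : Fin t) (s : ZMod 3), b (j, s) = b (sw2 (j, s + 1)) := by
    intro j s
    have h1 : strt m 1 ((⟨m - 1, by omega⟩, 3, true, s) : Pos m) = bse (s + 1) := by
      simp only [strt, stp]
      rw [dif_neg (by decide), dif_neg (by omega)]
      rfl
    have h2 := hE j (⟨m - 1, by omega⟩, 3, true, s) (by rw [h1]; exact isE_bse _)
    rw [h1] at h2
    rw [← hstr j (m - 1) (by omega) 3 (by omega) true s]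
    exact h2
  have e : ∀ s : ZMod 3, s = 0 ∨ s = 1 ∨ s = 2 := by decide
  have h10 : (1 : ZMod 3) ≠ 0 := by decide
  have h20 : (2 : ZMod 3) ≠ 0 := by decide
  have h21 : (2 : ZMod 3) ≠ 1 := by decide
  have s12 : ∀ j : Fin t, b (j, 1) = b (j, 2) := by
    intro j
    have h1 := hcl j 1
    have h2 : (1 : ZMod 3) + 1 = 2 := by decide
    rw [h2] at h1
    have h3 : sw2 ((j, 2) : Fin t × ZMod 3) = (j, 2) := by simp [sw2, h20, h21]
    rw [h3] at h1
    exact h1
  have s2 : ∀ (j : ℕ) (hj : j + 1 < t), b (⟨j, by omega⟩, 2) = b (⟨j + 1, hj⟩, 1) := by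
    intro j hj
    have h1 := hcl ⟨j, by omega⟩ 2
    have h2 : (2 : ZMod 3) + 1 = 0 := by decide
    rw [h2] at h1
    have h3 : sw2 ((⟨j, by omega⟩, 0) : Fin t × ZMod 3) = (⟨j + 1, hj⟩, 1) := by simp [sw2, hj]
    rw [h3] at h1
    exact h1
  have slast : b (⟨t - 1, by omega⟩, 2) = b (⟨t - 1, by omega⟩, 0) := by
    have h1 := hcl ⟨t - 1, by omega⟩ 2
    have h2 : (2 : ZMod 3) + 1 = 0 := by decide
    rw [h2] at h1
    have h4 : ¬ (t - 1 + 1 < t) := by omega
    have h3 : sw2 ((⟨t - 1, by omega⟩, 0) : Fin t × ZMod 3) = (⟨t - 1, by omega⟩, 0) := by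
      simp only [sw2, if_true]
      rw [dif_neg h4]
    rw [h3] at h1
    exact h1
  have s0 : ∀ (j : ℕ) (hj : j + 1 < t), b (⟨j + 1, hj⟩, 0) = b (⟨j, by omega⟩, 0) := by
    intro j hj
    have h1 := hcl ⟨j + 1, hj⟩ 0
    have h2 : (0 : ZMod 3) + 1 = 1 := by decide
    rw [h2] at h1
    have h3 : sw2 ((⟨j + 1, hj⟩, 1) : Fin t × ZMod 3) = (⟨j, by omega⟩, 0) := by
      simp [sw2, h10]
    rw [h3] at h1
    exact h1
  have a1 : ∀ (j : ℕ) (hj : j < t), b (⟨j, hj⟩, 1) = b (⟨0, ht⟩, 1) := by
    intro j
    induction j with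
    | zero => intro _; rfl
    | succ j ih =>
      intro hj
      rw [← s2 j hj, ← s12, ih]
  have a0 : ∀ (j : ℕ) (hj : j < t), b (⟨j, hj⟩, 0) = b (⟨0, ht⟩, 0) := by
    intro j
    induction j with
    | zero => intro _; rfl
    | succ j ih =>
      intro hj
      rw [s0 j hj, ih]
  have a01 : b (⟨0, ht⟩, 0) = b (⟨0, ht⟩, 1) := by
    rw [← a0 (t - 1) (by omega), ← slast, ← s12, a1]
  have hall : ∀ a : Fin t × ZMod 3, b a = b (⟨0, ht⟩, 1) := by
    rintro ⟨j, s⟩
    rcases e s with rfl | rfl | rfl
    · rw [a0 j.val j.isLt, a01]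
    · exact a1 j.val j.isLt
    · rw [← s12]
      exact a1 j.val j.isLt
  have hfin : ∀ z, g z = b (⟨0, ht⟩, 1) := by
    rintro (⟨j, i, bb, u, s⟩ | i)
    · rw [hstr j i.val i.isLt bb.val bb.isLt u s]
      exact hall _
    · rw [hinr, ← hb]
      exact hall _
  intro z z'
  rw [hfin z, hfin z']

theorem hamT [NeZero m] [NeZero t] (hq : 3 * t ≤ q) (ω : Fin t → Pos m → Fin n)
    (hω : InjT ω) (hn : n = 24 * m * t + q) :
    (graph (inpT hq ω (fun _ => strt m 1))).IsHamiltonian := by
  classical
  have hm : 0 < m := Nat.pos_of_ne_zero (NeZero.ne m)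
  have ht : 0 < t := Nat.pos_of_ne_zero (NeZero.ne t)
  set σ : Equiv.Perm ((Fin t × Pos m) ⊕ Fin q) := Equiv.ofBijective (stepT hq (fun _ => strt m 1))
    (Finite.injective_iff_bijective.1 (stepT_inj hq (fun _ => 1))) with hσ
  have hσa : ∀ p, σ p = stepT hq (fun _ => strt m 1) p := fun p => rfl
  obtain ⟨z₀, hz₀⟩ : ∃ z₀ : (Fin t × Pos m) ⊕ Fin q, z₀ = Sum.inl (0, bse 0) := ⟨_, rfl⟩
  have hcyc : σ.IsCycleOn ((univ : Finset ((Fin t × Pos m) ⊕ Fin q)) : Set _) := by
    refine ⟨?_, ?_⟩
    · rw [coe_univ, Set.bijOn_univ]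
      exact σ.bijective
    · intro p _ z _
      have := stepT_const hq (fun z => σ.SameCycle p z) (by
        intro z
        apply propext
        rw [← hσa]
        exact Equiv.Perm.sameCycle_apply_right) z p
      rw [this]
  have hcard : (univ : Finset ((Fin t × Pos m) ⊕ Fin q)).card = n := by
    rw [card_univ, card_PT, hn]
  have hcirc := hcyc.pow_card_apply (mem_univ z₀)
  rw [hcard] at hcirc
  let e : Fin n → Fin n := fun i => fullT q ω ((σ ^ i.val) z₀)
  have hsurj : Function.Surjective (fun i : Fin n => (σ ^ i.val) z₀) := by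
    intro z
    obtain ⟨i, hi, hi2⟩ := hcyc.exists_pow_eq (mem_univ z₀) (mem_univ z)
    rw [hcard] at hi
    exact ⟨⟨i, hi⟩, hi2⟩
  have hinj : Function.Injective (fun i : Fin n => (σ ^ i.val) z₀) := by
    apply ((Fintype.bijective_iff_surjective_and_card _).2 ⟨hsurj, ?_⟩).1
    rw [Fintype.card_fin, card_PT, hn]
  have hn3 : 3 ≤ n := by omega
  refine ham_of_perm hn3 _ e ((fullT_inj ω hω hn).comp hinj) ?_
  intro i
  unfold inpT
  rw [adjG_iff]
  have hnx : (σ ^ (nx i).val) z₀ = σ ((σ ^ i.val) z₀) := by
    rw [← Equiv.Perm.mul_apply, ← pow_succ']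
    simp only [nx]
    rcases Nat.lt_or_ge (i.val + 1) n with h | h
    · rw [Nat.mod_eq_of_lt h]
    · have : i.val + 1 = n := by have := i.isLt; omega
      rw [this, Nat.mod_self, hcirc]
      rfl
  refine ⟨?_, (σ ^ i.val) z₀, ?_⟩
  · intro h
    have h2 := fullT_inj ω hω hn h
    rw [hnx, hσa] at h2
    exact stepT_ne hq (fun _ => 1) _ h2.symm
  · simp only [e]
    rw [hnx, hσa]

/-- The strand of a position. -/
def cl [NeZero t] : (Fin t × Pos m) ⊕ Fin q → Fin t × ZMod 3
  | Sum.inl z => (z.1, z.2.2.2.2)
  | Sum.inr i => cls i.val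

/-- The label of a strand: joined strands have the same label. -/
def lam (a : Fin t × ZMod 3) : Fin t × ZMod 3 := if a.2 = 1 then sw2 a else a

theorem lam_sw2 (a : Fin t × ZMod 3) : lam (sw2 a) = lam a := by
  obtain ⟨j, s⟩ := a
  have e : ∀ s : ZMod 3, s = 0 ∨ s = 1 ∨ s = 2 := by decide
  have h10 : (1 : ZMod 3) ≠ 0 := by decide
  have h01 : (0 : ZMod 3) ≠ 1 := by decide
  have h20 : (2 : ZMod 3) ≠ 0 := by decide
  have h21 : (2 : ZMod 3) ≠ 1 := by decide
  unfold lam
  rw [sw2_sw2]
  rcases e s with rfl | rfl | rfl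
  · by_cases h : j.val + 1 < t
    · simp [sw2, h]
    · simp [sw2, h]
  · by_cases h : 0 < j.val
    · simp [sw2, h, h10]
    · simp [sw2, h, h10]
  · simp [sw2, h20, h21]

theorem lam_eq {a ℓ : Fin t × ZMod 3} (h : lam a = ℓ) : a = ℓ ∨ a = sw2 ℓ := by
  unfold lam at h
  split_ifs at h
  · right
    rw [← h, sw2_sw2]
  · left
    exact h

theorem lam_step [NeZero m] [NeZero t] (hq : 3 * t ≤ q) (z : (Fin t × Pos m) ⊕ Fin q) :
    lam (cl (stepT hq (fun _ => strt m 0) z)) = lam (cl z) := by
  rcases z with ⟨j, p⟩ | i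
  · simp only [stepT, outT]
    have hs := strt_strand p
    split_ifs with h
    · simp only [cl]
      rw [cls_idx, lam_sw2, hs]
    · simp only [cl]
      rw [hs]
  · simp only [stepT]
    split_ifs with h
    · simp only [cl]
      rw [cls_add]
    · simp only [cl]
      rfl

theorem card_mod (q d a : ℕ) :
    (univ.filter (fun i : Fin q => i.val % d = a)).card ≤ q / d + 1 := by
  rw [← card_range (q / d + 1)]
  apply card_le_card_of_injOn (fun i => i.val / d)
  · intro i hi
    rw [mem_coe, mem_range]
    exact Nat.lt_succ_of_le (Nat.div_le_div_right i.isLt.le)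
  · intro i hi i' hi' h
    have h1 := (mem_filter.1 hi).2
    have h2 := (mem_filter.1 hi').2
    simp only at h
    apply Fin.ext
    rw [← Nat.div_add_mod i.val d, ← Nat.div_add_mod i'.val d, h, h1, h2]

theorem card_cl [NeZero t] (a : Fin t × ZMod 3) :
    (univ.filter (fun z : (Fin t × Pos m) ⊕ Fin q => cl z = a)).card ≤
      8 * m + (q / (3 * t) + 1) := by
  classical
  have ht : 0 < t := Nat.pos_of_ne_zero (NeZero.ne t)
  have h1 : (univ.filter (fun z : (Fin t × Pos m) ⊕ Fin q => cl z = a)) ⊆
      ((univ : Finset (Fin m × Fin 4 × Bool)).image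
        (fun p => Sum.inl (a.1, p.1, p.2.1, p.2.2, a.2))) ∪
      ((univ.filter (fun i : Fin q => i.val % (3 * t) = idx a)).image Sum.inr) := by
    rintro (⟨j, i, b, u, s⟩ | i) hz
    · rw [mem_filter] at hz
      have h2 := hz.2
      simp only [cl] at h2
      subst h2
      apply mem_union_left
      rw [mem_image]
      exact ⟨(i, b, u), mem_univ _, rfl⟩
    · rw [mem_filter] at hz
      have h2 := hz.2
      simp only [cl] at h2
      apply mem_union_right
      rw [mem_image]
      refine ⟨i, mem_filter.2 ⟨mem_univ _, ?_⟩, rfl⟩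
      rw [← h2, idx_cls]
  refine (card_le_card h1).trans ((card_union_le _ _).trans ?_)
  apply Nat.add_le_add
  · refine card_image_le.trans ?_
    rw [card_univ]
    simp only [Fintype.card_prod, Fintype.card_fin, Fintype.card_bool]
    omega
  · exact card_image_le.trans (card_mod _ _ _)

theorem card_lam [NeZero t] (ℓ : Fin t × ZMod 3) :
    (univ.filter (fun z : (Fin t × Pos m) ⊕ Fin q => lam (cl z) = ℓ)).card ≤
      2 * (8 * m + (q / (3 * t) + 1)) := by
  classical
  have h1 : (univ.filter (fun z : (Fin t × Pos m) ⊕ Fin q => lam (cl z) = ℓ)) ⊆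
      (univ.filter (fun z : (Fin t × Pos m) ⊕ Fin q => cl z = ℓ)) ∪
      (univ.filter (fun z : (Fin t × Pos m) ⊕ Fin q => cl z = sw2 ℓ)) := by
    intro z hz
    rw [mem_filter] at hz
    rcases lam_eq hz.2 with h | h
    · exact mem_union_left _ (mem_filter.2 ⟨mem_univ _, h⟩)
    · exact mem_union_right _ (mem_filter.2 ⟨mem_univ _, h⟩)
  have h2 := card_cl (m := m) (q := q) ℓ
  have h3 := card_cl (m := m) (q := q) (sw2 ℓ)
  have h4 := (card_le_card h1).trans (card_union_le _ _)
  omega

/-- All components have at most `n / t` vertices. -/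
def Small (t : ℕ) (x : Pr n → Bool) : Prop :=
  ∀ v, t * {w | (graph x).Reachable v w}.ncard ≤ n

theorem smallT [NeZero m] [NeZero t] (hq : 3 * t ≤ q) (ω : Fin t → Pos m → Fin n)
    (hω : InjT ω) (hn : n = 24 * m * t + q) (hn6 : 6 * t ≤ n) :
    Small t (inpT hq ω (fun _ => strt m 0)) := by
  classical
  have hm : 0 < m := Nat.pos_of_ne_zero (NeZero.ne m)
  have ht : 0 < t := Nat.pos_of_ne_zero (NeZero.ne t)
  have hfb := fullT_bij ω hω hn
  have hfi := hfb.1
  let col : Fin n → Fin t × ZMod 3 := fun v => lam (cl ((Equiv.ofBijective _ hfb).symm v))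
  have hcolf : ∀ z, col (fullT q ω z) = lam (cl z) := by
    intro z
    simp only [col]
    congr 2
    rw [Equiv.symm_apply_eq]
    rfl
  have hcol : ∀ u v, (graph (inpT hq ω (fun _ => strt m 0))).Adj u v → col u = col v := by
    intro u v h
    unfold inpT at h
    obtain ⟨_, p, hp⟩ := (adjG_iff _ _ _ _).1 h
    have h1 : col (fullT q ω p) = col (fullT q ω (stepT hq (fun _ => strt m 0) p)) := by
      rw [hcolf, hcolf, lam_step]
    rcases Sym2.eq_iff.1 hp with ⟨rfl, rfl⟩ | ⟨rfl, rfl⟩
    · exact h1
    · exact h1.symm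
  have hwalk : ∀ u v, (graph (inpT hq ω (fun _ => strt m 0))).Reachable u v → col u = col v := by
    rintro u v ⟨w⟩
    induction w with
    | nil => rfl
    | cons h _ ih => exact (hcol _ _ h).trans ih
  intro v
  have h1 : {w | (graph (inpT hq ω (fun _ => strt m 0))).Reachable v w} ⊆
      ((univ.filter (fun z : (Fin t × Pos m) ⊕ Fin q => lam (cl z) = col v)).image
        (fullT q ω) : Finset (Fin n)) := by
    intro w hw
    obtain ⟨z, rfl⟩ := hfb.2 w
    rw [mem_coe, mem_image]
    refine ⟨z, mem_filter.2 ⟨mem_univ _, ?_⟩, rfl⟩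
    rw [← hcolf]
    exact (hwalk _ _ hw).symm
  have h2 : {w | (graph (inpT hq ω (fun _ => strt m 0))).Reachable v w}.ncard ≤
      2 * (8 * m + (q / (3 * t) + 1)) := by
    refine (Set.ncard_le_ncard h1 (Set.toFinite _)).trans ?_
    rw [Set.ncard_coe_finset]
    exact card_image_le.trans (card_lam _)
  have h3 : 3 * t * (q / (3 * t)) ≤ q := Nat.mul_div_le _ _
  calc t * {w | (graph (inpT hq ω (fun _ => strt m 0))).Reachable v w}.ncard
      ≤ t * (2 * (8 * m + (q / (3 * t) + 1))) := Nat.mul_le_mul_left _ h2
    _ ≤ n := by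
        have h4 : 3 * (t * (2 * (8 * m + (q / (3 * t) + 1)))) =
            48 * m * t + 2 * (3 * t * (q / (3 * t))) + 6 * t := by ring
        have h5 : 3 * n = 72 * (m * t) + 3 * q := by rw [hn]; ring
        have h6 : 48 * m * t = 48 * (m * t) := by ring
        have h7 : 24 * m * t = 24 * (m * t) := by ring
        have h8 : n = 24 * (m * t) + q := by rw [hn, h7]
        have h9 : 3 * (t * (2 * (8 * m + (q / (3 * t) + 1)))) ≤ 3 * n := by
          rw [h4, h6]
          omega
        exact Nat.le_of_mul_le_mul_left h9 (by norm_num)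

end Pool.Agent.V7H65.HD
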