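import Mathlib
import Pool.Agent.V7H65.HD.LadHam

/-! Mixing sets cannot tell the graph with all shifts one from the graph with all shifts zero. -/

namespace Pool.Agent.V7H65.HD

open Finset Pool.Agent.H526R2.GI Pool.Agent.V7H65.RK

variable {n m t q : ℕ}

open Classical in
/-- The number of elements with a property. -/
noncomputable def num {A : Type} [Fintype A] (P : A → Prop) : ℕ := (univ.filter P).card

theorem num_eq {A : Type} [Fintype A] (P : A → Prop) [DecidablePred P] :
    num P = (univ.filter P).card := by
  unfold num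
  congr

theorem hitsV_num {V : Type} [Fintype V] [DecidableEq V] (r : ZMod 3)
    (J : (Pos m → V) → (Pos m → Pos m) → Prop) :
    hitsV r J = num (fun f : Pos m → V => Function.Injective f ∧ J f (strt m r)) := by
  unfold hitsV num
  congr

open Classical in
theorem upd_count (P : (Fin t → Pos m → Fin n) → Prop) (j₀ : Fin t) :
    n ^ (24 * m) * num P =
      ∑ β : Fin t → Pos m → Fin n, num (fun f : Pos m → Fin n => P (Function.update β j₀ f)) := by
  unfold num
  have h1 : ∑ β : Fin t → Pos m → Fin n,
      (univ.filter (fun f : Pos m → Fin n => P (Function.update β j₀ f))).card =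
      (univ.filter (fun z : (Fin t → Pos m → Fin n) × (Pos m → Fin n) =>
        P (Function.update z.1 j₀ z.2))).card := by
    rw [card_filter, Fintype.sum_prod_type]
    apply sum_congr rfl
    intro β _
    rw [card_filter]
  have h2 : (univ.filter (fun z : (Fin t → Pos m → Fin n) × (Pos m → Fin n) =>
        P (Function.update z.1 j₀ z.2))).card =
      (univ.filter (fun z : (Fin t → Pos m → Fin n) × (Pos m → Fin n) => P z.1)).card := by
    apply card_bij' (fun z _ => (Function.update z.1 j₀ z.2, z.1 j₀))
      (fun z _ => (Function.update z.1 j₀ z.2, z.1 j₀))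
    · intro z hz
      rw [mem_filter] at hz ⊢
      exact ⟨mem_univ _, hz.2⟩
    · intro z _
      simp
    · intro z _
      simp
    · intro z hz
      rw [mem_filter] at hz ⊢
      refine ⟨mem_univ _, ?_⟩
      simp only [Function.update_idem, Function.update_eq_self]
      exact hz.2
  have h3 : (univ.filter (fun z : (Fin t → Pos m → Fin n) × (Pos m → Fin n) => P z.1)) =
      (univ.filter (fun ω : Fin t → Pos m → Fin n => P ω)) ×ˢ
        (univ : Finset (Pos m → Fin n)) := by
    ext z
    simp
  rw [h1, h2, h3, card_product, card_univ, Fintype.card_fun, card_Pos, Fintype.card_fin, mul_comm]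

/-- The vertices used by the other ladders. -/
def usedT (β : Fin t → Pos m → Fin n) (j₀ : Fin t) : Finset (Fin n) :=
  (univ.filter (fun z : Fin t × Pos m => z.1 ≠ j₀)).image (fun z => β z.1 z.2)

/-- The other ladders are placed injectively. -/
def InjOff (β : Fin t → Pos m → Fin n) (j₀ : Fin t) : Prop :=
  ∀ z z' : Fin t × Pos m, z.1 ≠ j₀ → z'.1 ≠ j₀ → β z.1 z.2 = β z'.1 z'.2 → z = z'

theorem injT_update (β : Fin t → Pos m → Fin n) (j₀ : Fin t) (f : Pos m → Fin n) :
    InjT (Function.update β j₀ f) ↔
      InjOff β j₀ ∧ Function.Injective f ∧ ∀ p, f p ∉ usedT β j₀ := by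
  constructor
  · intro h
    refine ⟨?_, ?_, ?_⟩
    · intro z z' hz hz' he
      apply h
      simp only [Function.update_of_ne hz, Function.update_of_ne hz']
      exact he
    · intro p p' he
      have := @h (j₀, p) (j₀, p') (by simp only [Function.update_self]; exact he)
      rw [Prod.mk.injEq] at this
      exact this.2
    · intro p hp
      unfold usedT at hp
      rw [mem_image] at hp
      obtain ⟨z, hz, hz2⟩ := hp
      have hz1 := (mem_filter.1 hz).2
      have := @h z (j₀, p) (by
        simp only [Function.update_self, Function.update_of_ne hz1]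
        exact hz2)
      exact hz1 (congrArg Prod.fst this)
  · rintro ⟨h1, h2, h3⟩ ⟨j, p⟩ ⟨j', p'⟩ he
    simp only at he
    by_cases hj : j = j₀
    · subst hj
      by_cases hj' : j' = j
      · subst hj'
        simp only [Function.update_self] at he
        rw [h2 he]
      · exfalso
        simp only [Function.update_self, Function.update_of_ne hj'] at he
        apply h3 p
        unfold usedT
        rw [mem_image]
        exact ⟨(j', p'), mem_filter.2 ⟨mem_univ _, hj'⟩, he.symm⟩
    · by_cases hj' : j' = j₀
      · subst hj'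
        exfalso
        simp only [Function.update_self, Function.update_of_ne hj] at he
        apply h3 p'
        unfold usedT
        rw [mem_image]
        exact ⟨(j, p), mem_filter.2 ⟨mem_univ _, hj⟩, he⟩
      · simp only [Function.update_of_ne hj, Function.update_of_ne hj'] at he
        exact h1 (j, p) (j', p') hj hj' he

theorem usedT_card (β : Fin t → Pos m → Fin n) (j₀ : Fin t) :
    (usedT β j₀).card ≤ 24 * m * t := by
  unfold usedT
  refine card_image_le.trans ((card_le_univ _).trans ?_)
  rw [card_QT]

/-- The free vertices for the ladder `j₀`. -/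
abbrev VV (β : Fin t → Pos m → Fin n) (j₀ : Fin t) := {v : Fin n // v ∉ usedT β j₀}

theorem card_VV (β : Fin t → Pos m → Fin n) (j₀ : Fin t) :
    Fintype.card (VV β j₀) = n - (usedT β j₀).card := by
  rw [Fintype.card_subtype_compl, Fintype.card_fin, Fintype.card_coe]

theorem card_pull (β : Fin t → Pos m → Fin n) (j₀ : Fin t) (hβ : InjOff β j₀)
    (T : (Pos m → Fin n) → Prop) :
    num (fun f : Pos m → Fin n => InjT (Function.update β j₀ f) ∧ T f) =
      num (fun f : Pos m → VV β j₀ => Function.Injective f ∧ T (fun p => (f p).1)) := by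
  classical
  rw [num_eq, num_eq]
  symm
  apply card_bij (fun f _ => fun p => (f p).1)
  · intro f hf
    rw [mem_filter] at hf ⊢
    refine ⟨mem_univ _, ?_, hf.2.2⟩
    rw [injT_update]
    refine ⟨hβ, ?_, fun p => (f p).2⟩
    intro p p' h
    exact hf.2.1 (Subtype.ext h)
  · intro f _ g _ h
    funext p
    exact Subtype.ext (congrFun h p)
  · intro f hf
    rw [mem_filter, injT_update] at hf
    obtain ⟨_, ⟨_, h2, h3⟩, h4⟩ := hf
    refine ⟨fun p => ⟨f p, h3 p⟩, ?_, rfl⟩
    rw [mem_filter]
    refine ⟨mem_univ _, ?_, h4⟩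
    intro p p' h
    exact h2 (congrArg Subtype.val h)

theorem card_not (β : Fin t → Pos m → Fin n) (j₀ : Fin t) (hβ : ¬ InjOff β j₀)
    (T : (Pos m → Fin n) → Prop) :
    num (fun f : Pos m → Fin n => InjT (Function.update β j₀ f) ∧ T f) = 0 := by
  classical
  rw [num_eq]
  rw [card_eq_zero, filter_eq_empty_iff]
  rintro f _ ⟨h, _⟩
  rw [injT_update] at h
  exact hβ h.1

open Classical in
theorem ecard_VV (β : Fin t → Pos m → Fin n) (j₀ : Fin t) (X : Finset (Pr n)) :
    X.card ≤ ecard (fun u v : VV β j₀ => InX X u.1 v.1) + 2 * ((usedT β j₀).card * n) := by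
  refine (ecard_InX X).trans ?_
  unfold ecard
  have h1 : (univ.filter (fun p : Fin n × Fin n => InX X p.1 p.2)) ⊆
      ((univ.filter (fun p : VV β j₀ × VV β j₀ => InX X p.1.1 p.2.1)).image
        (fun p => (p.1.1, p.2.1))) ∪ ((usedT β j₀ ×ˢ univ) ∪ (univ ×ˢ usedT β j₀)) := by
    rintro ⟨u, v⟩ h
    have h2 := (mem_filter.1 h).2
    by_cases hu : u ∈ usedT β j₀
    · apply mem_union_right
      apply mem_union_left
      exact mem_product.2 ⟨hu, mem_univ _⟩
    by_cases hv : v ∈ usedT β j₀
    · apply mem_union_right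
      apply mem_union_right
      exact mem_product.2 ⟨mem_univ _, hv⟩
    apply mem_union_left
    rw [mem_image]
    exact ⟨(⟨u, hu⟩, ⟨v, hv⟩), mem_filter.2 ⟨mem_univ _, h2⟩, rfl⟩
  refine (card_le_card h1).trans ((card_union_le _ _).trans ?_)
  apply Nat.add_le_add card_image_le
  refine (card_union_le _ _).trans ?_
  rw [card_product, card_product, card_univ, Fintype.card_fin]
  linarith [mul_comm n (usedT β j₀).card]

open Classical in
/-- One ladder, the other ones fixed. -/
theorem one_ladder [NeZero m] [NeZero t] (hq : 3 * t ≤ q) (X Y : Finset (Pr n))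
    (hXY : Disjoint X Y) (K : ℕ) (hK : 1 ≤ K) (hX : n ^ 2 ≤ K * X.card)
    (hY : n ^ 2 ≤ K * Y.card) (R : (Pr n → Bool) → Prop) (hR : Mixing X Y R) (g₀ : ℕ)
    (hm : m = 8 * (2 * K) ^ 16 * g₀)
    (hn : 2 * (57600 * (8 * (2 * K) ^ 16) * (m * t)) ≤ n)
    (S : Fin t → Pos m → Pos m) (j₀ : Fin t) (β : Fin t → Pos m → Fin n) :
    |(num (fun f : Pos m → Fin n => InjT (Function.update β j₀ f) ∧
        R (inpT hq (Function.update β j₀ f) (Function.update S j₀ (strt m 0)))) : ℝ) -
      num (fun f : Pos m → Fin n => InjT (Function.update β j₀ f) ∧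
        R (inpT hq (Function.update β j₀ f) (Function.update S j₀ (strt m 1))))| ≤
      8 * (8 / 9) ^ g₀ *
        num (fun f : Pos m → Fin n => InjT (Function.update β j₀ f) ∧ True) := by
  have ht : 0 < t := Nat.pos_of_ne_zero (NeZero.ne t)
  by_cases hβ : InjOff β j₀
  · rw [card_pull β j₀ hβ (fun f => R (inpT hq (Function.update β j₀ f)
      (Function.update S j₀ (strt m 0)))), card_pull β j₀ hβ (fun f => R (inpT hq
      (Function.update β j₀ f) (Function.update S j₀ (strt m 1)))),
      card_pull β j₀ hβ (fun _ => True)]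
    have hu := usedT_card β j₀
    have hV := card_VV β j₀
    have hK16 : 1 ≤ (2 * K) ^ 16 := Nat.one_le_pow _ _ (by omega)
    have hKK : 2 * K ≤ (2 * K) ^ 16 := Nat.le_self_pow (by norm_num) _
    have h24 : 24 * m * t = 24 * (m * t) := by ring
    have hmt : m ≤ m * t := Nat.le_mul_of_pos_right _ ht
    obtain ⟨u, hu'⟩ : ∃ u, u = (usedT β j₀).card := ⟨_, rfl⟩
    rw [← hu'] at hu hV
    have hbig : 57600 * (8 * (2 * K) ^ 16) * (m * t) + 24 * (m * t) ≤ n := by
      have h2 : 24 * (m * t) ≤ 57600 * (8 * (2 * K) ^ 16) * (m * t) := by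
        apply Nat.mul_le_mul_right
        omega
      omega
    have hVn : 57600 * (8 * (2 * K) ^ 16) * m ≤ Fintype.card (VV β j₀) := by
      rw [hV]
      have h2 : 57600 * (8 * (2 * K) ^ 16) * m ≤ 57600 * (8 * (2 * K) ^ 16) * (m * t) :=
        Nat.mul_le_mul_left _ hmt
      omega
    have hm0 : 0 < m := Nat.pos_of_ne_zero (NeZero.ne m)
    have hVpos : 0 < Fintype.card (VV β j₀) := by
      have : 0 < 57600 * (8 * (2 * K) ^ 16) * m := by positivity
      omega
    have hed : ∀ Z : Finset (Pr n), n ^ 2 ≤ K * Z.card →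
        Fintype.card (VV β j₀) ^ 2 ≤
          2 * K * ecard (fun u v : VV β j₀ => InX Z u.1 v.1) := by
      intro Z hZ
      have h1 := ecard_VV β j₀ Z
      rw [← hu'] at h1
      have h2 : 4 * K * u ≤ n := by
        calc 4 * K * u ≤ 4 * K * (24 * (m * t)) := by
              apply Nat.mul_le_mul_left
              omega
          _ = 96 * K * (m * t) := by ring
          _ ≤ 2 * (57600 * (8 * (2 * K) ^ 16)) * (m * t) := by
              apply Nat.mul_le_mul_right
              omega
          _ ≤ n := by linarith
      have h3 : K * (2 * (u * n)) * 2 ≤ n * n := by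
        calc K * (2 * (u * n)) * 2 = 4 * K * u * n := by ring
          _ ≤ n * n := Nat.mul_le_mul_right _ h2
      have h4 : K * Z.card ≤ K * ecard (fun u v : VV β j₀ => InX Z u.1 v.1) +
          K * (2 * (u * n)) := by
        rw [← mul_add]
        exact Nat.mul_le_mul_left _ h1
      have h5 : Fintype.card (VV β j₀) ^ 2 ≤ n ^ 2 := by
        apply Nat.pow_le_pow_left
        rw [hV]
        omega
      have h6 : n ^ 2 = n * n := sq n
      have h7 : 2 * K * ecard (fun u v : VV β j₀ => InX Z u.1 v.1) =
          2 * (K * ecard (fun u v : VV β j₀ => InX Z u.1 v.1)) := by ring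
      rw [h7]
      omega
    have key := hitsV_rel (V := VV β j₀) (m := m) (fun u v => InX X u.1 v.1)
      (fun u v => InX Y u.1 v.1) hVpos (2 * K) (hed X hX) (hed Y hY)
      (fun f G => R (inpT hq (Function.update β j₀ (fun p => (f p).1))
        (Function.update S j₀ G))) (by
        intro f x y c
        have h9 := inpT_tau hq β S j₀ (fun p => (f p).1) x y c
        simp only
        rw [h9]
        rfl) (by
        intro f c x y x' y' h1 h2 hx hy
        refine mixing_inpT hq hXY hR _ S j₀ c x y x' y' h1 h2 ?_ ?_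
        · intro i hi
          apply hx
          intro h
          apply hi
          rw [Function.update_self]
          exact h
        · intro i hi
          apply hy
          intro h
          apply hi
          rw [Function.update_self]
          exact h) g₀ hm hVn
    rw [hitsV_num, hitsV_num, hitsV_num] at key
    exact key
  · rw [card_not β j₀ hβ (fun f => R (inpT hq (Function.update β j₀ f)
      (Function.update S j₀ (strt m 0)))), card_not β j₀ hβ (fun f => R (inpT hq
      (Function.update β j₀ f) (Function.update S j₀ (strt m 1)))),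
      card_not β j₀ hβ (fun _ => True)]
    simp

/-- The number of placements for which the input is in the set. -/
noncomputable def hitsT [NeZero m] [NeZero t] (hq : 3 * t ≤ q) (r : Fin t → ZMod 3)
    (R : (Pr n → Bool) → Prop) : ℕ :=
  num (fun ω : Fin t → Pos m → Fin n => InjT ω ∧ R (inpT hq ω (fun j => strt m (r j))))

/-- The number of injective placements. -/
noncomputable def allT (n m t : ℕ) : ℕ :=
  num (fun ω : Fin t → Pos m → Fin n => InjT ω ∧ True)

theorem hybrid_step [NeZero m] [NeZero t] (hq : 3 * t ≤ q) (X Y : Finset (Pr n))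
    (hXY : Disjoint X Y) (K : ℕ) (hK : 1 ≤ K) (hX : n ^ 2 ≤ K * X.card)
    (hY : n ^ 2 ≤ K * Y.card) (R : (Pr n → Bool) → Prop) (hR : Mixing X Y R) (g₀ : ℕ)
    (hm : m = 8 * (2 * K) ^ 16 * g₀)
    (hn : 2 * (57600 * (8 * (2 * K) ^ 16) * (m * t)) ≤ n) (hn0 : 0 < n)
    (r : Fin t → ZMod 3) (j₀ : Fin t) :
    |(hitsT (m := m) hq (Function.update r j₀ 0) R : ℝ) -
      hitsT (m := m) hq (Function.update r j₀ 1) R| ≤ 8 * (8 / 9) ^ g₀ * allT n m t := by
  classical
  have hS : ∀ a : ZMod 3, (fun j => strt m (Function.update r j₀ a j)) =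
      Function.update (fun j => strt m (r j)) j₀ (strt m a) := by
    intro a
    funext j
    by_cases hj : j = j₀
    · subst hj
      simp only [Function.update_self]
    · simp only [Function.update_of_ne hj]
  have h1 : ∀ a : ZMod 3, n ^ (24 * m) * hitsT (m := m) hq (Function.update r j₀ a) R =
      ∑ β : Fin t → Pos m → Fin n,
        num (fun f : Pos m → Fin n => InjT (Function.update β j₀ f) ∧
        R (inpT hq (Function.update β j₀ f)
          (Function.update (fun j => strt m (r j)) j₀ (strt m a)))) := by
    intro a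
    unfold hitsT
    rw [hS, upd_count _ j₀]
  have h2 : n ^ (24 * m) * allT n m t = ∑ β : Fin t → Pos m → Fin n,
      num (fun f : Pos m → Fin n => InjT (Function.update β j₀ f) ∧ True) := by
    unfold allT
    rw [upd_count _ j₀]
  have h1' : ∀ a : ZMod 3, (n : ℝ) ^ (24 * m) * hitsT (m := m) hq (Function.update r j₀ a) R =
      ∑ β : Fin t → Pos m → Fin n,
        (num (fun f : Pos m → Fin n => InjT (Function.update β j₀ f) ∧
        R (inpT hq (Function.update β j₀ f)
          (Function.update (fun j => strt m (r j)) j₀ (strt m a)))) : ℝ) := by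
    intro a
    exact_mod_cast h1 a
  have h2' : (n : ℝ) ^ (24 * m) * allT n m t = ∑ β : Fin t → Pos m → Fin n,
      (num (fun f : Pos m → Fin n =>
        InjT (Function.update β j₀ f) ∧ True) : ℝ) := by exact_mod_cast h2
  have hN : (0 : ℝ) < (n : ℝ) ^ (24 * m) := by
    have : (0 : ℝ) < n := by exact_mod_cast hn0
    positivity
  have h3 : (n : ℝ) ^ (24 * m) * |(hitsT (m := m) hq (Function.update r j₀ 0) R : ℝ) -
      hitsT (m := m) hq (Function.update r j₀ 1) R| ≤
      (n : ℝ) ^ (24 * m) * (8 * (8 / 9) ^ g₀ * allT n m t) := by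
    calc (n : ℝ) ^ (24 * m) * |(hitsT (m := m) hq (Function.update r j₀ 0) R : ℝ) -
          hitsT (m := m) hq (Function.update r j₀ 1) R|
        = |(n : ℝ) ^ (24 * m) * hitsT (m := m) hq (Function.update r j₀ 0) R -
          (n : ℝ) ^ (24 * m) * hitsT (m := m) hq (Function.update r j₀ 1) R| := by
          rw [← mul_sub, abs_mul, abs_of_pos hN]
      _ ≤ ∑ β : Fin t → Pos m → Fin n, 8 * (8 / 9) ^ g₀ *
          (num (fun f : Pos m → Fin n =>
            InjT (Function.update β j₀ f) ∧ True) : ℝ) := by
          rw [h1' 0, h1' 1, ← sum_sub_distrib]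
          refine (abs_sum_le_sum_abs _ _).trans (sum_le_sum (fun β _ => ?_))
          exact one_ladder hq X Y hXY K hK hX hY R hR g₀ hm hn _ j₀ β
      _ = (n : ℝ) ^ (24 * m) * (8 * (8 / 9) ^ g₀ * allT n m t) := by
          rw [← mul_sum, ← h2']
          ring
  exact le_of_mul_le_mul_left h3 hN

/-- All ladders. -/
theorem hybrid [NeZero m] [NeZero t] (hq : 3 * t ≤ q) (X Y : Finset (Pr n))
    (hXY : Disjoint X Y) (K : ℕ) (hK : 1 ≤ K) (hX : n ^ 2 ≤ K * X.card)
    (hY : n ^ 2 ≤ K * Y.card) (R : (Pr n → Bool) → Prop) (hR : Mixing X Y R) (g₀ : ℕ)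
    (hm : m = 8 * (2 * K) ^ 16 * g₀)
    (hn : 2 * (57600 * (8 * (2 * K) ^ 16) * (m * t)) ≤ n) (hn0 : 0 < n) :
    |(hitsT (m := m) hq (fun _ => 0) R : ℝ) - hitsT (m := m) hq (fun _ => 1) R| ≤
      t * (8 * (8 / 9) ^ g₀ * allT n m t) := by
  have key : ∀ i : ℕ, i ≤ t → |(hitsT (m := m) hq (fun _ => 0) R : ℝ) -
      hitsT (m := m) hq (fun j : Fin t => if j.val < i then 1 else 0) R| ≤
      i * (8 * (8 / 9) ^ g₀ * allT n m t) := by
    intro i
    induction i with
    | zero =>
      intro _
      simp
    | succ i ih =>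
      intro hi
      have h1 := ih (by omega)
      have h2 := hybrid_step hq X Y hXY K hK hX hY R hR g₀ hm hn hn0
        (fun j : Fin t => if j.val < i then 1 else 0) ⟨i, by omega⟩
      have e0 : Function.update (fun j : Fin t => if j.val < i then (1 : ZMod 3) else 0)
          ⟨i, by omega⟩ 0 = (fun j : Fin t => if j.val < i then 1 else 0) := by
        funext j
        by_cases hj : j = ⟨i, by omega⟩
        · subst hj
          simp
        · rw [Function.update_of_ne hj]
      have e1 : Function.update (fun j : Fin t => if j.val < i then (1 : ZMod 3) else 0)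
          ⟨i, by omega⟩ 1 = (fun j : Fin t => if j.val < i + 1 then 1 else 0) := by
        funext j
        by_cases hj : j = ⟨i, by omega⟩
        · subst hj
          simp
        · rw [Function.update_of_ne hj]
          have h3 : j.val ≠ i := fun h => hj (Fin.ext h)
          by_cases h4 : j.val < i
          · rw [if_pos h4, if_pos (by omega)]
          · rw [if_neg h4, if_neg (by omega)]
      rw [e0, e1] at h2
      have h3 := abs_sub_le (hitsT (m := m) hq (fun _ => 0) R : ℝ)
        (hitsT (m := m) hq (fun j : Fin t => if j.val < i then 1 else 0) R)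
        (hitsT (m := m) hq (fun j : Fin t => if j.val < i + 1 then 1 else 0) R)
      push_cast
      linarith
  have h := key t le_rfl
  have e : (fun j : Fin t => if j.val < t then (1 : ZMod 3) else 0) = fun _ => 1 := by
    funext j
    rw [if_pos j.isLt]
  rw [e] at h
  exact h

end Pool.Agent.V7H65.HD
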