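import Mathlib
import Pool.Agent.V7H65.HD.Dec
import Pool.Agent.V7H65.HD.Hyb

/-! The size of circuits of small formal degree which approximate the length of a longest cycle. -/

namespace Pool.Agent.V7H65.HD

open Finset Pool.Agent.H526R2.GI Pool.Agent.W896.RK Pool.Agent.W896.HP Pool.Agent.W896.FD
  Pool.Agent.V7H65.RK

variable {n m t q : ℕ}

theorem hitsT_union [NeZero m] [NeZero t] (hq : 3 * t ≤ q) {T : Type} (𝒯 : Finset T)
    (A : (Pr n → Bool) → Prop)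
    (R : T → (Pr n → Bool) → Prop) (hA : ∀ z, A z ↔ ∃ t ∈ 𝒯, R t z) (r : Fin t → ZMod 3) :
    hitsT (m := m) hq r A ≤ ∑ θ ∈ 𝒯, hitsT (m := m) hq r (R θ) := by
  classical
  unfold hitsT
  simp only [num_eq]
  have h : (univ : Finset (Fin t → Pos m → Fin n)).filter
      (fun ω => InjT ω ∧ A (inpT hq ω (fun j => strt m (r j)))) ⊆
      𝒯.biUnion (fun θ => (univ : Finset (Fin t → Pos m → Fin n)).filter
        (fun ω => InjT ω ∧ R θ (inpT hq ω (fun j => strt m (r j))))) := by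
    intro ω hω
    rw [mem_filter] at hω
    obtain ⟨θ, hθ, hθ2⟩ := (hA _).1 hω.2.2
    rw [mem_biUnion]
    exact ⟨θ, hθ, mem_filter.2 ⟨mem_univ _, hω.2.1, hθ2⟩⟩
  exact (card_le_card h).trans card_biUnion_le

theorem hitsT_zero_of [NeZero m] [NeZero t] (hq : 3 * t ≤ q) (r : Fin t → ZMod 3)
    (R : (Pr n → Bool) → Prop)
    (h : ∀ ω : Fin t → Pos m → Fin n, InjT ω → ¬ R (inpT hq ω (fun j => strt m (r j)))) :
    hitsT (m := m) hq r R = 0 := by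
  classical
  unfold hitsT
  rw [num_eq, card_eq_zero, filter_eq_empty_iff]
  rintro ω _ ⟨h1, h2⟩
  exact h ω h1 h2

theorem allT_pos (h : 24 * m * t ≤ n) : 0 < allT n m t := by
  classical
  unfold allT
  rw [num_eq, card_pos]
  have h1 : Fintype.card (Fin t × Pos m) ≤ Fintype.card (Fin n) := by
    rw [card_QT, Fintype.card_fin]
    exact h
  obtain ⟨f⟩ := Function.Embedding.nonempty_of_card_le h1
  refine ⟨fun j p => f (j, p), mem_filter.2 ⟨mem_univ _, ?_, trivial⟩⟩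
  intro z z' he
  exact f.injective he

/-- The core. -/
theorem coreT [NeZero m] [NeZero t] (hq : 3 * t ≤ q) {T : Type} (𝒯 : Finset T)
    (R : T → (Pr n → Bool) → Prop) (A : (Pr n → Bool) → Prop)
    (hA : ∀ x, A x ↔ ∃ t ∈ 𝒯, R t x) {K g μ τ lt : ℕ} (hK : 1 ≤ K)
    (hR : ∀ t ∈ 𝒯, ∃ X Y : Finset (Pr n), Disjoint X Y ∧
        n ^ 2 ≤ K * X.card ∧ n ^ 2 ≤ K * Y.card ∧ Mixing X Y (R t))
    (hT : 𝒯.card ≤ 2 ^ τ) (hlt : t ≤ 2 ^ (lt + 1))
    (a b : ZMod 3) (hab : (a = 0 ∧ b = 1) ∨ (a = 1 ∧ b = 0))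
    (hn0 : 0 < n) (hm : m = 8 * (2 * K) ^ 16 * g)
    (hmn : 2 * (57600 * (8 * (2 * K) ^ 16) * (m * t)) ≤ n)
    (h1 : allT n m t ≤ 2 ^ μ * hitsT (m := m) hq (fun _ => a) A)
    (h2 : ∀ ω : Fin t → Pos m → Fin n, InjT ω → ¬ A (inpT hq ω (fun _ => strt m b))) :
    g ≤ 6 * (5 + lt + μ + τ) := by
  classical
  have g2 := hitsT_union (m := m) hq 𝒯 A R hA (fun _ => a)
  have g3 : ∀ θ ∈ 𝒯, (hitsT (m := m) hq (fun _ => a) (R θ) : ℝ) ≤
      t * (8 * (8 / 9) ^ g * allT n m t) := by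
    intro θ hθ
    obtain ⟨X, Y, hXY, hX, hY, hmix⟩ := hR θ hθ
    have g4 := hybrid (m := m) hq X Y hXY K hK hX hY (R θ) hmix g hm hmn hn0
    have g5 : hitsT (m := m) hq (fun _ => b) (R θ) = 0 := by
      apply hitsT_zero_of
      intro ω hω hRω
      exact h2 ω hω ((hA _).2 ⟨θ, hθ, hRω⟩)
    rw [abs_le] at g4
    rcases hab with ⟨rfl, rfl⟩ | ⟨rfl, rfl⟩
    · rw [g5] at g4
      push_cast at g4
      linarith [g4.2]
    · rw [g5] at g4
      push_cast at g4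
      linarith [g4.1]
  have g6 : (hitsT (m := m) hq (fun _ => a) A : ℝ) ≤
      2 ^ τ * (t * (8 * (8 / 9) ^ g * allT n m t)) := by
    calc (hitsT (m := m) hq (fun _ => a) A : ℝ)
        ≤ ∑ θ ∈ 𝒯, (hitsT (m := m) hq (fun _ => a) (R θ) : ℝ) := by exact_mod_cast g2
      _ ≤ ∑ θ ∈ 𝒯, (t * (8 * (8 / 9) ^ g * allT n m t) : ℝ) := sum_le_sum g3
      _ = 𝒯.card * (t * (8 * (8 / 9) ^ g * allT n m t)) := by rw [sum_const, nsmul_eq_mul]
      _ ≤ _ := by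
          apply mul_le_mul_of_nonneg_right _ (by positivity)
          exact_mod_cast hT
  have hall : 24 * m * t ≤ n := by
    have h3 : 24 * (m * t) ≤ 2 * (57600 * (8 * (2 * K) ^ 16)) * (m * t) := by
      apply Nat.mul_le_mul_right
      have : 1 ≤ (2 * K) ^ 16 := Nat.one_le_pow _ _ (by omega)
      omega
    have h4 : 24 * m * t = 24 * (m * t) := by ring
    have h5 : 2 * (57600 * (8 * (2 * K) ^ 16)) * (m * t) =
        2 * (57600 * (8 * (2 * K) ^ 16) * (m * t)) := by ring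
    omega
  have hN : (0 : ℝ) < allT n m t := by exact_mod_cast allT_pos hall
  have g7 : (allT n m t : ℝ) ≤ 2 ^ μ * hitsT (m := m) hq (fun _ => a) A := by
    exact_mod_cast h1
  have g8 : 1 * (allT n m t : ℝ) ≤ (2 ^ (μ + τ) * t * 8 * (8 / 9) ^ g) * allT n m t := by
    rw [one_mul]
    calc (allT n m t : ℝ) ≤ 2 ^ μ * hitsT (m := m) hq (fun _ => a) A := g7
      _ ≤ 2 ^ μ * (2 ^ τ * (t * (8 * (8 / 9) ^ g * allT n m t))) := by gcongr
      _ = _ := by rw [pow_add]; ring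
  have g9 := le_of_mul_le_mul_right g8 hN
  have htR : (t : ℝ) ≤ 2 ^ (lt + 1) := by exact_mod_cast hlt
  have g10 : (9 / 8 : ℝ) ^ g ≤ 2 ^ (4 + lt + μ + τ) := by
    have e1 : (9 / 8 : ℝ) ^ g * (8 / 9) ^ g = 1 := by
      rw [← mul_pow]; norm_num
    calc (9 / 8 : ℝ) ^ g = (9 / 8 : ℝ) ^ g * 1 := by ring
      _ ≤ (9 / 8 : ℝ) ^ g * (2 ^ (μ + τ) * t * 8 * (8 / 9) ^ g) := by gcongr
      _ = 8 * t * 2 ^ (μ + τ) * ((9 / 8 : ℝ) ^ g * (8 / 9) ^ g) := by ring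
      _ = 8 * t * 2 ^ (μ + τ) := by rw [e1, mul_one]
      _ ≤ 8 * 2 ^ (lt + 1) * 2 ^ (μ + τ) := by gcongr
      _ = 2 ^ (4 + lt + μ + τ) := by
          have : 4 + lt + μ + τ = 3 + (lt + 1) + (μ + τ) := by ring
          rw [this, pow_add (2 : ℝ) (3 + (lt + 1)) (μ + τ), pow_add (2 : ℝ) 3 (lt + 1)]
          norm_num
  have g11 : (2 : ℝ) ^ (g / 6) ≤ 2 ^ (4 + lt + μ + τ) := by
    refine le_trans ?_ g10
    calc (2 : ℝ) ^ (g / 6) ≤ ((9 / 8 : ℝ) ^ 6) ^ (g / 6) := by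
          apply pow_le_pow_left₀ (by norm_num)
          norm_num
      _ = (9 / 8 : ℝ) ^ (6 * (g / 6)) := by rw [pow_mul]
      _ ≤ (9 / 8 : ℝ) ^ g := pow_le_pow_right₀ (by norm_num) (Nat.mul_div_le _ _)
  have g12 : g / 6 ≤ 4 + lt + μ + τ := (pow_le_pow_iff_right₀ (by norm_num)).1 g11
  omega

/-- Arithmetic. -/
theorem arithT {n k κ K EE g t μ lg lt M τ D : ℕ} (hκ : κ = 8 * (k + 1))
    (hK : K = 2 ^ (2 * κ + 6)) (ht : 1 ≤ t)
    (hE : EE = 2 * (57600 * (8 * (2 * K) ^ 16) * (8 * (2 * K) ^ 16))) (hg : g = n / (EE * t))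
    (hM : M = 32 * κ ^ 2 + 1) (hτ : τ = 2 * (lg + 1) * M) (hD : D = 2 ^ (1000 * (k + 1)))
    (h : g ≤ 6 * (5 + lt + μ + τ)) : n ≤ t * D * (μ + lg + lt + 1) := by
  have hK1 : 1 ≤ K := by rw [hK]; exact Nat.one_le_two_pow
  have hKp : 0 < 8 * (2 * K) ^ 16 := Nat.mul_pos (by norm_num) (Nat.pow_pos (by omega))
  have hEpos : 0 < EE := by
    rw [hE]
    exact Nat.mul_pos (by norm_num) (Nat.mul_pos (Nat.mul_pos (by norm_num) hKp) hKp)
  have h1 : n < EE * t * (g + 1) := by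
    rw [hg]
    exact Nat.lt_mul_div_succ n (Nat.mul_pos hEpos ht)
  have hM1 : 1 ≤ M := by omega
  have h2 : g + 1 ≤ 43 * M * (μ + lg + lt + 1) := by
    have h3 : (μ + lg + lt + 1) * 1 ≤ (μ + lg + lt + 1) * M := Nat.mul_le_mul_left _ hM1
    have h4 : (lg + 1) * M ≤ (μ + lg + lt + 1) * M := Nat.mul_le_mul_right _ (by omega)
    have h5 : 6 * (5 + lt + μ + τ) = 30 + 6 * lt + 6 * μ + 12 * ((lg + 1) * M) := by
      rw [hτ]; ring
    have h6 : 43 * M * (μ + lg + lt + 1) = 43 * ((μ + lg + lt + 1) * M) := by ring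
    rw [h6]
    omega
  have hEE : EE * (43 * M) ≤ D := by
    have e1 : EE ≤ 2 ^ 23 * (2 * K) ^ 32 := by
      rw [hE]
      calc 2 * (57600 * (8 * (2 * K) ^ 16) * (8 * (2 * K) ^ 16)) = 7372800 * (2 * K) ^ 32 := by
            ring
        _ ≤ 2 ^ 23 * (2 * K) ^ 32 := Nat.mul_le_mul_right _ (by norm_num)
    have e2 : (2 * K) ^ 32 = 2 ^ (512 * k + 736) := by
      have : 2 * K = 2 ^ (2 * κ + 7) := by rw [hK, pow_succ 2 (2 * κ + 6)]; ring
      rw [this, hκ, ← pow_mul]; congr 1; ring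
    have e3 : 43 * M ≤ 2 ^ (2 * k + 17) := by
      have h4 : (k + 1) ^ 2 ≤ 4 ^ k := by
        have : k + 1 ≤ 2 ^ k := Nat.lt_two_pow_self
        calc (k + 1) ^ 2 ≤ (2 ^ k) ^ 2 := Nat.pow_le_pow_left this 2
          _ = 4 ^ k := by rw [← pow_mul, mul_comm k 2, pow_mul]; norm_num
      have h5 : 2 ^ (2 * k + 17) = 131072 * 4 ^ k := by
        rw [pow_add, pow_mul]; norm_num; ring
      have h6 : M = 2048 * (k + 1) ^ 2 + 1 := by rw [hM, hκ]; ring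
      have h7 : 1 ≤ 4 ^ k := Nat.one_le_pow _ _ (by norm_num)
      rw [h6, h5]
      omega
    calc EE * (43 * M) ≤ (2 ^ 23 * 2 ^ (512 * k + 736)) * 2 ^ (2 * k + 17) := by
          rw [← e2]
          exact Nat.mul_le_mul e1 e3
      _ = 2 ^ (514 * k + 776) := by rw [← pow_add, ← pow_add]; congr 1; ring
      _ ≤ D := by rw [hD]; exact Nat.pow_le_pow_right (by norm_num) (by omega)
  calc n ≤ EE * t * (g + 1) := h1.le
    _ ≤ EE * t * (43 * M * (μ + lg + lt + 1)) := Nat.mul_le_mul_left _ h2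
    _ = t * (EE * (43 * M)) * (μ + lg + lt + 1) := by ring
    _ ≤ t * D * (μ + lg + lt + 1) := by gcongr

/-- Averaging over the guesses. -/
theorem exists_guessT [NeZero m] [NeZero t] (hq : 3 * t ≤ q) {G : Type} [Fintype G] [Nonempty G]
    (A : G → (Pr n → Bool) → Prop) (a : ZMod 3) (μ : ℕ)
    (h : ∀ ω : Fin t → Pos m → Fin n, InjT ω →
      Nat.card G ≤ 2 ^ μ * Nat.card {y // A y (inpT hq ω (fun _ => strt m a))}) :
    ∃ y, allT n m t ≤ 2 ^ μ * hitsT (m := m) hq (fun _ => a) (A y) := by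
  classical
  by_contra hcon
  push Not at hcon
  have h1 : ∑ y : G, 2 ^ μ * hitsT (m := m) hq (fun _ => a) (A y) < ∑ _y : G, allT n m t :=
    sum_lt_sum_of_nonempty univ_nonempty (fun y _ => hcon y)
  have h2 : ∑ y : G, hitsT (m := m) hq (fun _ => a) (A y) =
      ∑ ω ∈ (univ : Finset (Fin t → Pos m → Fin n)).filter (fun ω => InjT ω),
        Nat.card {y // A y (inpT hq ω (fun _ => strt m a))} := by
    have e1 : ∀ y : G, hitsT (m := m) hq (fun _ => a) (A y) =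
        ∑ ω ∈ (univ : Finset (Fin t → Pos m → Fin n)).filter (fun ω => InjT ω),
          if A y (inpT hq ω (fun _ => strt m a)) then 1 else 0 := by
      intro y
      unfold hitsT
      rw [num_eq, ← card_filter, filter_filter]
    rw [sum_congr rfl (fun y _ => e1 y), sum_comm]
    apply sum_congr rfl
    intro f _
    rw [Nat.card_eq_fintype_card, Fintype.card_subtype, card_filter]
  have h3 : allT n m t =
      ((univ : Finset (Fin t → Pos m → Fin n)).filter (fun ω => InjT ω)).card := by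
    unfold allT
    rw [num_eq]
    simp only [and_true]
  rw [sum_const, card_univ, smul_eq_mul, ← mul_sum, h2, h3, mul_sum] at h1
  have h4 : Fintype.card G *
      ((univ : Finset (Fin t → Pos m → Fin n)).filter (fun ω => InjT ω)).card ≤
      ∑ ω ∈ (univ : Finset (Fin t → Pos m → Fin n)).filter (fun ω => InjT ω),
        2 ^ μ * Nat.card {y // A y (inpT hq ω (fun _ => strt m a))} := by
    rw [mul_comm, ← smul_eq_mul, ← sum_const]
    apply sum_le_sum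
    intro ω hω
    rw [← Nat.card_eq_fintype_card]
    exact h ω (mem_filter.1 hω).2
  omega

/-- **The bound.** -/
theorem mainT {V G : Type} [Fintype G] [Nonempty G] (k μ t : ℕ) [NeZero t] (p : Pr n → V)
    (hp : Function.Injective p) (b₀ : G → V → Bool) (U : Circ V) (d : U.G → Pr n → ℕ)
    (hd : IsDeg U p d) (hk : ∑ e, d U.out e ≤ k * n ^ 2)
    (a b : ZMod 3) (hab : (a = 0 ∧ b = 1) ∨ (a = 1 ∧ b = 0))
    (h1 : ∀ (m q : ℕ) [NeZero m] (hq : 3 * t ≤ q), n = 24 * m * t + q → 6 * t ≤ n →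
      ∀ ω : Fin t → Pos m → Fin n, InjT ω → Nat.card G ≤
        2 ^ μ * Nat.card {y // U.Val (fill p (b₀ y) (inpT hq ω (fun _ => strt m a))) U.out})
    (h2 : ∀ (m q : ℕ) [NeZero m] (hq : 3 * t ≤ q), n = 24 * m * t + q → 6 * t ≤ n →
      ∀ ω : Fin t → Pos m → Fin n, InjT ω →
      ∀ y, ¬ U.Val (fill p (b₀ y) (inpT hq ω (fun _ => strt m b))) U.out) :
    n ≤ t * 2 ^ (1000 * (k + 1)) * (μ + Nat.log 2 (Fintype.card U.G) + Nat.log 2 t + 1) := by
  classical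
  have ht : 1 ≤ t := Nat.pos_of_ne_zero (NeZero.ne t)
  obtain ⟨κ, hκ⟩ : ∃ κ, κ = 8 * (k + 1) := ⟨_, rfl⟩
  obtain ⟨K, hK⟩ : ∃ K, K = 2 ^ (2 * κ + 6) := ⟨_, rfl⟩
  obtain ⟨EE, hE⟩ : ∃ EE, EE = 2 * (57600 * (8 * (2 * K) ^ 16) * (8 * (2 * K) ^ 16)) := ⟨_, rfl⟩
  obtain ⟨g, hg⟩ : ∃ g, g = n / (EE * t) := ⟨_, rfl⟩
  obtain ⟨M, hM⟩ : ∃ M, M = 32 * κ ^ 2 + 1 := ⟨_, rfl⟩
  obtain ⟨τ, hτ⟩ : ∃ τ, τ = 2 * (Nat.log 2 (Fintype.card U.G) + 1) * M := ⟨_, rfl⟩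
  refine arithT hκ hK ht hE hg hM hτ rfl ?_
  rcases Nat.eq_zero_or_pos g with hg0 | hg0
  · omega
  have hK1 : 1 ≤ K := by rw [hK]; exact Nat.one_le_two_pow
  have hKp : 0 < 8 * (2 * K) ^ 16 := Nat.mul_pos (by norm_num) (Nat.pow_pos (by omega))
  have hEpos : 0 < EE := by
    rw [hE]
    exact Nat.mul_pos (by norm_num) (Nat.mul_pos (Nat.mul_pos (by norm_num) hKp) hKp)
  obtain ⟨m, hm⟩ : ∃ m, m = 8 * (2 * K) ^ 16 * g := ⟨_, rfl⟩
  have hm0 : 0 < m := by rw [hm]; exact Nat.mul_pos hKp hg0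
  have : NeZero m := ⟨by omega⟩
  have hEg : EE * t * g ≤ n := by rw [hg]; exact Nat.mul_div_le _ _
  have hmn : 2 * (57600 * (8 * (2 * K) ^ 16) * (m * t)) ≤ n := by
    calc 2 * (57600 * (8 * (2 * K) ^ 16) * (m * t)) = EE * t * g := by rw [hm, hE]; ring
      _ ≤ n := hEg
  have hEbig : 57600 * 64 * K ≤ EE := by
    have e1 : K ≤ (2 * K) ^ 32 := (show K ≤ 2 * K by omega).trans
      (Nat.le_self_pow (by norm_num) _)
    calc 57600 * 64 * K ≤ 57600 * 64 * (2 * K) ^ 32 := Nat.mul_le_mul_left _ e1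
      _ ≤ 2 * (57600 * 64 * (2 * K) ^ 32) := by omega
      _ = EE := by rw [hE]; ring
  have hnEt : EE * t ≤ n := by
    calc EE * t = EE * t * 1 := (mul_one _).symm
      _ ≤ EE * t * g := Nat.mul_le_mul_left _ hg0
      _ ≤ n := hEg
  have hnE : EE ≤ n := (Nat.le_mul_of_pos_right _ ht).trans hnEt
  have h6t : 12 * t ≤ n := by
    refine le_trans ?_ hnEt
    apply Nat.mul_le_mul_right
    omega
  have hm24 : 2 * (24 * m * t) ≤ n := by
    have h3 : 48 * (m * t) ≤ 2 * (57600 * (8 * (2 * K) ^ 16)) * (m * t) := by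
      apply Nat.mul_le_mul_right
      omega
    have h4 : 2 * (24 * m * t) = 48 * (m * t) := by ring
    have h5 : 2 * (57600 * (8 * (2 * K) ^ 16)) * (m * t) =
        2 * (57600 * (8 * (2 * K) ^ 16) * (m * t)) := by ring
    omega
  obtain ⟨q, hq⟩ : ∃ q, n = 24 * m * t + q := ⟨n - 24 * m * t, by omega⟩
  have hq3 : 3 * t ≤ q := by omega
  have hKκ : κ ≤ K := by
    rw [hK]
    have : κ < 2 ^ κ := Nat.lt_two_pow_self
    exact this.le.trans (Nat.pow_le_pow_right (by norm_num) (by omega))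
  have hn2 : 2 ≤ n := by omega
  have hn0 : 0 < n := by omega
  have hnn : n ≤ n * n := Nat.le_mul_self n
  obtain ⟨n₁, hn₁⟩ : ∃ n₁, n₁ = n * n / 16 := ⟨_, rfl⟩
  obtain ⟨a₁, ha₁⟩ : ∃ a₁, a₁ = n₁ / (2 * κ) := ⟨_, rfl⟩
  have hn₁2 : n * n < 16 * (n₁ + 1) := by rw [hn₁]; exact Nat.lt_mul_div_succ _ (by norm_num)
  have hn₁κ : 2 * κ ≤ n₁ := by omega
  have ha1 : 1 ≤ a₁ := by
    rw [ha₁]
    exact (Nat.one_le_div_iff (by omega)).2 hn₁κ
  have haκ : 2 * κ * a₁ ≤ n₁ := by rw [ha₁]; exact Nat.mul_div_le _ _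
  have hna : n₁ < 2 * κ * (a₁ + 1) := by rw [ha₁]; exact Nat.lt_mul_div_succ n₁ (by omega)
  obtain ⟨e₀, he₀⟩ := exists_low (U := U) (d := d) hκ hn₁ hn2 hk
  obtain ⟨y, hy⟩ := exists_guessT (n := n) (m := m) hq3
    (fun y x => U.Val (fill p (b₀ y) x) U.out) a μ
    (fun ω hω => h1 m q hq3 hq (by omega) ω hω)
  obtain ⟨𝒯, hA, hR⟩ := circ_decomp hp (b₀ y) hd (M := M) (a := a₁) (κ := κ) e₀ he₀ ha1
    (by linarith) (by omega) (by
      have h3 : n₁ ≤ 4 * κ * a₁ := by nlinarith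
      calc a₁ + 8 * (n₁ * κ) ≤ a₁ + 8 * ((4 * κ * a₁) * κ) := by gcongr
        _ = a₁ * M := by rw [hM]; ring)
  refine coreT (m := m) hq3 𝒯 (Hold p (b₀ y)) (fun x => U.Val (fill p (b₀ y) x) U.out) hA
    (K := K) hK1 ?_ ?_ (Nat.lt_pow_succ_log_self (by norm_num) t).le a b hab hn0 hm hmn hy
    (fun ω hω => h2 m q hq3 hq (by omega) ω hω y)
  · intro θ hθ
    obtain ⟨X, Y, hXY, hX, hY, hmix⟩ := hR θ hθ
    have h5 : ∀ Z : Finset (Pr n), n₁ ≤ 2 ^ (2 * κ + 1) * Z.card → n ^ 2 ≤ K * Z.card := by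
      intro Z hZ
      have h6 : K = 32 * 2 ^ (2 * κ + 1) := by
        rw [hK]
        have : 2 * κ + 6 = 5 + (2 * κ + 1) := by ring
        rw [this, pow_add]
        norm_num
      calc n ^ 2 = n * n := sq n
        _ ≤ 32 * n₁ := by omega
        _ ≤ 32 * (2 ^ (2 * κ + 1) * Z.card) := Nat.mul_le_mul_left _ hZ
        _ = K * Z.card := by rw [h6]; ring
    exact ⟨X, Y, hXY, h5 X hX, h5 Y hY, hmix⟩
  · refine (card_le_univ _).trans ?_
    rw [Fintype.card_fun, Fintype.card_fin, hτ, pow_mul]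
    exact Nat.pow_le_pow_left (piece_card U) _

end Pool.Agent.V7H65.HD
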