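import Mathlib
import Pool.Agent.V7H65.HD.Main2

/-! Circuits of small formal degree for isomorphism and non-isomorphism of two-regular graphs. -/

namespace Pool.Agent.V7H65.HD

open Finset Pool.Agent.H526R2.GI Pool.Agent.W896.RK Pool.Agent.W896.HP Pool.Agent.W896.FD
  Pool.Agent.V7H65.RK

variable {n m t q : ℕ}

/-- A bijection of the index sets does not change the bits. -/
theorem inpG_equiv {P Q : Type} (c : Q ≃ P) (g : P → Fin n) (F : P → P) (F' : Q → Q)
    (h : ∀ l, F (c l) = c (F' l)) : inpG g F = inpG (g ∘ c) F' := by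
  funext e
  rw [Bool.eq_iff_iff, inpG_iff, inpG_iff]
  constructor
  · rintro ⟨p, hp⟩
    refine ⟨c.symm p, ?_⟩
    have := h (c.symm p)
    rw [c.apply_symm_apply] at this
    simp only [Function.comp]
    rw [← this, c.apply_symm_apply]
    exact hp
  · rintro ⟨l, hl⟩
    refine ⟨c l, ?_⟩
    rw [h]
    exact hl

/-- The isomorphism type depends only on the step function. -/
theorem iso_inpG {P : Type} (g g' : P → Fin n) (hg : Function.Bijective g)
    (hg' : Function.Bijective g') (F : P → P) :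
    Nonempty (graph (inpG g F) ≃g graph (inpG g' F)) := by
  let σ : Fin n ≃ Fin n := (Equiv.ofBijective g hg).symm.trans (Equiv.ofBijective g' hg')
  have hσ : ∀ p, σ (g p) = g' p := by
    intro p
    simp only [σ, Equiv.trans_apply]
    have : (Equiv.ofBijective g hg).symm (g p) = p := by
      rw [Equiv.symm_apply_eq]
      rfl
    rw [this]
    rfl
  refine ⟨⟨σ, ?_⟩⟩
  intro u v
  rw [adjG_iff, adjG_iff]
  constructor
  · rintro ⟨h1, p, hp⟩
    refine ⟨fun h => h1 (by rw [h]), p, ?_⟩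
    rw [← hσ, ← hσ, ← Sym2.map_mk, ← Sym2.map_mk] at hp
    exact Sym2.map.injective σ.injective hp
  · rintro ⟨h1, p, hp⟩
    refine ⟨fun h => h1 (σ.injective h), p, ?_⟩
    rw [← hσ, ← hσ, ← Sym2.map_mk, ← Sym2.map_mk, hp]

/-- The cycle. -/
noncomputable def cyc (n : ℕ) : Pr n → Bool := inpG (id : Fin n → Fin n) nx

theorem cyc_enum [NeZero m] [NeZero t] (hq : 3 * t ≤ q) (hn : n = 24 * m * t + q) :
    ∃ c : Fin n ≃ (Fin t × Pos m) ⊕ Fin q, ∀ l, stepT hq (fun _ => strt m 1) (c l) = c (nx l) := by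
  classical
  set σ : Equiv.Perm ((Fin t × Pos m) ⊕ Fin q) := Equiv.ofBijective (stepT hq (fun _ => strt m 1))
    (Finite.injective_iff_bijective.1 (stepT_inj hq (fun _ => 1))) with hσ
  have hσa : ∀ p, σ p = stepT hq (fun _ => strt m 1) p := fun p => rfl
  obtain ⟨z₀, hz₀⟩ : ∃ z₀ : (Fin t × Pos m) ⊕ Fin q, z₀ = Sum.inl (0, bse 0) := ⟨_, rfl⟩
  have hcyc : σ.IsCycleOn ((univ : Finset ((Fin t × Pos m) ⊕ Fin q)) : Set _) := by
    refine ⟨?_, ?_⟩
    · rw [coe_univ, Set.bijOn_univ]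
      exact σ.bijective
    · intro p _ z _
      have := stepT_const hq (fun z => σ.SameCycle p z) (by
        intro z
        apply propext
        rw [← hσa]
        exact Equiv.Perm.sameCycle_apply_right) z p
      rw [this]
  have hcard : (univ : Finset ((Fin t × Pos m) ⊕ Fin q)).card = n := by
    rw [card_univ, card_PT, hn]
  have hcirc := hcyc.pow_card_apply (mem_univ z₀)
  rw [hcard] at hcirc
  have hsurj : Function.Surjective (fun i : Fin n => (σ ^ i.val) z₀) := by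
    intro z
    obtain ⟨i, hi, hi2⟩ := hcyc.exists_pow_eq (mem_univ z₀) (mem_univ z)
    rw [hcard] at hi
    exact ⟨⟨i, hi⟩, hi2⟩
  have hbij : Function.Bijective (fun i : Fin n => (σ ^ i.val) z₀) := by
    apply (Fintype.bijective_iff_surjective_and_card _).2 ⟨hsurj, ?_⟩
    rw [Fintype.card_fin, card_PT, hn]
  refine ⟨Equiv.ofBijective _ hbij, ?_⟩
  intro i
  simp only [Equiv.ofBijective_apply]
  rw [← hσa, ← Equiv.Perm.mul_apply, ← pow_succ']
  simp only [nx]
  rcases Nat.lt_or_ge (i.val + 1) n with h | h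
  · rw [Nat.mod_eq_of_lt h]
  · have : i.val + 1 = n := by have := i.isLt; omega
    rw [this, Nat.mod_self, hcirc]
    rfl

/-- With all shifts one the graph is a cycle. -/
theorem iso_cyc [NeZero m] [NeZero t] (hq : 3 * t ≤ q) (ω : Fin t → Pos m → Fin n)
    (hω : InjT ω) (hn : n = 24 * m * t + q) :
    Nonempty (graph (inpT hq ω (fun _ => strt m 1)) ≃g graph (cyc n)) := by
  obtain ⟨c, hc⟩ := cyc_enum hq hn
  unfold inpT
  rw [inpG_equiv c (fullT q ω) _ nx hc]
  exact iso_inpG _ _ ((fullT_bij ω hω hn).comp c.bijective) Function.bijective_id _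

theorem exists_injT (h : 24 * m * t ≤ n) : ∃ ω : Fin t → Pos m → Fin n, InjT ω := by
  have h1 : Fintype.card (Fin t × Pos m) ≤ Fintype.card (Fin n) := by
    rw [card_QT, Fintype.card_fin]
    exact h
  obtain ⟨f⟩ := Function.Embedding.nonempty_of_card_le h1
  refine ⟨fun j p => f (j, p), ?_⟩
  intro z z' he
  exact f.injective he

/-- With all shifts zero it is not a cycle. -/
theorem not_iso_cyc [NeZero m] [NeZero t] (ht : 2 ≤ t) (hq : 3 * t ≤ q)
    (ω : Fin t → Pos m → Fin n)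
    (hω : InjT ω) (hn : n = 24 * m * t + q) (hn6 : 6 * t ≤ n) :
    ¬ Nonempty (graph (inpT hq ω (fun _ => strt m 0)) ≃g graph (cyc n)) := by
  rintro ⟨φ⟩
  obtain ⟨ψ⟩ := iso_cyc hq ω hω hn
  have h1 : (graph (inpT hq ω (fun _ => strt m 1))).Connected := (hamT hq ω hω hn).connected
  have h2 : (graph (inpT hq ω (fun _ => strt m 0))).Connected := by
    rw [SimpleGraph.Iso.connected_iff (φ.trans ψ.symm)]
    exact h1
  have h3 := smallT hq ω hω hn hn6 (fullT q ω (Sum.inl (0, bse 0)))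
  have h4 : {w | (graph (inpT hq ω (fun _ => strt m 0))).Reachable
      (fullT q ω (Sum.inl (0, bse 0))) w} = Set.univ := by
    ext w
    simp only [Set.mem_ofPred_eq, Set.mem_univ, iff_true]
    exact h2.preconnected _ _
  rw [h4, Set.ncard_univ, Nat.card_eq_fintype_card, Fintype.card_fin] at h3
  nlinarith

theorem twoReg_cyc [NeZero m] [NeZero t] (hq : 3 * t ≤ q) (hn : n = 24 * m * t + q) :
    TwoReg (cyc n) := by
  obtain ⟨ω, hω⟩ := exists_injT (n := n) (m := m) (t := t) (by omega)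
  obtain ⟨φ⟩ := iso_cyc hq ω hω hn
  have h := twoRegT hq ω hω hn (fun _ => 1)
  intro v
  have h1 := h (φ.symm v)
  have h2 : (graph (cyc n)).neighborSet v =
      φ '' (graph (inpT hq ω (fun _ => strt m 1))).neighborSet (φ.symm v) := by
    ext w
    simp only [SimpleGraph.mem_neighborSet, Set.mem_image]
    constructor
    · intro hw
      refine ⟨φ.symm w, ?_, by simp⟩
      rw [← φ.map_adj_iff]
      simpa using hw
    · rintro ⟨u, hu, rfl⟩
      rw [← φ.map_adj_iff] at hu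
      simpa using hu
  rw [h2, Set.ncard_image_of_injective _ φ.injective]
  exact h1

/-- Both graphs are two-regular. -/
def TwoRegPair (z : Var n → Bool) : Prop :=
  TwoReg (fun e => z (Sum.inl e)) ∧ TwoReg (fun e => z (Sum.inr e))

theorem gi_final (n k g μ : ℕ) (U : Circ (Var n ⊕ Fin g)) (d : U.G → Pr n → ℕ)
    (hd : IsDeg U (fun e => Sum.inl (Sum.inl e)) d) (hk : ∑ e, d U.out e ≤ k * n ^ 2)
    (A B : (Var n → Bool) → Prop)
    (hAB : (A = IsIso ∧ B = fun z => ¬ IsIso z) ∨ (A = (fun z => ¬ IsIso z) ∧ B = IsIso))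
    (hA : ∀ z, TwoRegPair z → A z →
      2 ^ g ≤ 2 ^ μ * Nat.card {y : Fin g → Bool // U.Val (Sum.elim z y) U.out})
    (hB : ∀ z, TwoRegPair z → B z → ∀ y, ¬ U.Val (Sum.elim z y) U.out) :
    n ≤ 2 ^ (1002 * (k + 1)) * (μ + Nat.log 2 (Fintype.card U.G) + 1) := by
  classical
  have hp : Function.Injective (fun e : Pr n => (Sum.inl (Sum.inl e) : Var n ⊕ Fin g)) := by
    intro e e' h
    exact Sum.inl_injective (Sum.inl_injective h)
  have hfill : ∀ (y : Fin g → Bool) (x : Pr n → Bool),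
      fill (fun e : Pr n => (Sum.inl (Sum.inl e) : Var n ⊕ Fin g))
        (Sum.elim (Sum.elim (fun _ => false) (cyc n)) y) x =
      Sum.elim (Sum.elim x (cyc n)) y := by
    intro y x
    funext v
    rcases v with (e | e) | i
    · exact fill_apply hp _ _ e
    · exact fill_other _ _ (fun e => by simp)
    · exact fill_other _ _ (fun e => by simp)
  have hcard : Nat.card (Fin g → Bool) = 2 ^ g := by
    rw [Nat.card_eq_fintype_card, Fintype.card_fun, Fintype.card_bool, Fintype.card_fin]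
  have : NeZero (2 : ℕ) := ⟨by norm_num⟩
  have p1 : ∀ (m q : ℕ) [NeZero m] (hq : 3 * 2 ≤ q), n = 24 * m * 2 + q →
      ∀ ω : Fin 2 → Pos m → Fin n, InjT ω →
        TwoRegPair (Sum.elim (inpT hq ω (fun _ => strt m 1)) (cyc n)) ∧
        IsIso (Sum.elim (inpT hq ω (fun _ => strt m 1)) (cyc n)) := by
    intro m q _ hq hn ω hω
    exact ⟨⟨twoRegT hq ω hω hn (fun _ => 1), twoReg_cyc hq hn⟩, iso_cyc hq ω hω hn⟩
  have p0 : ∀ (m q : ℕ) [NeZero m] (hq : 3 * 2 ≤ q), n = 24 * m * 2 + q → 6 * 2 ≤ n →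
      ∀ ω : Fin 2 → Pos m → Fin n, InjT ω →
        TwoRegPair (Sum.elim (inpT hq ω (fun _ => strt m 0)) (cyc n)) ∧
        ¬ IsIso (Sum.elim (inpT hq ω (fun _ => strt m 0)) (cyc n)) := by
    intro m q _ hq hn hn6 ω hω
    exact ⟨⟨twoRegT hq ω hω hn (fun _ => 0), twoReg_cyc hq hn⟩,
      not_iso_cyc le_rfl hq ω hω hn hn6⟩
  have key : n ≤ 2 * 2 ^ (1000 * (k + 1)) *
      (μ + Nat.log 2 (Fintype.card U.G) + Nat.log 2 2 + 1) := by
    rcases hAB with ⟨rfl, rfl⟩ | ⟨rfl, rfl⟩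
    · refine mainT k μ 2 _ hp
        (fun y : Fin g → Bool => Sum.elim (Sum.elim (fun _ => false) (cyc n)) y) U d hd hk 1 0
        (Or.inr ⟨rfl, rfl⟩) ?_ ?_
      · intro m q _ hq hn _ ω hω
        simp only [hfill]
        rw [hcard]
        exact hA _ (p1 m q hq hn ω hω).1 (p1 m q hq hn ω hω).2
      · intro m q _ hq hn hn6 ω hω y
        simp only [hfill]
        exact hB _ (p0 m q hq hn hn6 ω hω).1 (p0 m q hq hn hn6 ω hω).2 y
    · refine mainT k μ 2 _ hp
        (fun y : Fin g → Bool => Sum.elim (Sum.elim (fun _ => false) (cyc n)) y) U d hd hk 0 1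
        (Or.inl ⟨rfl, rfl⟩) ?_ ?_
      · intro m q _ hq hn hn6 ω hω
        simp only [hfill]
        rw [hcard]
        exact hA _ (p0 m q hq hn hn6 ω hω).1 (p0 m q hq hn hn6 ω hω).2
      · intro m q _ hq hn _ ω hω y
        simp only [hfill]
        exact hB _ (p1 m q hq hn ω hω).1 (p1 m q hq hn ω hω).2 y
  have h22 : Nat.log 2 2 = 1 := by decide
  rw [h22] at key
  refine key.trans ?_
  obtain ⟨L, hL⟩ : ∃ L, L = μ + Nat.log 2 (Fintype.card U.G) := ⟨_, rfl⟩
  obtain ⟨D, hD⟩ : ∃ D, D = 2 ^ (1000 * (k + 1)) := ⟨_, rfl⟩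
  have h4D : 4 * D ≤ 2 ^ (1002 * (k + 1)) := by
    rw [hD]
    calc 4 * 2 ^ (1000 * (k + 1)) = 2 ^ (1000 * (k + 1) + 2) := by rw [pow_add]; ring
      _ ≤ 2 ^ (1002 * (k + 1)) := Nat.pow_le_pow_right (by norm_num) (by omega)
  rw [← hL, ← hD]
  calc 2 * D * (L + 1 + 1) ≤ 4 * D * (L + 1) := by nlinarith [Nat.zero_le (D * L)]
    _ ≤ 2 ^ (1002 * (k + 1)) * (L + 1) := Nat.mul_le_mul_right _ h4D

end Pool.Agent.V7H65.HD
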