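import Mathlib
import Pool.Agent.V7H65.RK.Meas
import Pool.Agent.V7H65.HD.Ham

/-! Mixing sets cannot tell a Hamilton cycle from three cycles. -/

namespace Pool.Agent.V7H65.HD

open Finset Pool.Agent.H526R2.GI Pool.Agent.V7H65.RK

variable {n m k : ℕ} [NeZero m]

open Classical in
/-- The number of placements of the ladder with shift `r` in the set `R`. -/
noncomputable def hitsH (k n m : ℕ) [NeZero m] (r : ZMod 3) (R : (Pr n → Bool) → Prop) : ℕ :=
  ((univ : Finset (Pos m → Fin n)).filter
    (fun f => Function.Injective f ∧ R (inpH k f (strt m r)))).card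

open Classical in
theorem hitsH_tau (r : ZMod 3) (R : (Pr n → Bool) → Prop) (x y : Fin m → Bool) :
    hitsH k n m r R = ((univ : Finset (Pos m → Fin n)).filter
      (fun f => Function.Injective f ∧ R (inpH k f (stp x y (r - ip x y))))).card := by
  unfold hitsH
  let τ : Pos m ≃ Pos m := Equiv.ofBijective _ (tau_bij x y)
  symm
  apply card_bij' (fun f _ => f ∘ τ) (fun f _ => f ∘ τ.symm)
  · intro f hf
    rw [mem_filter] at hf ⊢
    refine ⟨mem_univ _, hf.2.1.comp τ.injective, ?_⟩
    have := hf.2.2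
    rw [inpH_tau] at this
    have e : ip x y + (r - ip x y) = r := by ring
    rw [e] at this
    exact this
  · intro f hf
    rw [mem_filter] at hf ⊢
    refine ⟨mem_univ _, hf.2.1.comp τ.symm.injective, ?_⟩
    rw [inpH_tau]
    have e : ip x y + (r - ip x y) = r := by ring
    rw [e]
    have e2 : (f ∘ ⇑τ.symm) ∘ tau x y = f := by
      funext p
      simp only [Function.comp]
      have : τ.symm (tau x y p) = p := τ.symm_apply_apply p
      rw [this]
    rw [e2]
    exact hf.2.2
  · intro f _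
    funext p
    simp
  · intro f _
    funext p
    simp

open Classical in
/-- The pairs of switch settings in `R`. -/
noncomputable def ssetH (k : ℕ) (f : Pos m → Fin n) (c : ZMod 3) (R : (Pr n → Bool) → Prop) :
    Finset ((Fin m → Bool) × (Fin m → Bool)) :=
  univ.filter (fun p => R (inpH k f (stp p.1 p.2 c)))

open Classical in
theorem hitsH_avg (r : ZMod 3) (R : (Pr n → Bool) → Prop) :
    4 ^ m * hitsH k n m r R = ∑ c : ZMod 3,
      ∑ f ∈ (univ : Finset (Pos m → Fin n)).filter (fun f => Function.Injective f),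
        ((ssetH k f c R).filter (fun p => ip p.1 p.2 = r - c)).card := by
  have h1 : 4 ^ m * hitsH k n m r R =
      ∑ p : (Fin m → Bool) × (Fin m → Bool), hitsH k n m r R := by
    rw [sum_const, card_univ, Fintype.card_prod, Fintype.card_fun, Fintype.card_bool,
      Fintype.card_fin, smul_eq_mul, ← mul_pow]
    norm_num
  rw [h1]
  have h2 : ∀ p : (Fin m → Bool) × (Fin m → Bool), hitsH k n m r R =
      ∑ c : ZMod 3, ∑ f ∈ (univ : Finset (Pos m → Fin n)).filter (fun f => Function.Injective f),
        if (R (inpH k f (stp p.1 p.2 c)) ∧ ip p.1 p.2 = r - c) then 1 else 0 := by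
    intro p
    rw [hitsH_tau r R p.1 p.2]
    rw [Finset.sum_eq_single (r - ip p.1 p.2)]
    · rw [← card_filter, filter_filter]
      congr 1
      ext f
      simp only [mem_filter, mem_univ, true_and]
      constructor
      · intro h
        exact ⟨h.1, h.2, by ring⟩
      · intro h
        exact ⟨h.1, h.2.1⟩
    · intro c _ hc
      apply sum_eq_zero
      intro f _
      rw [if_neg]
      rintro ⟨_, h⟩
      apply hc
      rw [h]; ring
    · intro h
      exact absurd (mem_univ _) h
  rw [sum_congr rfl (fun p _ => h2 p), sum_comm]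
  apply sum_congr rfl
  intro c _
  rw [sum_comm]
  apply sum_congr rfl
  intro f _
  rw [← card_filter, ssetH, filter_filter]

theorem ssetH_mixing {X Y : Finset (Pr n)} (hXY : Disjoint X Y) {R : (Pr n → Bool) → Prop}
    (hR : Mixing X Y R) (f : Pos m → Fin n) (c : ZMod 3) (x y x' y' : Fin m → Bool)
    (h1 : (x, y) ∈ ssetH k f c R) (h2 : (x', y') ∈ ssetH k f c R)
    (hx : ∀ i ∉ gset X Y f, x i = x' i) (hy : ∀ i ∉ gset X Y f, y i = y' i) :
    (x, y') ∈ ssetH k f c R := by
  classical
  simp only [ssetH, mem_filter, mem_univ, true_and] at h1 h2 ⊢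
  apply mixing_inpH hXY hR f c x y x' y' h1 h2
  · intro i hi
    apply hx i
    simp only [gset, mem_filter, mem_univ, true_and]
    exact hi
  · intro i hi
    apply hy i
    simp only [gset, mem_filter, mem_univ, true_and]
    exact hi

theorem term_boundH {X Y : Finset (Pr n)} (hXY : Disjoint X Y) {R : (Pr n → Bool) → Prop}
    (hR : Mixing X Y R) (f : Pos m → Fin n) (c a b : ZMod 3) (g₀ : ℕ)
    (hg : g₀ ≤ (gset X Y f).card) :
    |(((ssetH k f c R).filter (fun p => ip p.1 p.2 = a)).card : ℝ) -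
      ((ssetH k f c R).filter (fun p => ip p.1 p.2 = b)).card| ≤
      4 ^ m * (3 / 2 * (13 / 15) ^ g₀) := by
  have h := disc_ctx (gset X Y f) (ssetH k f c R)
    (fun x y x' y' h1 h2 hx hy => ssetH_mixing hXY hR f c x y x' y' h1 h2 hx hy) a b
  refine h.trans ?_
  rw [Fintype.card_fin]
  have hm : (gset X Y f).card ≤ m := by
    have := card_le_univ (gset X Y f)
    rwa [Fintype.card_fin] at this
  set g := (gset X Y f).card with hgdef
  have e : (4 : ℝ) ^ (m - g) * (Real.sqrt 2 * Real.sqrt 12 ^ g) =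
      4 ^ m * (Real.sqrt 2 * (Real.sqrt 12 / 4) ^ g) := by
    have : (4 : ℝ) ^ m = 4 ^ (m - g) * 4 ^ g := by rw [← pow_add]; congr 1; omega
    rw [this, div_pow]
    field_simp
  rw [e]
  apply mul_le_mul_of_nonneg_left _ (by positivity)
  apply mul_le_mul sqrt2_le _ (by positivity) (by norm_num)
  calc (Real.sqrt 12 / 4) ^ g ≤ (13 / 15) ^ g := pow_le_pow_left₀ (by positivity) sqrt12_le _
    _ ≤ (13 / 15) ^ g₀ := pow_le_pow_of_le_one (by norm_num) (by norm_num) hg

theorem term_trivialH (f : Pos m → Fin n) (c a b : ZMod 3) (R : (Pr n → Bool) → Prop) :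
    |(((ssetH k f c R).filter (fun p => ip p.1 p.2 = a)).card : ℝ) -
      ((ssetH k f c R).filter (fun p => ip p.1 p.2 = b)).card| ≤ 4 ^ m := by
  have h : ∀ a : ZMod 3, (((ssetH k f c R).filter (fun p => ip p.1 p.2 = a)).card : ℝ) ≤ 4 ^ m := by
    intro a
    have := card_le_univ ((ssetH k f c R).filter (fun p => ip p.1 p.2 = a))
    rw [Fintype.card_prod, Fintype.card_fun, Fintype.card_bool, Fintype.card_fin, ← mul_pow] at this
    exact_mod_cast this
  rw [abs_le]
  have h1 := h a
  have h2 := h b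
  have h3 : (0 : ℝ) ≤ ((ssetH k f c R).filter (fun p => ip p.1 p.2 = a)).card := by positivity
  have h4 : (0 : ℝ) ≤ ((ssetH k f c R).filter (fun p => ip p.1 p.2 = b)).card := by positivity
  constructor <;> linarith

open Classical in
/-- The main estimate. -/
theorem hitsH_diff (X Y : Finset (Pr n)) (hXY : Disjoint X Y) (hn : 0 < n) (K : ℕ)
    (hX : n ^ 2 ≤ K * X.card) (hY : n ^ 2 ≤ K * Y.card) (R : (Pr n → Bool) → Prop)
    (hR : Mixing X Y R) (g₀ : ℕ) (hm : m = 8 * K ^ 16 * g₀) :
    |(hitsH k n m 0 R : ℝ) - hitsH k n m 1 R| ≤ 8 * (13 / 15) ^ g₀ * (n : ℝ) ^ (24 * m) := by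
  have hKpos : 0 < K := by
    rcases Nat.eq_zero_or_pos K with h | h
    · rw [h] at hX
      have : 0 < n ^ 2 := by positivity
      omega
    · exact h
  have h0 := hitsH_avg (k := k) (n := n) (m := m) 0 R
  have h1 := hitsH_avg (k := k) (n := n) (m := m) 1 R
  have h0' : (4 : ℝ) ^ m * hitsH k n m 0 R = ∑ c : ZMod 3,
      ∑ f ∈ (univ : Finset (Pos m → Fin n)).filter (fun f => Function.Injective f),
        (((ssetH k f c R).filter (fun p => ip p.1 p.2 = 0 - c)).card : ℝ) := by exact_mod_cast h0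
  have h1' : (4 : ℝ) ^ m * hitsH k n m 1 R = ∑ c : ZMod 3,
      ∑ f ∈ (univ : Finset (Pos m → Fin n)).filter (fun f => Function.Injective f),
        (((ssetH k f c R).filter (fun p => ip p.1 p.2 = 1 - c)).card : ℝ) := by exact_mod_cast h1
  have htail := tail_bound (m := m) X Y hn K hX hY g₀
  rw [hm] at htail
  have hexp := exp_bound K g₀ hKpos
  rw [← hm] at htail hexp
  have hT : (((univ : Finset (Pos m → Fin n)).filter
      (fun f => (gset X Y f).card < g₀)).card : ℝ) ≤ (13 / 15) ^ g₀ * (n : ℝ) ^ (24 * m) := by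
    refine htail.trans ?_
    exact mul_le_mul_of_nonneg_right hexp (by positivity)
  have hc : ∀ c : ZMod 3,
      ∑ f ∈ (univ : Finset (Pos m → Fin n)).filter (fun f => Function.Injective f),
      |(((ssetH k f c R).filter (fun p => ip p.1 p.2 = 0 - c)).card : ℝ) -
        ((ssetH k f c R).filter (fun p => ip p.1 p.2 = 1 - c)).card| ≤
      4 ^ m * (5 / 2 * (13 / 15) ^ g₀ * (n : ℝ) ^ (24 * m)) := by
    intro c
    calc ∑ f ∈ (univ : Finset (Pos m → Fin n)).filter (fun f => Function.Injective f),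
          |(((ssetH k f c R).filter (fun p => ip p.1 p.2 = 0 - c)).card : ℝ) -
            ((ssetH k f c R).filter (fun p => ip p.1 p.2 = 1 - c)).card|
        ≤ ∑ f : Pos m → Fin n,
          |(((ssetH k f c R).filter (fun p => ip p.1 p.2 = 0 - c)).card : ℝ) -
            ((ssetH k f c R).filter (fun p => ip p.1 p.2 = 1 - c)).card| := by
          apply sum_le_sum_of_subset_of_nonneg (subset_univ _)
          intro _ _ _
          positivity
      _ ≤ ∑ f : Pos m → Fin n, (4 ^ m * (3 / 2 * (13 / 15) ^ g₀) +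
            if (gset X Y f).card < g₀ then 4 ^ m else 0) := by
          apply sum_le_sum
          intro f _
          by_cases hf : (gset X Y f).card < g₀
          · rw [if_pos hf]
            have h2 := term_trivialH (k := k) f c (0 - c) (1 - c) R
            have h3 : (0 : ℝ) ≤ 4 ^ m * (3 / 2 * (13 / 15) ^ g₀) := by positivity
            linarith
          · rw [if_neg hf, add_zero]
            exact term_boundH hXY hR f c _ _ g₀ (by omega)
      _ = 4 ^ m * (3 / 2 * (13 / 15) ^ g₀) * (n : ℝ) ^ (24 * m) +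
          (((univ : Finset (Pos m → Fin n)).filter
            (fun f => (gset X Y f).card < g₀)).card : ℝ) * 4 ^ m := by
          rw [sum_add_distrib, sum_const, card_univ, Fintype.card_fun, card_Pos, Fintype.card_fin,
            ← sum_filter, sum_const, nsmul_eq_mul, nsmul_eq_mul]
          push_cast
          ring
      _ ≤ 4 ^ m * (3 / 2 * (13 / 15) ^ g₀) * (n : ℝ) ^ (24 * m) +
          ((13 / 15) ^ g₀ * (n : ℝ) ^ (24 * m)) * 4 ^ m := by
          gcongr
      _ = _ := by ring
  have hfinal : (4 : ℝ) ^ m * |(hitsH k n m 0 R : ℝ) - hitsH k n m 1 R| ≤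
      4 ^ m * (8 * (13 / 15) ^ g₀ * (n : ℝ) ^ (24 * m)) := by
    calc (4 : ℝ) ^ m * |(hitsH k n m 0 R : ℝ) - hitsH k n m 1 R|
        = |(4 : ℝ) ^ m * hitsH k n m 0 R - 4 ^ m * hitsH k n m 1 R| := by
          rw [← mul_sub, abs_mul, abs_of_nonneg (by positivity : (0 : ℝ) ≤ 4 ^ m)]
      _ ≤ ∑ c : ZMod 3, 4 ^ m * (5 / 2 * (13 / 15) ^ g₀ * (n : ℝ) ^ (24 * m)) := by
          rw [h0', h1', ← sum_sub_distrib]
          refine (abs_sum_le_sum_abs _ _).trans (sum_le_sum (fun c _ => ?_))
          rw [← sum_sub_distrib]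
          exact (abs_sum_le_sum_abs _ _).trans (hc c)
      _ = 4 ^ m * (15 / 2 * (13 / 15) ^ g₀ * (n : ℝ) ^ (24 * m)) := by
          rw [sum_const, card_univ, ZMod.card, nsmul_eq_mul]
          push_cast
          ring
      _ ≤ 4 ^ m * (8 * (13 / 15) ^ g₀ * (n : ℝ) ^ (24 * m)) := by
          gcongr
          norm_num
  exact le_of_mul_le_mul_left hfinal (by positivity)

/-- The number of all placements. -/
theorem hitsH_all (r : ZMod 3) (R : (Pr n → Bool) → Prop)
    (hR : ∀ f : Pos m → Fin n, Function.Injective f → R (inpH k f (strt m r))) (B g₀ : ℕ)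
    (hm : m = B * g₀) (hn : 57600 * B * m ≤ n) (hn0 : 0 < n) :
    (99 / 100 : ℝ) ^ g₀ * (n : ℝ) ^ (24 * m) ≤ hitsH k n m r R := by
  classical
  have h1 : hitsH k n m r R = n.descFactorial (24 * m) := by
    unfold hitsH
    have e : ((univ : Finset (Pos m → Fin n)).filter
        (fun f => Function.Injective f ∧ R (inpH k f (strt m r)))) =
        (univ : Finset (Pos m ↪ Fin n)).map ⟨fun f p => f p,
          fun f g h => by ext p; exact congrArg Fin.val (congrFun h p)⟩ := by
      ext f
      simp only [mem_filter, mem_univ, true_and, mem_map]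
      constructor
      · rintro ⟨h, _⟩
        exact ⟨⟨f, h⟩, rfl⟩
      · rintro ⟨g, rfl⟩
        exact ⟨g.injective, hR _ g.injective⟩
    rw [e, card_map, card_univ, Fintype.card_embedding_eq, card_Pos, Fintype.card_fin]
  have h2 : (n - 24 * m) ^ (24 * m) ≤ n.descFactorial (24 * m) := by
    refine le_trans ?_ (Nat.pow_sub_le_descFactorial n (24 * m))
    apply Nat.pow_le_pow_left
    omega
  rcases Nat.eq_zero_or_pos g₀ with hg | hg
  · subst hg
    simp only [mul_zero] at hm
    subst hm
    rw [h1]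
    simp
  rcases Nat.eq_zero_or_pos B with hB | hB
  · subst hB
    simp only [zero_mul] at hm
    subst hm
    rw [h1]
    simp only [mul_zero, pow_zero, mul_one, Nat.descFactorial_zero, Nat.cast_one]
    exact pow_le_one₀ (by norm_num) (by norm_num)
  have hm1 : 24 * m ≤ n := by
    have : 24 * m ≤ 57600 * B * m := by
      apply Nat.mul_le_mul_right
      omega
    omega
  have hnR : (0 : ℝ) < n := by exact_mod_cast hn0
  have h3 : ((n : ℝ) - 24 * m) ^ (24 * m) ≤ hitsH k n m r R := by
    rw [h1]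
    have : (((n - 24 * m : ℕ) : ℝ)) ^ (24 * m) ≤ (n.descFactorial (24 * m) : ℝ) := by
      exact_mod_cast h2
    rw [Nat.cast_sub hm1] at this
    push_cast at this
    exact this
  refine le_trans ?_ h3
  have h4 : ((n : ℝ) - 24 * m) ^ (24 * m) = ((1 - 24 * m / n) ^ (24 * B)) ^ g₀ * (n : ℝ) ^ (24 * m) := by
    rw [← pow_mul]
    have e : 24 * B * g₀ = 24 * m := by rw [hm]; ring
    rw [e, ← mul_pow]
    congr 1
    field_simp
  rw [h4]
  apply mul_le_mul_of_nonneg_right _ (by positivity)
  apply pow_le_pow_left₀ (by norm_num)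
  have h5 : (57600 * B * m : ℝ) ≤ n := by exact_mod_cast hn
  have hmR : (0 : ℝ) ≤ m := by positivity
  have hBR : (1 : ℝ) ≤ B := by exact_mod_cast hB
  have h6 : (24 * m / n : ℝ) ≤ 1 / (2400 * B) := by
    rw [div_le_div_iff₀ hnR (by positivity)]
    nlinarith
  have h7 : (0 : ℝ) ≤ 24 * m / n := by positivity
  have h8 : (1 / (2400 * B) : ℝ) ≤ 1 := by
    rw [div_le_one (by positivity)]
    nlinarith
  have h9 := one_add_mul_le_pow (a := (-(24 * m / n) : ℝ)) (by linarith) (24 * B)
  push_cast at h9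
  have e : (1 - 24 * m / n : ℝ) = 1 + -(24 * m / n) := by ring
  rw [e]
  refine le_trans ?_ h9
  have h10 : (24 * B : ℝ) * (24 * m / n) ≤ 24 * B * (1 / (2400 * B)) := by
    apply mul_le_mul_of_nonneg_left h6 (by positivity)
  have h11 : (24 * B * (1 / (2400 * B)) : ℝ) = 1 / 100 := by
    field_simp
    norm_num
  linarith

end Pool.Agent.V7H65.HD
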